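import Pool.Agent.Lib.TM.SpecG

/-! The decomposition of the sum of the error terms by the gcd. -/

namespace Pool.Agent.Lib.TM

open Finset Pool.Agent.Lib.EH3 Pool.Agent.Lib.TB Pool.Agent.Lib.TN Pool.Agent.Results.MP_00e23e_nt

private theorem Gde_pair (h1 : SG1) (N j Q : ℕ) (c c' : ℕ → ℝ) (a b : ℤ) :
    ((∑ d ∈ Ioc Q (2 * Q), ∑ d' ∈ Ioc Q (2 * Q),
      c d * c' d' * (SSN N j d d' a b - MM N d d' a b) : ℝ) : ℂ) =
      ∑ γ ∈ Icc 1 (2 * Q), pg Q γ (fEN N j γ c c' a b) := by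
  push_cast
  have := h1 Q (fun d d' => (((c d * c' d' * (SSN N j d d' a b - MM N d d' a b) : ℝ)) : ℂ))
  push_cast at this
  rw [this]
  refine Finset.sum_congr rfl fun g _ => ?_
  unfold pg fEN
  push_cast
  rfl

private theorem Gde_Bg (A : Finset ℤ) (γ : ℕ) (a : ℤ) :
    Bg A γ a = (A.erase a).filter (fun b => (γ : ℤ) ∣ b - a) := by
  ext b
  unfold Bg
  rw [mem_filter, mem_filter, mem_erase]
  tauto

theorem tGde (h1 : SG1) (h2 : SN3) : GdeStmt := by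
  intro N j Q A c
  have e1 : ((∑ a ∈ A, ∑ b ∈ A.erase a, ∑ d ∈ Ioc Q (2 * Q), ∑ d' ∈ Ioc Q (2 * Q),
      c a d * c b d' * (SSN N j d d' a b - MM N d d' a b) : ℝ) : ℂ) =
      ∑ γ ∈ Icc 1 (2 * Q), famG N j Q γ A c := by
    rw [Complex.ofReal_sum]
    have e2 : ∀ a ∈ A, ((∑ b ∈ A.erase a, ∑ d ∈ Ioc Q (2 * Q), ∑ d' ∈ Ioc Q (2 * Q),
        c a d * c b d' * (SSN N j d d' a b - MM N d d' a b) : ℝ) : ℂ) =
        ∑ γ ∈ Icc 1 (2 * Q), ∑ b ∈ Bg A γ a, pg Q γ (fEN N j γ (c a) (c b) a b) := by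
      intro a _
      rw [Complex.ofReal_sum, Finset.sum_congr rfl (fun b _ => Gde_pair h1 N j Q (c a) (c b) a b),
        Finset.sum_comm]
      refine Finset.sum_congr rfl fun γ _ => ?_
      rw [Gde_Bg, Finset.sum_filter]
      refine Finset.sum_congr rfl fun b _ => ?_
      split_ifs with h
      · rfl
      · exact h2 N j Q γ (c a) (c b) a b h
    rw [Finset.sum_congr rfl e2, Finset.sum_comm]
    rfl
  rw [← Real.norm_eq_abs, ← Complex.norm_real, e1]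
  exact norm_sum_le _ _

end Pool.Agent.Lib.TM
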