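import Pool.Agent.Lib.TM.SpecG

/-!
MP_00e23e_nt, Lib/TM, module Gex: the exponents (model: TN/N7).
-/

namespace Pool.Agent.Lib.TM

open Finset Pool.Agent.Lib.EH3 Pool.Agent.Lib.TB Pool.Agent.Lib.TN Pool.Agent.Results.MP_00e23e_nt

private lemma Gex_mono {x a b : ℝ} (hx : 1 ≤ x) (h : a ≤ b) : x ^ a ≤ x ^ b :=
  Real.rpow_le_rpow_of_exponent_le hx h

private lemma Gex_mul {x : ℝ} (hx : 0 < x) (a b : ℝ) : x ^ a * x ^ b = x ^ (a + b) :=
  (Real.rpow_add hx a b).symm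

/-- bound of the quantity G = 4 x^κ q^2/x -/
private lemma Gex_G {x δ κ q : ℝ} (hx : 1 ≤ x) (hq0 : 0 < q) (hq2 : q ≤ 2 * x ^ ((1 : ℝ) / 2 + δ)) :
    4 * x ^ κ * q ^ 2 / x ≤ 16 * x ^ (κ + 2 * δ) := by
  have hx0 : 0 < x := by linarith
  have h1 : q ^ 2 ≤ (2 * x ^ ((1 : ℝ) / 2 + δ)) ^ 2 := pow_le_pow_left₀ hq0.le hq2 2
  have h2 : (2 * x ^ ((1 : ℝ) / 2 + δ)) ^ 2 = 4 * (x * x ^ (2 * δ)) := by
    rw [mul_pow, ← Real.rpow_natCast (x ^ ((1 : ℝ) / 2 + δ)) 2, ← Real.rpow_mul hx0.le]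
    nth_rewrite 2 [← Real.rpow_one x]
    rw [Gex_mul hx0]
    norm_num
    ring_nf
  rw [div_le_iff₀ hx0, ← Gex_mul hx0]
  rw [h2] at h1
  have hK0 : 0 < x ^ κ := Real.rpow_pos_of_pos hx0 _
  calc 4 * x ^ κ * q ^ 2 ≤ 4 * x ^ κ * (4 * (x * x ^ (2 * δ))) :=
        mul_le_mul_of_nonneg_left h1 (by positivity)
    _ = 16 * (x ^ κ * x ^ (2 * δ)) * x := by ring

/-- the truncation error -/
private lemma Gex_one {x ε q h g : ℝ} {j : ℕ} (hx : 1 ≤ x) (hj : 3 ≤ ε / 200 * (2 * j + 1)) (hq0 : 0 < q)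
    (hg0 : 0 < g) (hh0 : 0 < h) (hgh : 4 * x ^ (ε / 200) * q ^ 2 / x ≤ g * h) :
    (4 * q ^ 2 / (g * x * h)) ^ (2 * j + 1) ≤ x ^ (-(3 : ℝ)) := by
  have hx0 : 0 < x := by linarith
  have hK : 0 < x ^ (ε / 200) := Real.rpow_pos_of_pos hx0 _
  have e1 : 4 * q ^ 2 / (g * x * h) ≤ x ^ (-(ε / 200)) := by
    rw [div_le_iff₀ (by positivity), Real.rpow_neg hx0.le]
    have h2 : 4 * q ^ 2 = (x ^ (ε / 200))⁻¹ * (x * (4 * x ^ (ε / 200) * q ^ 2 / x)) := by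
      field_simp
    calc 4 * q ^ 2 = (x ^ (ε / 200))⁻¹ * (x * (4 * x ^ (ε / 200) * q ^ 2 / x)) := h2
      _ ≤ (x ^ (ε / 200))⁻¹ * (x * (g * h)) := by
        refine mul_le_mul_of_nonneg_left (mul_le_mul_of_nonneg_left hgh hx0.le) (by positivity)
      _ = (x ^ (ε / 200))⁻¹ * (g * x * h) := by ring
  refine (pow_le_pow_left₀ (by positivity) e1 _).trans ?_
  rw [← Real.rpow_natCast, ← Real.rpow_mul hx0.le]
  refine Gex_mono hx ?_
  push_cast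
  linarith

/-- the small power -/
private lemma Gex_small {x δ ε q h : ℝ} (hx : 1 ≤ x) (hε : 0 < ε) (hδ1 : δ ≤ 1 / 14)
    (hε1 : ε ≤ 1 / 4) (hq0 : 0 < q) (hh0 : 0 < h) (hq2 : q ≤ 2 * x ^ ((1 : ℝ) / 2 + δ))
    (hh : h ≤ 32 * x ^ (ε / 200 + 2 * δ)) :
    (q * h * (2 * x)) ^ (ε / 1000) ≤ 2 * x ^ (3 * ε / 1000) := by
  have hx0 : 0 < x := by linarith
  have h1 : q * h * (2 * x) ≤ 256 * x ^ (3 : ℝ) := by
    calc q * h * (2 * x) ≤ (2 * x ^ ((1 : ℝ) / 2 + δ)) * (32 * x ^ (ε / 200 + 2 * δ)) * (2 * x) := by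
          refine mul_le_mul_of_nonneg_right ?_ (by positivity)
          exact mul_le_mul hq2 hh hh0.le (by positivity)
      _ = 128 * (x ^ ((1 : ℝ) / 2 + δ) * x ^ (ε / 200 + 2 * δ) * x ^ (1 : ℝ)) := by
          rw [Real.rpow_one]
          ring
      _ = 128 * x ^ ((1 : ℝ) / 2 + δ + (ε / 200 + 2 * δ) + 1) := by
          rw [Gex_mul hx0, Gex_mul hx0]
      _ ≤ 128 * x ^ (3 : ℝ) := mul_le_mul_of_nonneg_left (Gex_mono hx (by linarith)) (by norm_num)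
      _ ≤ 256 * x ^ (3 : ℝ) := mul_le_mul_of_nonneg_right (by norm_num) (by positivity)
  calc (q * h * (2 * x)) ^ (ε / 1000) ≤ (256 * x ^ (3 : ℝ)) ^ (ε / 1000) :=
        Real.rpow_le_rpow (by positivity) h1 (by linarith)
    _ = (256 : ℝ) ^ (ε / 1000) * x ^ (3 * ε / 1000) := by
        rw [Real.mul_rpow (by norm_num) (by positivity), ← Real.rpow_mul hx0.le]
        congr 2
        ring
    _ ≤ 2 * x ^ (3 * ε / 1000) := by
        refine mul_le_mul_of_nonneg_right ?_ (by positivity)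
        calc (256 : ℝ) ^ (ε / 1000) ≤ (256 : ℝ) ^ ((1 : ℝ) / 8) :=
              Real.rpow_le_rpow_of_exponent_le (by norm_num) (by linarith)
          _ = 2 := by
              rw [show (256 : ℝ) = 2 ^ (8 : ℝ) by norm_num, ← Real.rpow_mul (by norm_num)]
              norm_num

/-- the smooth factor -/
private lemma Gex_smooth {x κ q h g p : ℝ} (hx : 1 ≤ x) (hκ : 0 ≤ κ) (hq0 : 0 < q) (hg0 : 0 < g) (hh0 : 0 < h)
    (hgh : g * h ≤ 2 * (4 * x ^ κ * q ^ 2 / x)) (hp : q / (2 * g) ≤ p) :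
    1 + h * x / (g * p ^ 2) ≤ 33 * x ^ κ := by
  have hx0 : 0 < x := by linarith
  have hp0 : 0 < q / (2 * g) := by positivity
  have h7 : h * x / (g * p ^ 2) ≤ 32 * x ^ κ := by
    calc h * x / (g * p ^ 2) ≤ h * x / (g * (q / (2 * g)) ^ 2) :=
          div_le_div_of_nonneg_left (by positivity) (by positivity)
            (mul_le_mul_of_nonneg_left (pow_le_pow_left₀ hp0.le hp 2) hg0.le)
      _ = 4 * (g * h) * (x / q ^ 2) := by
          field_simp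
          ring
      _ ≤ 4 * (2 * (4 * x ^ κ * q ^ 2 / x)) * (x / q ^ 2) := by
          refine mul_le_mul_of_nonneg_right ?_ (by positivity)
          linarith
      _ = 32 * x ^ κ := by
          field_simp
          ring
  have h8 : 1 ≤ x ^ κ := Real.one_le_rpow hx hκ
  linarith

/-- the first part of the bound -/
private lemma Gex_fir {x δ v s ε κ h g l1 G : ℝ} (hx : 1 ≤ x)
    (hgh : g * h ≤ 2 * G) (hG : G ≤ 16 * x ^ (κ + 2 * δ)) (hl1 : x ^ (2 * δ + 2 * v - s + ε) ≤ l1) :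
    h * g / l1 ≤ 32 * x ^ (κ - 2 * v + s - ε) := by
  have hx0 : 0 < x := by linarith
  have hl0 : 0 < l1 := lt_of_lt_of_le (Real.rpow_pos_of_pos hx0 _) hl1
  calc h * g / l1 ≤ (32 * x ^ (κ + 2 * δ)) / x ^ (2 * δ + 2 * v - s + ε) := by
        refine div_le_div₀ (by positivity) ?_ (by positivity) hl1
        linarith
    _ = 32 * x ^ (κ - 2 * v + s - ε) := by
        rw [mul_div_assoc, ← Real.rpow_sub hx0]
        congr 2
        ring

/-- the second part of the bound -/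
private lemma Gex_sec {x δ v ε κ q h g p l2 : ℝ} (hx : 1 ≤ x) (hq0 : 0 < q)
    (hq2 : q ≤ 2 * x ^ ((1 : ℝ) / 2 + δ)) (hh0 : 0 < h) (hg1 : 1 ≤ g)
    (hgh : g * h ≤ 2 * (4 * x ^ κ * q ^ 2 / x)) (hp : q / (2 * g) ≤ p)
    (hl2 : l2 ≤ x ^ ((1 : ℝ) / 2 - 7 * δ - 4 * v - ε)) (hl0 : 0 ≤ l2) :
    h ^ 2 * (l2 / p) ^ ((1 : ℝ) / 2) ≤ 1536 * x ^ (2 * κ - 2 * v - ε / 2) := by
  have hx0 : 0 < x := by linarith
  have hg0 : 0 < g := by linarith
  have hp0 : 0 < q / (2 * g) := by positivity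
  have hp1 : 0 < p := lt_of_lt_of_le hp0 hp
  have hK0 : 0 < x ^ κ := Real.rpow_pos_of_pos hx0 _
  set w : ℝ := (l2 / q) ^ ((1 : ℝ) / 2) with hw
  have hw0 : 0 ≤ w := Real.rpow_nonneg (by positivity) _
  have h1 : (l2 / p) ^ ((1 : ℝ) / 2) ≤ 2 * g * w := by
    calc (l2 / p) ^ ((1 : ℝ) / 2) ≤ ((2 * g) ^ 2 * (l2 / q)) ^ ((1 : ℝ) / 2) := by
          refine Real.rpow_le_rpow (by positivity) ?_ (by norm_num)
          calc l2 / p ≤ l2 / (q / (2 * g)) := div_le_div_of_nonneg_left hl0 hp0 hp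
            _ = 2 * g * (l2 / q) := by field_simp
            _ ≤ (2 * g) ^ 2 * (l2 / q) := by
                refine mul_le_mul_of_nonneg_right ?_ (by positivity)
                nlinarith
      _ = 2 * g * w := by
          rw [Real.mul_rpow (by positivity) (by positivity), ← Real.rpow_natCast (2 * g) 2,
            ← Real.rpow_mul (by positivity), hw]
          norm_num
  have h2 : h ^ 2 * g ≤ 4 * (4 * x ^ κ * q ^ 2 / x) ^ 2 := by
    have h3 : (g * h) ^ 2 ≤ (2 * (4 * x ^ κ * q ^ 2 / x)) ^ 2 := pow_le_pow_left₀ (by positivity) hgh 2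
    have h4 : h ^ 2 * g ≤ (g * h) ^ 2 := by
      have h5 : (g * h) ^ 2 = h ^ 2 * (g * g) := by ring
      rw [h5]
      exact mul_le_mul_of_nonneg_left (by nlinarith) (by positivity)
    calc h ^ 2 * g ≤ (g * h) ^ 2 := h4
      _ ≤ (2 * (4 * x ^ κ * q ^ 2 / x)) ^ 2 := h3
      _ = 4 * (4 * x ^ κ * q ^ 2 / x) ^ 2 := by ring
  have h3 : q ^ 4 * w ≤ 12 * x ^ ((2 : ℝ) - 2 * v - ε / 2) := by
    have e1 : q ^ 4 * w = (q ^ 7 * l2) ^ ((1 : ℝ) / 2) := by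
      have e2 : q ^ 4 = (q ^ 8) ^ ((1 : ℝ) / 2) := by
        rw [← Real.rpow_natCast q 8, ← Real.rpow_mul hq0.le, ← Real.rpow_natCast q 4]
        norm_num
      rw [hw, e2, ← Real.mul_rpow (by positivity) (by positivity)]
      congr 1
      field_simp
    rw [e1]
    have e3 : q ^ 7 * l2 ≤ 144 * x ^ ((4 : ℝ) - 4 * v - ε) := by
      have e4 : q ^ 7 ≤ 128 * x ^ ((7 : ℝ) / 2 + 7 * δ) := by
        calc q ^ 7 ≤ (2 * x ^ ((1 : ℝ) / 2 + δ)) ^ 7 := pow_le_pow_left₀ hq0.le hq2 7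
          _ = 128 * x ^ ((7 : ℝ) / 2 + 7 * δ) := by
              rw [mul_pow, ← Real.rpow_natCast (x ^ ((1 : ℝ) / 2 + δ)) 7, ← Real.rpow_mul hx0.le]
              norm_num
              congr 1
              ring
      calc q ^ 7 * l2 ≤ (128 * x ^ ((7 : ℝ) / 2 + 7 * δ)) * x ^ ((1 : ℝ) / 2 - 7 * δ - 4 * v - ε) :=
            mul_le_mul e4 hl2 hl0 (by positivity)
        _ = 128 * x ^ ((4 : ℝ) - 4 * v - ε) := by
            rw [mul_assoc, Gex_mul hx0]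
            congr 2
            ring
        _ ≤ 144 * x ^ ((4 : ℝ) - 4 * v - ε) := mul_le_mul_of_nonneg_right (by norm_num) (by positivity)
    calc (q ^ 7 * l2) ^ ((1 : ℝ) / 2) ≤ (144 * x ^ ((4 : ℝ) - 4 * v - ε)) ^ ((1 : ℝ) / 2) :=
          Real.rpow_le_rpow (by positivity) e3 (by norm_num)
      _ = 12 * x ^ ((2 : ℝ) - 2 * v - ε / 2) := by
          rw [Real.mul_rpow (by norm_num) (by positivity), ← Real.rpow_mul hx0.le,
            show (144 : ℝ) = 12 ^ (2 : ℝ) by norm_num, ← Real.rpow_mul (by norm_num)]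
          norm_num
          congr 1
          ring
  have h4 : (4 * x ^ κ * q ^ 2 / x) ^ 2 * w ≤ 192 * x ^ (2 * κ - 2 * v - ε / 2) := by
    have e1 : (4 * x ^ κ * q ^ 2 / x) ^ 2 * w = 16 * (x ^ κ) ^ 2 * (q ^ 4 * w) / x ^ 2 := by
      field_simp
      ring
    rw [e1, div_le_iff₀ (by positivity)]
    calc 16 * (x ^ κ) ^ 2 * (q ^ 4 * w) ≤ 16 * (x ^ κ) ^ 2 * (12 * x ^ ((2 : ℝ) - 2 * v - ε / 2)) :=
          mul_le_mul_of_nonneg_left h3 (by positivity)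
      _ = 192 * (x ^ (2 * κ) * x ^ ((2 : ℝ) - 2 * v - ε / 2)) := by
          rw [← Real.rpow_natCast (x ^ κ) 2, ← Real.rpow_mul hx0.le]
          have : κ * ((2 : ℕ) : ℝ) = 2 * κ := by push_cast; ring
          rw [this]
          ring
      _ = 192 * (x ^ (2 * κ - 2 * v - ε / 2) * x ^ (2 : ℝ)) := by
          rw [Gex_mul hx0, Gex_mul hx0]
          congr 2
          ring
      _ = 192 * x ^ (2 * κ - 2 * v - ε / 2) * x ^ 2 := by
          rw [Real.rpow_two]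
          ring
  calc h ^ 2 * (l2 / p) ^ ((1 : ℝ) / 2) ≤ h ^ 2 * (2 * g * w) :=
        mul_le_mul_of_nonneg_left h1 (by positivity)
    _ = 2 * (h ^ 2 * g) * w := by ring
    _ ≤ 2 * (4 * (4 * x ^ κ * q ^ 2 / x) ^ 2) * w := by
        refine mul_le_mul_of_nonneg_right ?_ hw0
        linarith
    _ = 8 * ((4 * x ^ κ * q ^ 2 / x) ^ 2 * w) := by ring
    _ ≤ 8 * (192 * x ^ (2 * κ - 2 * v - ε / 2)) := mul_le_mul_of_nonneg_left h4 (by norm_num)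
    _ = 1536 * x ^ (2 * κ - 2 * v - ε / 2) := by ring

/-- the last factor -/
private lemma Gex_las {x v s ε κ K A B : ℝ} (hx : 1 ≤ x) (hκ : 0 ≤ κ) (hε : 0 < ε) (hK : x ^ s ≤ K)
    (hA : A ≤ 32 * x ^ (κ - 2 * v + s - ε)) (hB : B ≤ 1536 * x ^ (2 * κ - 2 * v - ε / 2)) :
    K * (K * x ^ v) ^ 2 * (A + K * B) ≤ 1568 * K ^ 4 * x ^ (2 * κ - ε / 2) := by
  have hx0 : 0 < x := by linarith
  have hK0 : 0 < K := lt_of_lt_of_le (Real.rpow_pos_of_pos hx0 _) hK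
  have h1 : (x ^ v) ^ 2 = x ^ (2 * v) := by
    rw [← Real.rpow_natCast (x ^ v) 2, ← Real.rpow_mul hx0.le]
    congr 1
    push_cast
    ring
  have h2 : x ^ (2 * v) * A ≤ 32 * K * x ^ (2 * κ - ε / 2) := by
    calc x ^ (2 * v) * A ≤ x ^ (2 * v) * (32 * x ^ (κ - 2 * v + s - ε)) :=
          mul_le_mul_of_nonneg_left hA (by positivity)
      _ = 32 * (x ^ s * x ^ (κ - ε)) := by
          rw [mul_left_comm, Gex_mul hx0, Gex_mul hx0]
          congr 2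
          ring
      _ ≤ 32 * (K * x ^ (2 * κ - ε / 2)) := by
          refine mul_le_mul_of_nonneg_left ?_ (by norm_num)
          exact mul_le_mul hK (Gex_mono hx (by linarith)) (by positivity) hK0.le
      _ = 32 * K * x ^ (2 * κ - ε / 2) := by ring
  have h3 : x ^ (2 * v) * B ≤ 1536 * x ^ (2 * κ - ε / 2) := by
    calc x ^ (2 * v) * B ≤ x ^ (2 * v) * (1536 * x ^ (2 * κ - 2 * v - ε / 2)) :=
          mul_le_mul_of_nonneg_left hB (by positivity)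
      _ = 1536 * x ^ (2 * κ - ε / 2) := by
          rw [mul_left_comm, Gex_mul hx0]
          congr 2
          ring
  calc K * (K * x ^ v) ^ 2 * (A + K * B) = K ^ 3 * (x ^ (2 * v) * A) + K ^ 4 * (x ^ (2 * v) * B) := by
        rw [mul_pow, h1]
        ring
    _ ≤ K ^ 3 * (32 * K * x ^ (2 * κ - ε / 2)) + K ^ 4 * (1536 * x ^ (2 * κ - ε / 2)) :=
        add_le_add (mul_le_mul_of_nonneg_left h2 (by positivity)) (mul_le_mul_of_nonneg_left h3 (by positivity))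
    _ = 1568 * K ^ 4 * x ^ (2 * κ - ε / 2) := by ring

/-- the root -/
private lemma Gex_root {x ε K R : ℝ} (hx : 1 ≤ x) (hε : 0 < ε) (hK : 0 < K) (hR0 : 0 ≤ R)
    (hR : R ≤ 103488 * K ^ 4 * x ^ (3 * ε / 1000 + ε / 200 + (2 * (ε / 200) - ε / 2))) :
    R ^ ((1 : ℝ) / 2) ≤ 322 * K ^ 2 * x ^ (-(ε / 10)) := by
  have hx0 : 0 < x := by linarith
  have h1 : R ≤ (322 * K ^ 2 * x ^ (-(ε / 10))) ^ 2 := by
    refine hR.trans ?_
    have h2 : (322 * K ^ 2 * x ^ (-(ε / 10))) ^ 2 = 103684 * K ^ 4 * x ^ (-(ε / 5)) := by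
      rw [mul_pow, mul_pow, ← Real.rpow_natCast (x ^ (-(ε / 10))) 2, ← Real.rpow_mul hx0.le]
      have : -(ε / 10) * ((2 : ℕ) : ℝ) = -(ε / 5) := by push_cast; ring
      rw [this]
      ring
    rw [h2]
    refine mul_le_mul ?_ (Gex_mono hx (by linarith)) (by positivity) (by positivity)
    exact mul_le_mul_of_nonneg_right (by norm_num) (by positivity)
  have h3 : 0 ≤ 322 * K ^ 2 * x ^ (-(ε / 10)) := by positivity
  calc R ^ ((1 : ℝ) / 2) ≤ ((322 * K ^ 2 * x ^ (-(ε / 10))) ^ 2) ^ ((1 : ℝ) / 2) :=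
        Real.rpow_le_rpow hR0 h1 (by norm_num)
    _ = 322 * K ^ 2 * x ^ (-(ε / 10)) := by
        rw [← Real.sqrt_eq_rpow, Real.sqrt_sq h3]

/-- a quotient with floor is at least half of the quotient -/
private lemma Gex_div {Q g : ℕ} (hg : 1 ≤ g) (h : g ≤ Q) : (Q : ℝ) / (2 * g) ≤ ((Q / g : ℕ) : ℝ) := by
  have hg' : (0 : ℝ) < g := by exact_mod_cast hg
  have h1 : Q < g * (Q / g) + g := by
    have := Nat.lt_mul_div_succ Q (show 0 < g by omega)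
    rw [Nat.mul_add, Nat.mul_one] at this
    exact this
  have h2 : 1 ≤ Q / g := (Nat.one_le_div_iff (by omega)).mpr h
  have h3 : (Q : ℝ) ≤ g * ((Q / g : ℕ) : ℝ) + g := by exact_mod_cast h1.le
  have h4 : (1 : ℝ) ≤ ((Q / g : ℕ) : ℝ) := by exact_mod_cast h2
  rw [div_le_iff₀ (by positivity)]
  nlinarith

theorem tGex : GexStmt := by
  intro δ v s ε C j hδ hv hs hs2 hε hde hC hj
  have hδ1 : δ ≤ 1 / 14 := by linarith
  have hε1 : ε ≤ 1 / 4 := by linarith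
  obtain ⟨N1, hN1⟩ := exists_nat_ge ((16 : ℝ) ^ (2 / ε))
  refine ⟨322 * C, max N1 5000, by positivity, ?_⟩
  intro N Q γ L1 L2 K hN0 hN hγ hQ2 hL1 hL12 hL2 hK hγN
  have hx : (1 : ℝ) ≤ N := by exact_mod_cast hN
  have hx0 : (0 : ℝ) < N := by linarith
  have hx5000 : (5000 : ℝ) ≤ N := by
    have : 5000 ≤ N := (le_max_right _ _).trans hN0
    exact_mod_cast this
  have hxε : (16 : ℝ) ≤ (N : ℝ) ^ (ε / 2) := by
    have h1 : (16 : ℝ) ^ (2 / ε) ≤ N := hN1.trans (by exact_mod_cast (le_max_left _ _).trans hN0)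
    calc (16 : ℝ) = ((16 : ℝ) ^ (2 / ε)) ^ (ε / 2) := by
          rw [← Real.rpow_mul (by norm_num)]
          have : 2 / ε * (ε / 2) = 1 := by field_simp
          rw [this, Real.rpow_one]
      _ ≤ (N : ℝ) ^ (ε / 2) := Real.rpow_le_rpow (by positivity) h1 (by linarith)
  have hx4 : (8 : ℝ) ≤ (N : ℝ) ^ ((1 : ℝ) / 4) := by
    calc (8 : ℝ) = (4096 : ℝ) ^ ((1 : ℝ) / 4) := by
          rw [show (4096 : ℝ) = 8 ^ (4 : ℝ) by norm_num, ← Real.rpow_mul (by norm_num)]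
          norm_num
      _ ≤ (N : ℝ) ^ ((1 : ℝ) / 4) := Real.rpow_le_rpow (by norm_num) (by linarith) (by norm_num)
  have hg1 : (1 : ℝ) ≤ γ := by exact_mod_cast hγ
  have hg0 : (0 : ℝ) < γ := by linarith
  have hK0 : 0 < K := lt_of_lt_of_le (Real.rpow_pos_of_pos hx0 _) hK
  have hκ0 : 0 < (N : ℝ) ^ (ε / 200) := Real.rpow_pos_of_pos hx0 _
  have hQ0 : (0 : ℝ) < Q := by
    rcases Nat.eq_zero_or_pos Q with h | h
    · rw [h] at hγN
      push_cast at hγN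
      have : 0 < (γ : ℝ) * N := by positivity
      nlinarith
    · exact_mod_cast h
  set G : ℝ := 4 * (N : ℝ) ^ (ε / 200) * (Q : ℝ) ^ 2 / N with hGdef
  have hG0 : 0 < G := by positivity
  have hgG : (γ : ℝ) ≤ G := by
    rw [hGdef, le_div_iff₀ hx0]
    exact hγN
  have hG16 : G ≤ 16 * (N : ℝ) ^ (ε / 200 + 2 * δ) := Gex_G hx hQ0 hQ2
  have hGg : 1 ≤ G / γ := by
    rw [le_div_iff₀ hg0]
    linarith
  refine ⟨⌈G / γ⌉₊, ?_, ?_⟩
  · rw [Nat.one_le_ceil_iff]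
    positivity
  have hh1 : G / γ ≤ (⌈G / γ⌉₊ : ℝ) := Nat.le_ceil _
  have hh2 : (⌈G / γ⌉₊ : ℝ) ≤ 2 * (G / γ) := by
    have := (Nat.ceil_lt_add_one (show 0 ≤ G / γ by linarith)).le
    linarith
  generalize ⌈G / γ⌉₊ = H at hh1 hh2 ⊢
  have hH0 : (0 : ℝ) < H := by linarith
  have hgh1 : G ≤ γ * H := by
    rw [div_le_iff₀ hg0] at hh1
    linarith
  have hgh2 : (γ : ℝ) * H ≤ 2 * G := by
    have h1 : 2 * (G / γ) * γ = 2 * G := by field_simp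
    have h2 := mul_le_mul_of_nonneg_right hh2 hg0.le
    rw [h1] at h2
    linarith
  have hH32 : (H : ℝ) ≤ 32 * (N : ℝ) ^ (ε / 200 + 2 * δ) := by
    have h1 : (H : ℝ) ≤ γ * H := by nlinarith
    linarith
  -- γ ≤ Q
  have hgQr : (γ : ℝ) ≤ Q := by
    refine hgG.trans ?_
    have h1 : 4 * (N : ℝ) ^ (ε / 200) * Q ≤ N := by
      calc 4 * (N : ℝ) ^ (ε / 200) * Q ≤ 4 * (N : ℝ) ^ (ε / 200) * (2 * (N : ℝ) ^ ((1 : ℝ) / 2 + δ)) :=
            mul_le_mul_of_nonneg_left hQ2 (by positivity)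
        _ = 8 * (N : ℝ) ^ (ε / 200 + (1 / 2 + δ)) := by
            rw [← Gex_mul hx0 (ε / 200) (1 / 2 + δ)]
            ring
        _ ≤ (N : ℝ) ^ ((1 : ℝ) / 4) * (N : ℝ) ^ (ε / 200 + (1 / 2 + δ)) :=
            mul_le_mul_of_nonneg_right hx4 (by positivity)
        _ = (N : ℝ) ^ ((1 : ℝ) / 4 + (ε / 200 + (1 / 2 + δ))) := Gex_mul hx0 _ _
        _ ≤ (N : ℝ) ^ (1 : ℝ) := Gex_mono hx (by linarith)
        _ = N := Real.rpow_one _
    rw [hGdef, div_le_iff₀ hx0]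
    calc 4 * (N : ℝ) ^ (ε / 200) * (Q : ℝ) ^ 2 = Q * (4 * (N : ℝ) ^ (ε / 200) * Q) := by ring
      _ ≤ Q * N := mul_le_mul_of_nonneg_left h1 hQ0.le
  have hgQ : γ ≤ Q := by exact_mod_cast hgQr
  have hdiv := Gex_div hγ hgQ
  have hL10 : 1 ≤ L1 := by
    refine le_trans ?_ hL1
    exact Real.one_le_rpow hx (by linarith)
  refine ⟨hgQ, ?_, hL10, ?_, ?_, ?_⟩
  · -- 2 H γ ≤ Q^2
    have h1 : 2 * (H : ℝ) * γ ≤ (Q : ℝ) ^ 2 := by
      have h2 : 4 * G ≤ (Q : ℝ) ^ 2 := by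
        have h3 : 16 * (N : ℝ) ^ (ε / 200) ≤ N := by
          calc 16 * (N : ℝ) ^ (ε / 200) ≤ ((N : ℝ) ^ ((1 : ℝ) / 4) * (N : ℝ) ^ ((1 : ℝ) / 4)) * (N : ℝ) ^ (ε / 200) := by
                refine mul_le_mul_of_nonneg_right ?_ hκ0.le
                nlinarith
            _ = (N : ℝ) ^ ((1 : ℝ) / 4 + 1 / 4 + ε / 200) := by
                rw [Gex_mul hx0, Gex_mul hx0]
            _ ≤ (N : ℝ) ^ (1 : ℝ) := Gex_mono hx (by linarith)
            _ = N := Real.rpow_one _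
        have h4 : 4 * G = 16 * (N : ℝ) ^ (ε / 200) * (Q : ℝ) ^ 2 / N := by
          rw [hGdef]
          ring
        rw [h4, div_le_iff₀ hx0]
        calc 16 * (N : ℝ) ^ (ε / 200) * (Q : ℝ) ^ 2 ≤ N * (Q : ℝ) ^ 2 :=
              mul_le_mul_of_nonneg_right h3 (by positivity)
          _ = (Q : ℝ) ^ 2 * N := by ring
      linarith
    exact_mod_cast h1
  · -- L2 ≤ P
    refine le_trans ?_ hdiv
    have h1 : (Q : ℝ) / (2 * G) ≤ (Q : ℝ) / (2 * γ) :=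
      div_le_div_of_nonneg_left hQ0.le (by positivity) (by linarith)
    refine le_trans ?_ h1
    rw [le_div_iff₀ (by positivity), hGdef]
    have h2 : L2 * (2 * (4 * (N : ℝ) ^ (ε / 200) * (Q : ℝ) ^ 2 / N)) = (8 * L2 * (N : ℝ) ^ (ε / 200) * Q / N) * Q := by
      field_simp
      ring
    rw [h2]
    have h3 : 8 * L2 * (N : ℝ) ^ (ε / 200) * Q / N ≤ 1 := by
      rw [div_le_one hx0]
      have hL20 : 0 ≤ L2 := by linarith
      calc 8 * L2 * (N : ℝ) ^ (ε / 200) * Q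
          ≤ 8 * (N : ℝ) ^ ((1 : ℝ) / 2 - 7 * δ - 4 * v - ε) * (N : ℝ) ^ (ε / 200) * (2 * (N : ℝ) ^ ((1 : ℝ) / 2 + δ)) := by
            refine mul_le_mul ?_ hQ2 hQ0.le (by positivity)
            refine mul_le_mul_of_nonneg_right ?_ hκ0.le
            linarith
        _ = 16 * ((N : ℝ) ^ ((1 : ℝ) / 2 - 7 * δ - 4 * v - ε) * (N : ℝ) ^ (ε / 200) * (N : ℝ) ^ ((1 : ℝ) / 2 + δ)) := by ring
        _ = 16 * (N : ℝ) ^ ((1 : ℝ) / 2 - 7 * δ - 4 * v - ε + ε / 200 + (1 / 2 + δ)) := by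
            rw [Gex_mul hx0, Gex_mul hx0]
        _ ≤ (N : ℝ) ^ (ε / 2) * (N : ℝ) ^ ((1 : ℝ) / 2 - 7 * δ - 4 * v - ε + ε / 200 + (1 / 2 + δ)) :=
            mul_le_mul_of_nonneg_right hxε (by positivity)
        _ = (N : ℝ) ^ (ε / 2 + ((1 : ℝ) / 2 - 7 * δ - 4 * v - ε + ε / 200 + (1 / 2 + δ))) := Gex_mul hx0 _ _
        _ ≤ (N : ℝ) ^ (1 : ℝ) := Gex_mono hx (by linarith)
        _ = N := Real.rpow_one _
    calc 8 * L2 * (N : ℝ) ^ (ε / 200) * Q / N * Q ≤ 1 * Q := mul_le_mul_of_nonneg_right h3 hQ0.le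
      _ = Q := one_mul _
  · exact Gex_one hx hj hQ0 hg0 hH0 hgh1
  · -- the main bound
    have hL20 : 0 ≤ L2 := by linarith
    have hP0 : (0 : ℝ) < ((Q / γ : ℕ) : ℝ) := lt_of_lt_of_le (by positivity) hdiv
    have a1 := Gex_small hx hε hδ1 hε1 hQ0 hH0 hQ2 hH32
    have a2 := Gex_smooth hx (by linarith : (0 : ℝ) ≤ ε / 200) hQ0 hg0 hH0 hgh2 hdiv
    have a3 := Gex_fir hx hgh2 hG16 hL1
    have a4 := Gex_sec hx hQ0 hQ2 hH0 hg1 hgh2 hdiv hL2 hL20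
    have a5 := Gex_las hx (by linarith : (0 : ℝ) ≤ ε / 200) hε hK a3 a4
    have a6 : bndG (ε / 1000) N Q H γ L1 L2 K (K * (N : ℝ) ^ v) ≤
        103488 * K ^ 4 * (N : ℝ) ^ (3 * ε / 1000 + ε / 200 + (2 * (ε / 200) - ε / 2)) := by
      unfold bndG
      have b1 : ((H : ℝ) * γ / L1 + K * (H : ℝ) ^ 2 * (L2 / ((Q / γ : ℕ) : ℝ)) ^ ((1 : ℝ) / 2)) =
          ((H : ℝ) * γ / L1 + K * ((H : ℝ) ^ 2 * (L2 / ((Q / γ : ℕ) : ℝ)) ^ ((1 : ℝ) / 2))) := by ring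
      rw [b1]
      calc _ ≤ (2 * (N : ℝ) ^ (3 * ε / 1000)) * (33 * (N : ℝ) ^ (ε / 200)) *
            (1568 * K ^ 4 * (N : ℝ) ^ (2 * (ε / 200) - ε / 2)) := by
            refine mul_le_mul (mul_le_mul a1 a2 (by positivity) (by positivity)) a5 (by positivity) (by positivity)
        _ = 103488 * K ^ 4 * ((N : ℝ) ^ (3 * ε / 1000) * (N : ℝ) ^ (ε / 200) * (N : ℝ) ^ (2 * (ε / 200) - ε / 2)) := by ring
        _ = _ := by rw [Gex_mul hx0, Gex_mul hx0]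
    have a7 : 0 ≤ bndG (ε / 1000) N Q H γ L1 L2 K (K * (N : ℝ) ^ v) := by
      unfold bndG
      positivity
    have a8 := Gex_root hx hε hK0 a7 a6
    calc C * ((N : ℝ) / γ) * (bndG (ε / 1000) N Q H γ L1 L2 K (K * (N : ℝ) ^ v)) ^ ((1 : ℝ) / 2)
        ≤ C * ((N : ℝ) / γ) * (322 * K ^ 2 * (N : ℝ) ^ (-(ε / 10))) :=
          mul_le_mul_of_nonneg_left a8 (by positivity)
      _ = 322 * C * K ^ 2 * ((N : ℝ) ^ (1 : ℝ) * (N : ℝ) ^ (-(ε / 10))) / γ := by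
          rw [Real.rpow_one]
          ring
      _ = 322 * C * K ^ 2 * (N : ℝ) ^ (1 - ε / 10) / γ := by
          rw [Gex_mul hx0]
          congr 2

end Pool.Agent.Lib.TM
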