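import Pool.Agent.Lib.TM.SpecG

/-! The result of part G: the sum of the error terms of the pairs for the whole family. -/

set_option autoImplicit false

namespace Pool.Agent.Lib.TM

open Finset Pool.Agent.Lib.EH3 Pool.Agent.Lib.TB Pool.Agent.Lib.TN Pool.Agent.Results.MP_00e23e_nt

private theorem Gfi_harm (Q : ℕ) : ∑ γ ∈ Icc 1 (2 * Q), (1 : ℝ) / γ ≤ 1 + Real.log (2 * Q) := by
  have h := harmonic_le_one_add_log (2 * Q)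
  rw [harmonic_eq_sum_Icc] at h
  push_cast at h
  have e : ∑ γ ∈ Icc 1 (2 * Q), (1 : ℝ) / γ = ∑ x ∈ Icc 1 (2 * Q), ((x : ℝ))⁻¹ :=
    Finset.sum_congr rfl fun γ _ => one_div _
  rw [e]
  exact h

private theorem Gfi_log (N Q : ℕ) (ε : ℝ) (hN : 1 ≤ N) (hε : 0 < ε) (hε1 : ε ≤ 1) (hQ : (1 : ℝ) ≤ Q)
    (hQN : (Q : ℝ) ≤ 2 * N) : ∑ γ ∈ Icc 1 (2 * Q), (1 : ℝ) / γ ≤ (1 + 80 / ε) * (N : ℝ) ^ (ε / 20) := by
  have hNr : (1 : ℝ) ≤ N := by exact_mod_cast hN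
  have hN0 : (0 : ℝ) < N := by linarith
  have h1 : Real.log (2 * Q) ≤ Real.log (4 * N) := Real.log_le_log (by linarith) (by linarith)
  have h2 : Real.log (4 * N) ≤ (4 * (N : ℝ)) ^ (ε / 20) / (ε / 20) :=
    Real.log_le_rpow_div (by positivity) (by positivity)
  have h3 : (4 * (N : ℝ)) ^ (ε / 20) ≤ 4 * (N : ℝ) ^ (ε / 20) := by
    rw [Real.mul_rpow (by norm_num) hN0.le]
    apply mul_le_mul_of_nonneg_right _ (by positivity)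
    calc (4 : ℝ) ^ (ε / 20) ≤ (4 : ℝ) ^ (1 : ℝ) :=
          Real.rpow_le_rpow_of_exponent_le (by norm_num) (by linarith)
      _ = 4 := by norm_num
  have h4 : (4 * (N : ℝ)) ^ (ε / 20) / (ε / 20) ≤ 80 / ε * (N : ℝ) ^ (ε / 20) := by
    rw [div_le_iff₀ (by positivity)]
    have : 80 / ε * (N : ℝ) ^ (ε / 20) * (ε / 20) = 4 * (N : ℝ) ^ (ε / 20) := by
      field_simp
      ring
    rw [this]
    exact h3
  have h5 : (1 : ℝ) ≤ (N : ℝ) ^ (ε / 20) := Real.one_le_rpow hNr (by positivity)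
  have h6 := Gfi_harm Q
  calc ∑ γ ∈ Icc 1 (2 * Q), (1 : ℝ) / γ ≤ 1 + Real.log (2 * Q) := h6
    _ ≤ (N : ℝ) ^ (ε / 20) + 80 / ε * (N : ℝ) ^ (ε / 20) := by linarith
    _ = (1 + 80 / ε) * (N : ℝ) ^ (ε / 20) := by ring

theorem tGfi (h1 : GlaStmt) (h2 : GsmStmt) (h3 : GexStmt) (h4 : GdeStmt) : EEMStmt := by
  intro δ v g ε hδ hv hg hgδ hε hcond
  have hε4 : ε ≤ 1 / 4 := by linarith
  have hδ' : δ ≤ 1 / 14 := by linarith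
  set j : ℕ := ⌈600 / ε⌉₊ with hj
  have hj1 : 600 / ε ≤ (j : ℝ) := Nat.le_ceil _
  have hj2 : 3 ≤ ε / 200 * (2 * (j : ℝ) + 1) := by
    have h5 : ε * (600 / ε) ≤ ε * j := mul_le_mul_of_nonneg_left hj1 hε.le
    have h5' : ε * (600 / ε) = 600 := by field_simp
    rw [h5'] at h5
    have h6' : ε / 200 * (2 * (j : ℝ) + 1) = (ε * j) / 100 + ε / 200 := by ring
    rw [h6']
    linarith
  obtain ⟨C, hC0, hC⟩ := h2 (ε / 1000) j (by positivity)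
  obtain ⟨C1, N0, hC10, hC1⟩ := h3 δ v g ε C j hδ hv hg hgδ hε hcond hC0 hj2
  refine ⟨j, 64 + C1 * (1 + 80 / ε), ε / 20, ε / 200, N0, by positivity, by positivity, ?_⟩
  intro N Q L1 L2 K A c hN hN1 hQ1 hQ2 hL1 hL2 hcf hconv hA hgK ha
  have hNr : (1 : ℝ) ≤ N := by exact_mod_cast hN1
  have hN0 : (0 : ℝ) < N := by linarith
  have hK1 : 1 ≤ K := (Real.one_le_rpow hNr hg).trans hgK
  by_cases hL : L1 ≤ L2
  swap
  · have hz : ∀ a d, c a d = 0 := by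
      intro a d
      by_contra hd
      obtain ⟨-, s, -, hs1, hs2⟩ := hconv a d hd
      exact hL (hs1.trans hs2)
    have : ∑ a ∈ A, ∑ b ∈ A.erase a, ∑ d ∈ Ioc Q (2 * Q), ∑ d' ∈ Ioc Q (2 * Q),
        c a d * c b d' * (SSN N j d d' a b - MM N d d' a b) = 0 := by
      refine Finset.sum_eq_zero fun a _ => Finset.sum_eq_zero fun b _ => Finset.sum_eq_zero fun d _ =>
        Finset.sum_eq_zero fun d' _ => ?_
      rw [hz a d, zero_mul, zero_mul]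
    rw [this, abs_zero]
    positivity
  have hQ0 : (0 : ℝ) < Q := lt_of_lt_of_le (Real.rpow_pos_of_pos hN0 _) hQ1
  have hQr : (1 : ℝ) ≤ Q := by
    have : 0 < Q := by exact_mod_cast hQ0
    exact_mod_cast this
  have hQN : (Q : ℝ) ≤ 2 * N := by
    refine hQ2.trans ?_
    have := Real.rpow_le_rpow_of_exponent_le hNr (by linarith : (1 : ℝ) / 2 + δ ≤ 1)
    rw [Real.rpow_one] at this
    linarith
  have hNm3 : (0 : ℝ) < (N : ℝ) ^ (-3 : ℝ) := Real.rpow_pos_of_pos hN0 _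
  -- every γ
  have hone : ∀ γ ∈ Icc 1 (2 * Q), ‖famG N j Q γ A c‖ ≤
      K ^ 2 * (2 * (Q : ℝ)) ^ 2 * (N : ℝ) ^ (-3 : ℝ) +
        C1 * K ^ 2 * (N : ℝ) ^ (1 - ε / 10) * (1 / (γ : ℝ)) := by
    intro γ hγ
    have hγ1 : 1 ≤ γ := (mem_Icc.1 hγ).1
    have hγr : (1 : ℝ) ≤ γ := by exact_mod_cast hγ1
    have hγ0 : (0 : ℝ) < γ := by linarith
    by_cases hsm : (γ : ℝ) * N ≤ 4 * (N : ℝ) ^ (ε / 200) * (Q : ℝ) ^ 2
    · obtain ⟨H, hH, i1, i2, i3, i4, i5, i6⟩ := hC1 N Q γ L1 L2 K hN hN1 hγ1 hQ2 hL1 hL hL2 hgK hsm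
      have h7 := hC N Q H γ L1 L2 K (K * (N : ℝ) ^ v) A c hN1 hH hγ1 i1 i2 i3 hL i4 hcf hconv hA ha
      refine h7.trans (add_le_add ?_ ?_)
      · exact mul_le_mul_of_nonneg_left i5 (by positivity)
      · refine i6.trans (le_of_eq ?_)
        ring
    · push Not at hsm
      have h7 := h1 N j Q γ K A c hN1 hγ1 hcf
      have hb : 4 * (Q : ℝ) ^ 2 / ((γ : ℝ) * N) ≤ (N : ℝ) ^ (-(ε / 200)) := by
        rw [div_le_iff₀ (by positivity)]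
        have hk : (N : ℝ) ^ (-(ε / 200)) * (N : ℝ) ^ (ε / 200) = 1 := by
          rw [← Real.rpow_add hN0, neg_add_cancel, Real.rpow_zero]
        have hk0 : (0 : ℝ) < (N : ℝ) ^ (-(ε / 200)) := Real.rpow_pos_of_pos hN0 _
        calc 4 * (Q : ℝ) ^ 2 = (N : ℝ) ^ (-(ε / 200)) * (4 * (N : ℝ) ^ (ε / 200) * (Q : ℝ) ^ 2) := by
              rw [show (N : ℝ) ^ (-(ε / 200)) * (4 * (N : ℝ) ^ (ε / 200) * (Q : ℝ) ^ 2) =
                ((N : ℝ) ^ (-(ε / 200)) * (N : ℝ) ^ (ε / 200)) * (4 * (Q : ℝ) ^ 2) by ring, hk, one_mul]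
          _ ≤ (N : ℝ) ^ (-(ε / 200)) * ((γ : ℝ) * N) := mul_le_mul_of_nonneg_left hsm.le hk0.le
      have hp : (4 * (Q : ℝ) ^ 2 / ((γ : ℝ) * N)) ^ (2 * j + 1) ≤ (N : ℝ) ^ (-3 : ℝ) := by
        calc (4 * (Q : ℝ) ^ 2 / ((γ : ℝ) * N)) ^ (2 * j + 1)
            ≤ ((N : ℝ) ^ (-(ε / 200))) ^ (2 * j + 1) :=
              pow_le_pow_left₀ (by positivity) hb _
          _ = (N : ℝ) ^ (-(ε / 200) * ((2 * j + 1 : ℕ) : ℝ)) := by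
              rw [← Real.rpow_natCast, ← Real.rpow_mul hN0.le]
          _ ≤ (N : ℝ) ^ (-3 : ℝ) := by
              apply Real.rpow_le_rpow_of_exponent_le hNr
              push_cast
              linarith
      refine h7.trans ?_
      have h8 : K ^ 2 * (2 * (Q : ℝ)) ^ 2 * (4 * (Q : ℝ) ^ 2 / ((γ : ℝ) * N)) ^ (2 * j + 1) ≤
          K ^ 2 * (2 * (Q : ℝ)) ^ 2 * (N : ℝ) ^ (-3 : ℝ) :=
        mul_le_mul_of_nonneg_left hp (by positivity)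
      have h9 : 0 ≤ C1 * K ^ 2 * (N : ℝ) ^ (1 - ε / 10) * (1 / (γ : ℝ)) := by positivity
      linarith
  have hsum := h4 N j Q A c
  have hs2 : ∑ γ ∈ Icc 1 (2 * Q), ‖famG N j Q γ A c‖ ≤
      (2 * (Q : ℝ)) * (K ^ 2 * (2 * (Q : ℝ)) ^ 2 * (N : ℝ) ^ (-3 : ℝ)) +
        C1 * K ^ 2 * (N : ℝ) ^ (1 - ε / 10) * ∑ γ ∈ Icc 1 (2 * Q), (1 : ℝ) / γ := by
    refine (Finset.sum_le_sum hone).trans (le_of_eq ?_)
    rw [Finset.sum_add_distrib, Finset.sum_const, Nat.card_Icc, nsmul_eq_mul, ← Finset.mul_sum]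
    congr 2
    push_cast
    simp
  have hlog := Gfi_log N Q ε hN1 hε (by linarith) hQr hQN
  have hN3 : (N : ℝ) ^ 3 * (N : ℝ) ^ (-3 : ℝ) = 1 := by
    rw [← Real.rpow_natCast, ← Real.rpow_add hN0]
    norm_num
  have hE : (2 * (Q : ℝ)) * (K ^ 2 * (2 * (Q : ℝ)) ^ 2 * (N : ℝ) ^ (-3 : ℝ)) ≤ 64 * K ^ 2 := by
    have h10 : (Q : ℝ) ^ 3 ≤ (2 * (N : ℝ)) ^ 3 := pow_le_pow_left₀ hQ0.le hQN 3
    calc (2 * (Q : ℝ)) * (K ^ 2 * (2 * (Q : ℝ)) ^ 2 * (N : ℝ) ^ (-3 : ℝ))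
        = 8 * K ^ 2 * (N : ℝ) ^ (-3 : ℝ) * (Q : ℝ) ^ 3 := by ring
      _ ≤ 8 * K ^ 2 * (N : ℝ) ^ (-3 : ℝ) * (2 * (N : ℝ)) ^ 3 :=
          mul_le_mul_of_nonneg_left h10 (by positivity)
      _ = 64 * K ^ 2 * ((N : ℝ) ^ 3 * (N : ℝ) ^ (-3 : ℝ)) := by ring
      _ = 64 * K ^ 2 := by rw [hN3, mul_one]
  have hone' : (1 : ℝ) ≤ (N : ℝ) ^ (1 - ε / 20) := Real.one_le_rpow hNr (by linarith)
  have hmul : (N : ℝ) ^ (1 - ε / 10) * (N : ℝ) ^ (ε / 20) = (N : ℝ) ^ (1 - ε / 20) := by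
    rw [← Real.rpow_add hN0]
    congr 1
    ring
  calc |∑ a ∈ A, ∑ b ∈ A.erase a, ∑ d ∈ Ioc Q (2 * Q), ∑ d' ∈ Ioc Q (2 * Q),
        c a d * c b d' * (SSN N j d d' a b - MM N d d' a b)|
      ≤ (2 * (Q : ℝ)) * (K ^ 2 * (2 * (Q : ℝ)) ^ 2 * (N : ℝ) ^ (-3 : ℝ)) +
        C1 * K ^ 2 * (N : ℝ) ^ (1 - ε / 10) * ∑ γ ∈ Icc 1 (2 * Q), (1 : ℝ) / γ := hsum.trans hs2
    _ ≤ 64 * K ^ 2 * (N : ℝ) ^ (1 - ε / 20) +
        C1 * K ^ 2 * (N : ℝ) ^ (1 - ε / 10) * ((1 + 80 / ε) * (N : ℝ) ^ (ε / 20)) := by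
        refine add_le_add ?_ ?_
        · refine hE.trans ?_
          exact le_mul_of_one_le_right (by positivity) hone'
        · exact mul_le_mul_of_nonneg_left hlog (by positivity)
    _ = 64 * K ^ 2 * (N : ℝ) ^ (1 - ε / 20) +
        C1 * K ^ 2 * (1 + 80 / ε) * ((N : ℝ) ^ (1 - ε / 10) * (N : ℝ) ^ (ε / 20)) := by ring
    _ = (64 + C1 * (1 + 80 / ε)) * K ^ 2 * (N : ℝ) ^ (1 - ε / 20) := by
        rw [hmul]
        ring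

end Pool.Agent.Lib.TM
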