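import Pool.Agent.Lib.TM.SpecG
set_option autoImplicit false

/-!
MP_00e23e_nt, directory Lib/TM (THEOREM M), module Gla: the bound of famG for every γ.
-/

namespace Pool.Agent.Lib.TM

open Finset Pool.Agent.Lib.EH3 Pool.Agent.Lib.TB Pool.Agent.Lib.TN Pool.Agent.Results.MP_00e23e_nt

theorem tGla (h1 : Gv1Stmt) (h2 : GpnStmt) : GlaStmt := by
  intro N j Q γ K A c hN hγ hc
  have hN' : (1 : ℝ) ≤ N := by exact_mod_cast hN
  have hγ' : (1 : ℝ) ≤ γ := by exact_mod_cast hγ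
  have hD : (0 : ℝ) ≤ (4 * (Q : ℝ) ^ 2 / ((γ : ℝ) * N)) ^ (2 * j + 1) := by positivity
  have key := h2 Q γ K ((4 * (Q : ℝ) ^ 2 / ((γ : ℝ) * N)) ^ (2 * j + 1)) A (Bg A γ) c
    (fun a b m n => ((SSN N j (γ * m) (γ * n) a b - MM N (γ * m) (γ * n) a b : ℝ) : ℂ)) hγ hD hc
    (fun a _ => filter_subset _ _) (by
      intro a _ b _ m n hm hn m2 n2 m3 n3 hmn
      change ‖((SSN N j (γ * m) (γ * n) a b - MM N (γ * m) (γ * n) a b : ℝ) : ℂ)‖ ≤ _
      rw [Complex.norm_real, Real.norm_eq_abs]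
      refine (h1 N j (γ * m) (γ * n) a b hN (Nat.mul_pos hγ hm) (Nat.mul_pos hγ hn)).trans ?_
      have hq : Nat.lcm (γ * m) (γ * n) = γ * m * n := by
        rw [Nat.lcm_mul_left, hmn.lcm_eq_mul, mul_assoc]
      rw [hq]
      apply pow_le_pow_left₀ (by positivity)
      have hup : (γ : ℝ) * ((γ * m * n : ℕ) : ℝ) ≤ 4 * (Q : ℝ) ^ 2 := by
        have e1 : γ * (γ * m * n) = (γ * m) * (γ * n) := by ring
        have e2 : (γ * m) * (γ * n) ≤ (2 * Q) * (2 * Q) := Nat.mul_le_mul m3 n3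
        have e3 : γ * (γ * m * n) ≤ 4 * Q ^ 2 := by
          calc γ * (γ * m * n) = (γ * m) * (γ * n) := e1
            _ ≤ (2 * Q) * (2 * Q) := e2
            _ = 4 * Q ^ 2 := by ring
        exact_mod_cast e3
      rw [div_le_div_iff₀ (by linarith) (by positivity)]
      calc ((γ * m * n : ℕ) : ℝ) * ((γ : ℝ) * N) = ((γ : ℝ) * ((γ * m * n : ℕ) : ℝ)) * N := by ring
        _ ≤ (4 * (Q : ℝ) ^ 2) * N := mul_le_mul_of_nonneg_right hup (by linarith))
  have e : famG N j Q γ A c = ∑ a ∈ A, ∑ b ∈ Bg A γ a, pg Q γ (fun m n =>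
      ((c a (γ * m) * c b (γ * n) : ℝ) : ℂ) *
        ((SSN N j (γ * m) (γ * n) a b - MM N (γ * m) (γ * n) a b : ℝ) : ℂ)) := by
    unfold famG
    apply sum_congr rfl
    intro a _
    apply sum_congr rfl
    intro b _
    congr 1
    funext m n
    unfold fEN
    push_cast
    ring
  rw [e]
  exact key

end Pool.Agent.Lib.TM
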