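import Pool.Agent.Lib.TM.SpecG

/-!
MP_00e23e_nt, module TM/Gpn (task 8512): a bound of a family of forms pg.
-/

namespace Pool.Agent.Lib.TM

open Finset Pool.Agent.Lib.EH3 Pool.Agent.Lib.TB Pool.Agent.Lib.TN Pool.Agent.Results.MP_00e23e_nt

private lemma Gpn_mem (Q γ m : ℕ) (hγ : 1 ≤ γ) (hm : m ∈ Ioc (Q / γ) (2 * Q / γ)) :
    1 ≤ m ∧ Q < γ * m ∧ γ * m ≤ 2 * Q := by
  rw [mem_Ioc] at hm
  refine ⟨Nat.one_le_iff_ne_zero.mpr (by rintro rfl; exact absurd hm.1 (Nat.not_lt_zero _)), ?_, ?_⟩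
  · have := (Nat.div_lt_iff_lt_mul (by omega : 0 < γ)).mp hm.1
    rw [mul_comm]
    exact this
  · have := (Nat.le_div_iff_mul_le (by omega : 0 < γ)).mp hm.2
    rw [mul_comm]
    exact this

private lemma Gpn_one (Q γ : ℕ) (D : ℝ) (u w : ℕ → ℝ) (e : ℕ → ℕ → ℂ) (hγ : 1 ≤ γ) (hD : 0 ≤ D)
    (h : ∀ m n : ℕ, 1 ≤ m → 1 ≤ n → Q < γ * m → Q < γ * n → γ * m ≤ 2 * Q → γ * n ≤ 2 * Q →
      m.Coprime n → ‖e m n‖ ≤ D) :
    ‖pg Q γ (fun m n => ((u (γ * m) * w (γ * n) : ℝ) : ℂ) * e m n)‖ ≤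
      ∑ m ∈ Ioc (Q / γ) (2 * Q / γ), ∑ n ∈ Ioc (Q / γ) (2 * Q / γ),
        |u (γ * m)| * |w (γ * n)| * D := by
  unfold pg
  refine (norm_sum_le _ _).trans (sum_le_sum ?_)
  intro m hm
  refine (norm_sum_le _ _).trans ?_
  refine le_trans (sum_le_sum (g := fun n => |u (γ * m)| * |w (γ * n)| * D) ?_) ?_
  · intro n hn
    rw [mem_filter] at hn
    obtain ⟨m1, m2, m3⟩ := Gpn_mem Q γ m hγ hm
    obtain ⟨n1, n2, n3⟩ := Gpn_mem Q γ n hγ hn.1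
    have h1 := h m n m1 n1 m2 n2 m3 n3 hn.2
    rw [norm_mul, Complex.norm_real, Real.norm_eq_abs, abs_mul]
    exact mul_le_mul_of_nonneg_left h1 (by positivity)
  · refine sum_le_sum_of_subset_of_nonneg (filter_subset _ _) ?_
    intro n _ _
    positivity

theorem tGpn : GpnStmt := by
  intro Q γ K D A B c e hγ hD hc hB he
  set I := Ioc (Q / γ) (2 * Q / γ) with hI
  have hK : 0 ≤ K := le_trans (sum_nonneg (fun a _ => abs_nonneg (c a 0))) (hc.2 0)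
  have hcard : (I.card : ℝ) ≤ 2 * (Q : ℝ) := by
    rw [hI, Nat.card_Ioc]
    have : 2 * Q / γ - Q / γ ≤ 2 * Q := (Nat.sub_le _ _).trans (Nat.div_le_self _ _)
    exact_mod_cast this
  have hS : ∑ m ∈ I, ∑ a ∈ A, |c a (γ * m)| ≤ 2 * (Q : ℝ) * K := by
    calc ∑ m ∈ I, ∑ a ∈ A, |c a (γ * m)| ≤ ∑ _m ∈ I, K := sum_le_sum (fun m _ => hc.2 _)
      _ = (I.card : ℝ) * K := by rw [sum_const, nsmul_eq_mul]
      _ ≤ 2 * (Q : ℝ) * K := mul_le_mul_of_nonneg_right hcard hK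
  have hS0 : 0 ≤ ∑ m ∈ I, ∑ a ∈ A, |c a (γ * m)| :=
    sum_nonneg (fun m _ => sum_nonneg (fun a _ => abs_nonneg _))
  have h1 : ‖∑ a ∈ A, ∑ b ∈ B a,
      pg Q γ (fun m n => ((c a (γ * m) * c b (γ * n) : ℝ) : ℂ) * e a b m n)‖ ≤
      ∑ a ∈ A, ∑ b ∈ A, ∑ m ∈ I, ∑ n ∈ I, |c a (γ * m)| * |c b (γ * n)| * D := by
    refine (norm_sum_le _ _).trans (sum_le_sum ?_)
    intro a ha
    refine (norm_sum_le _ _).trans ?_
    refine le_trans (sum_le_sum (g := fun b => ∑ m ∈ I, ∑ n ∈ I,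
      |c a (γ * m)| * |c b (γ * n)| * D) ?_) ?_
    · intro b hb
      exact Gpn_one Q γ D (c a) (c b) (e a b) hγ hD (he a ha b hb)
    · refine sum_le_sum_of_subset_of_nonneg (hB a ha) ?_
      intro b _ _
      exact sum_nonneg (fun m _ => sum_nonneg (fun n _ => by positivity))
  have h2 : ∑ a ∈ A, ∑ b ∈ A, ∑ m ∈ I, ∑ n ∈ I, |c a (γ * m)| * |c b (γ * n)| * D =
      (∑ m ∈ I, ∑ a ∈ A, |c a (γ * m)|) * (∑ n ∈ I, ∑ b ∈ A, |c b (γ * n)|) * D := by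
    have e1 : ∑ m ∈ I, ∑ a ∈ A, |c a (γ * m)| = ∑ a ∈ A, ∑ m ∈ I, |c a (γ * m)| := sum_comm
    rw [e1, sum_mul_sum, sum_mul]
    refine sum_congr rfl (fun a _ => ?_)
    rw [sum_mul]
    refine sum_congr rfl (fun b _ => ?_)
    rw [sum_mul_sum, sum_mul]
    refine sum_congr rfl (fun m _ => ?_)
    rw [sum_mul]
  rw [h2] at h1
  refine h1.trans ?_
  calc (∑ m ∈ I, ∑ a ∈ A, |c a (γ * m)|) * (∑ n ∈ I, ∑ b ∈ A, |c b (γ * n)|) * D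
      ≤ (2 * (Q : ℝ) * K) * (2 * (Q : ℝ) * K) * D := by
        refine mul_le_mul_of_nonneg_right ?_ hD
        exact mul_le_mul hS hS hS0 (by positivity)
    _ = K ^ 2 * (2 * (Q : ℝ)) ^ 2 * D := by ring

end Pool.Agent.Lib.TM
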