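import Pool.Agent.Lib.TM.SpecG
import Pool.Agent.Lib.TB.Msm

/-! The count with the weight wt N j and error (q/N)^(2j+1). -/

namespace Pool.Agent.Lib.TM

open Finset Pool.Agent.Lib.EH3 Pool.Agent.Lib.TB Pool.Agent.Lib.TN Pool.Agent.Results.MP_00e23e_nt

private lemma Gv0_zero (N : ℕ) : ‖GG N 0‖ = N := by
  unfold GG
  simp [ee_zero]

private lemma Gv0_pt {N q h : ℕ} (h0 : 1 ≤ h) (h1 : h < q) :
    ‖GG N ((h : ℝ) / (q : ℝ))‖ ^ 2 ≤ (q : ℝ) ^ 2 := by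
  have hq : (0 : ℝ) < q := by exact_mod_cast (by omega : 0 < q)
  have hHh : (1 : ℝ) ≤ h := by exact_mod_cast h0
  have hhq : (h : ℝ) + 1 ≤ q := by exact_mod_cast (by omega : h + 1 ≤ q)
  set t : ℝ := (h : ℝ) / q with ht
  have ht0 : 1 / (q : ℝ) ≤ t := (div_le_div_iff_of_pos_right hq).2 hHh
  have ht1 : 1 / (q : ℝ) ≤ 1 - t := by
    rw [ht, le_sub_iff_add_le, ← add_div, div_le_one hq]
    linarith
  have hHq : 0 < 1 / (q : ℝ) := div_pos one_pos hq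
  have hfr : Int.fract t = t := Int.fract_eq_self.2 ⟨by linarith, by linarith⟩
  have h2 : |t - round t| = min t (1 - t) := by
    rw [abs_sub_round_eq_min, hfr]
  have h3 : 1 / (q : ℝ) ≤ |t - round t| := by
    rw [h2]
    exact le_min ht0 ht1
  have h4 := norm_GG_sq_le (N := N) (abs_pos.1 (hHq.trans_le h3))
  refine h4.trans ?_
  have h5 : (1 / (q : ℝ)) ^ 2 ≤ (t - round t) ^ 2 := by
    rw [← sq_abs (t - round t)]
    exact pow_le_pow_left₀ hHq.le h3 2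
  have h6 : (q : ℝ) ^ 2 = 1 / (1 / (q : ℝ)) ^ 2 := by
    field_simp
  rw [h6]
  apply one_div_le_one_div_of_le (by positivity)
  nlinarith [sq_nonneg (t - round t)]

/-- ‖GG‖^(2j+2)/N^(2j+1) ≤ (q^(2j)/N^(2j+1)) ‖GG‖² -/
private lemma Gv0_ker {N q h : ℕ} (j : ℕ) (hN : 1 ≤ N) (h0 : 1 ≤ h) (h1 : h < q) :
    ‖GG N ((h : ℝ) / (q : ℝ))‖ ^ (2 * j + 2) / (N : ℝ) ^ (2 * j + 1) ≤
      ((q : ℝ) ^ (2 * j) / (N : ℝ) ^ (2 * j + 1)) * ‖GG N ((h : ℝ) / (q : ℝ))‖ ^ 2 := by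
  have hN' : (0 : ℝ) < N := by exact_mod_cast hN
  have h2 : ‖GG N ((h : ℝ) / (q : ℝ))‖ ^ (2 * j + 2) =
      (‖GG N ((h : ℝ) / (q : ℝ))‖ ^ 2) ^ j * ‖GG N ((h : ℝ) / (q : ℝ))‖ ^ 2 := by
    rw [← pow_mul, ← pow_add]
  have h3 : ((q : ℝ) ^ (2 * j) / (N : ℝ) ^ (2 * j + 1)) * ‖GG N ((h : ℝ) / (q : ℝ))‖ ^ 2 =
      (((q : ℝ) ^ 2) ^ j * ‖GG N ((h : ℝ) / (q : ℝ))‖ ^ 2) / (N : ℝ) ^ (2 * j + 1) := by
    rw [← pow_mul]
    ring
  rw [h2, h3]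
  refine (div_le_div_iff_of_pos_right (by positivity)).2 ?_
  exact mul_le_mul_of_nonneg_right (pow_le_pow_left₀ (by positivity) (Gv0_pt h0 h1) j) (by positivity)

theorem tGv0 (h1 : WxStmt) : Gv0Stmt := by
  intro N j q b hN hq
  have hN' : (0 : ℝ) < N := by exact_mod_cast hN
  have hq' : (0 : ℝ) < q := by exact_mod_cast hq
  have h3 := h1 N j q b hN hq
  have h4 := (tMsm N q hN hq).2
  have h5 : range q = insert 0 (Ico 1 q) := by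
    ext i
    simp only [mem_range, mem_insert, mem_Ico]
    omega
  have h6 : (0 : ℕ) ∉ Ico 1 q := by simp
  rw [h5, sum_insert h6] at h3
  set S : ℂ := ∑ h ∈ Ico 1 q, ee (-((h : ℝ) * (b : ℝ) / (q : ℝ))) *
    ((‖GG N ((h : ℝ) / (q : ℝ))‖ ^ (2 * j + 2) / (N : ℝ) ^ (2 * j + 1) : ℝ) : ℂ) with hS
  have h7 : ‖S‖ ≤ ((q : ℝ) ^ (2 * j) / (N : ℝ) ^ (2 * j + 1)) * (q : ℝ) ^ 2 := by
    calc ‖S‖ ≤ ∑ h ∈ Ico 1 q, ((q : ℝ) ^ (2 * j) / (N : ℝ) ^ (2 * j + 1)) *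
          ‖GG N ((h : ℝ) / q)‖ ^ 2 := by
          refine (norm_sum_le _ _).trans (sum_le_sum fun h hh => ?_)
          rw [mem_Ico] at hh
          rw [norm_mul, norm_ee, one_mul, Complex.norm_real,
            Real.norm_of_nonneg (by positivity)]
          exact Gv0_ker j hN hh.1 hh.2
      _ = ((q : ℝ) ^ (2 * j) / (N : ℝ) ^ (2 * j + 1)) *
          ∑ h ∈ Ico 1 q, ‖GG N ((h : ℝ) / q)‖ ^ 2 := by rw [mul_sum]
      _ ≤ ((q : ℝ) ^ (2 * j) / (N : ℝ) ^ (2 * j + 1)) * (q : ℝ) ^ 2 :=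
          mul_le_mul_of_nonneg_left h4 (by positivity)
  have hqc : (q : ℂ) ≠ 0 := by exact_mod_cast hq'.ne'
  have hNc : (N : ℂ) ≠ 0 := by exact_mod_cast hN'.ne'
  have h0N : (N : ℝ) ^ (2 * j + 2) / (N : ℝ) ^ (2 * j + 1) = N := by
    rw [div_eq_iff (by positivity)]
    ring
  have h8 : ((clN N j q b - (N : ℝ) / q : ℝ) : ℂ) = (1 / (q : ℂ)) * S := by
    rw [Complex.ofReal_sub, h3]
    simp only [Nat.cast_zero, zero_mul, zero_div, neg_zero, ee_zero, one_mul, Gv0_zero]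
    rw [h0N]
    push_cast
    field_simp
    ring
  have h9 : |clN N j q b - (N : ℝ) / q| = ‖((clN N j q b - (N : ℝ) / q : ℝ) : ℂ)‖ := by
    rw [Complex.norm_real, Real.norm_eq_abs]
  have h10 : ‖(1 / (q : ℂ))‖ = 1 / (q : ℝ) := by simp
  rw [h9, h8, norm_mul, h10]
  calc 1 / (q : ℝ) * ‖S‖ ≤ 1 / (q : ℝ) * (((q : ℝ) ^ (2 * j) / (N : ℝ) ^ (2 * j + 1)) * (q : ℝ) ^ 2) :=
        mul_le_mul_of_nonneg_left h7 (by positivity)
    _ = ((q : ℝ) / N) ^ (2 * j + 1) := by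
        rw [div_pow]
        field_simp
        ring

end Pool.Agent.Lib.TM
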