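import Pool.Agent.Lib.TM.SpecG

/-! The bound of the error term of a pair of congruences (weight wt N j), copy of TN/Nsb. -/

namespace Pool.Agent.Lib.TM

open Finset Pool.Agent.Lib.EH3 Pool.Agent.Lib.TB Pool.Agent.Lib.TN Pool.Agent.Results.MP_00e23e_nt

theorem tGv1 (h1 : SsclNStmt) (h2 : SszeNStmt) (h3 : Gv0Stmt) : Gv1Stmt := by
  intro N j u w a b hN hu hw
  have hN0 : (0 : ℝ) < N := by exact_mod_cast hN
  have hl : 1 ≤ Nat.lcm u w := Nat.lcm_pos hu hw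
  have hl0 : (0 : ℝ) < (Nat.lcm u w : ℝ) := by exact_mod_cast hl
  by_cases hg : ((Nat.gcd u w : ℕ) : ℤ) ∣ a - b
  · have hg' : ((Int.gcd (u : ℤ) (w : ℤ) : ℕ) : ℤ) ∣ a - b := by
      rwa [Int.gcd_natCast_natCast]
    obtain ⟨x, y, hxy⟩ : ∃ x y : ℤ, a - b = (u : ℤ) * x + (w : ℤ) * y := by
      obtain ⟨k, hk⟩ := hg'
      refine ⟨Int.gcdA u w * k, Int.gcdB u w * k, ?_⟩
      rw [hk, Int.gcd_eq_gcd_ab]
      ring
    obtain ⟨hS, hM⟩ := h1 N j u w a b (a - u * x) hu hw ⟨-x, by ring⟩ ⟨y, by linarith⟩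
    rw [hS, hM]
    exact h3 N j _ _ hN hl
  · obtain ⟨hS, hM⟩ := h2 N j u w a b hg
    rw [hS, hM, sub_zero, abs_zero]
    positivity

end Pool.Agent.Lib.TM
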