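import Pool.Agent.Lib.TN.AllG
import Pool.Agent.Lib.TM.Gv0
import Pool.Agent.Lib.TM.Gv1
import Pool.Agent.Lib.TM.Gpn
import Pool.Agent.Lib.TM.Gla
import Pool.Agent.Lib.TM.Gma
import Pool.Agent.Lib.TM.Gsm
import Pool.Agent.Lib.TM.Gex
import Pool.Agent.Lib.TM.Gde
import Pool.Agent.Lib.TM.Gfi

/-!
MP_00e23e_nt, directory Lib/TM (THEOREM M): glue of part G: the sum of the error terms for the whole family, from the
trilinear form for the family.
-/

namespace Pool.Agent.Lib.TM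

open Pool.Agent.Lib.TB Pool.Agent.Lib.TN

theorem tEEM_of (h : UpgStmt) : EEMStmt :=
  tGfi (tGla (tGv1 tSsclN tSszeN (tGv0 (tWx (tWf tWb)))) tGpn)
    (tGsm (tN4 (tWtr (tWf tWb) (tWx (tWf tWb))) tSsclN) tGpn (tGma tWb h)) tGex (tGde tG1 (tN3 tSszeN))

end Pool.Agent.Lib.TM
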