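import Pool.Agent.Lib.TM.SpecU

/-!
MP_00e23e_nt, directory Lib/TM, module Ucs (helper68, after TN/Tcs of helper24): Cauchy's inequality over (a, m, r) in the
trilinear form.
-/

namespace Pool.Agent.Lib.TM

open Finset Pool.Agent.Lib.EH3 Pool.Agent.Lib.TB Pool.Agent.Lib.TN Pool.Agent.Results.MP_00e23e_nt

/-- one term of the inner sum -/
private noncomputable def Ucs_A (β : ℕ → ℕ → ℂ) (θ : ℤ) (τ : ℝ) (m r h s : ℕ) : ℂ :=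
  if m.Coprime (r * s) then β r s * eB ((h : ℤ) * θ) ((h : ℝ) * τ) m (r * s) else 0

/-- the inner sum -/
private noncomputable def Ucs_X (S H : ℕ) (B : Finset ℤ) (β : ℤ → ℕ → ℕ → ℂ) (θ : ℤ → ℤ) (τ : ℝ) (m r : ℕ) : ℂ :=
  ∑ b ∈ B, ∑ s ∈ Ico S (2 * S), ∑ h ∈ Icc 1 H, Ucs_A (β b) (θ b) τ m r h s

private theorem Ucs_form (P S H : ℕ) (B : Finset ℤ) (α : ℕ → ℂ) (β : ℤ → ℕ → ℕ → ℂ) (θ : ℤ → ℤ) (τ : ℝ) :
    ∑ b ∈ B, TfI P S H α (β b) (θ b) τ =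
      ∑ m ∈ Ioc P (3 * P), ∑ r ∈ Icc 1 (3 * P / S), α m * Ucs_X S H B β θ τ m r := by
  have h1 : ∀ b ∈ B, TfI P S H α (β b) (θ b) τ =
      ∑ m ∈ Ioc P (3 * P), ∑ r ∈ Icc 1 (3 * P / S),
        α m * ∑ s ∈ Ico S (2 * S), ∑ h ∈ Icc 1 H, Ucs_A (β b) (θ b) τ m r h s := by
    intro b _
    unfold TfI
    rw [Finset.sum_comm]
    refine Finset.sum_congr rfl fun m _ => ?_
    rw [Finset.sum_comm]
    refine Finset.sum_congr rfl fun r _ => ?_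
    rw [Finset.sum_comm (s := Ico S (2 * S)) (t := Icc 1 H), Finset.mul_sum]
    refine Finset.sum_congr rfl fun h _ => ?_
    rw [Finset.mul_sum, Finset.sum_filter]
    refine Finset.sum_congr rfl fun s _ => ?_
    unfold Ucs_A
    split_ifs
    · ring
    · simp
  rw [Finset.sum_congr rfl h1, Finset.sum_comm]
  refine Finset.sum_congr rfl fun m _ => ?_
  rw [Finset.sum_comm]
  refine Finset.sum_congr rfl fun r _ => ?_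
  unfold Ucs_X
  rw [Finset.mul_sum]

private theorem Ucs_sq (S H : ℕ) (B : Finset ℤ) (β : ℤ → ℕ → ℕ → ℂ) (θ : ℤ → ℤ) (τ : ℝ) (m r : ℕ) :
    ((‖Ucs_X S H B β θ τ m r‖ ^ 2 : ℝ) : ℂ) =
      ∑ b1 ∈ B, ∑ b2 ∈ B, ∑ s1 ∈ Ico S (2 * S), ∑ s2 ∈ Ico S (2 * S), ∑ h1 ∈ Icc 1 H, ∑ h2 ∈ Icc 1 H,
        Ucs_A (β b1) (θ b1) τ m r h1 s1 * (starRingEnd ℂ) (Ucs_A (β b2) (θ b2) τ m r h2 s2) := by
  have h1 : ((‖Ucs_X S H B β θ τ m r‖ ^ 2 : ℝ) : ℂ) =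
      Ucs_X S H B β θ τ m r * (starRingEnd ℂ) (Ucs_X S H B β θ τ m r) := by
    rw [Complex.mul_conj']
    push_cast
    rfl
  rw [h1]
  unfold Ucs_X
  rw [map_sum, Finset.sum_mul_sum]
  refine Finset.sum_congr rfl fun b1 _ => ?_
  refine Finset.sum_congr rfl fun b2 _ => ?_
  rw [map_sum, Finset.sum_mul_sum]
  refine Finset.sum_congr rfl fun s1 _ => ?_
  refine Finset.sum_congr rfl fun s2 _ => ?_
  rw [map_sum, Finset.sum_mul_sum]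

private theorem Ucs_prod (P : ℕ) (β1 β2 : ℕ → ℕ → ℂ) (θ1 θ2 : ℤ) (τ : ℝ) (r s1 s2 h1 h2 : ℕ) :
    ∑ m ∈ Ioc P (3 * P), Ucs_A β1 θ1 τ m r h1 s1 * (starRingEnd ℂ) (Ucs_A β2 θ2 τ m r h2 s2) =
      β1 r s1 * (starRingEnd ℂ) (β2 r s2) * ImM P θ1 θ2 τ r s1 s2 h1 h2 := by
  unfold ImM
  rw [Finset.mul_sum, Finset.sum_filter]
  refine Finset.sum_congr rfl fun m _ => ?_
  unfold Ucs_A
  by_cases c1 : m.Coprime (r * s1)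
  · by_cases c2 : m.Coprime (r * s2)
    · rw [if_pos c1, if_pos c2, if_pos ⟨c1, c2⟩, map_mul]
      ring
    · have hc : ¬ (m.Coprime (r * s1) ∧ m.Coprime (r * s2)) := fun h => c2 h.2
      rw [if_neg c2, if_neg hc, map_zero, mul_zero]
  · have hc : ¬ (m.Coprime (r * s1) ∧ m.Coprime (r * s2)) := fun h => c1 h.1
    rw [if_neg c1, if_neg hc, zero_mul]

private theorem Ucs_inner (P S H : ℕ) (B : Finset ℤ) (β : ℤ → ℕ → ℕ → ℂ) (θ : ℤ → ℤ) (τ : ℝ) (r : ℕ) :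
    ∑ m ∈ Ioc P (3 * P), ‖Ucs_X S H B β θ τ m r‖ ^ 2 ≤
      ∑ b1 ∈ B, ∑ b2 ∈ B, ∑ s1 ∈ Ico S (2 * S), ∑ s2 ∈ Ico S (2 * S), ∑ h1 ∈ Icc 1 H, ∑ h2 ∈ Icc 1 H,
        ‖β b1 r s1‖ * ‖β b2 r s2‖ * ‖ImM P (θ b1) (θ b2) τ r s1 s2 h1 h2‖ := by
  have key : ((∑ m ∈ Ioc P (3 * P), ‖Ucs_X S H B β θ τ m r‖ ^ 2 : ℝ) : ℂ) =
      ∑ b1 ∈ B, ∑ b2 ∈ B, ∑ s1 ∈ Ico S (2 * S), ∑ s2 ∈ Ico S (2 * S), ∑ h1 ∈ Icc 1 H, ∑ h2 ∈ Icc 1 H,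
        β b1 r s1 * (starRingEnd ℂ) (β b2 r s2) * ImM P (θ b1) (θ b2) τ r s1 s2 h1 h2 := by
    rw [Complex.ofReal_sum, Finset.sum_congr rfl (fun m _ => Ucs_sq S H B β θ τ m r), Finset.sum_comm]
    refine Finset.sum_congr rfl fun b1 _ => ?_
    rw [Finset.sum_comm]
    refine Finset.sum_congr rfl fun b2 _ => ?_
    rw [Finset.sum_comm]
    refine Finset.sum_congr rfl fun s1 _ => ?_
    rw [Finset.sum_comm]
    refine Finset.sum_congr rfl fun s2 _ => ?_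
    rw [Finset.sum_comm]
    refine Finset.sum_congr rfl fun h1 _ => ?_
    rw [Finset.sum_comm]
    refine Finset.sum_congr rfl fun h2 _ => ?_
    exact Ucs_prod P (β b1) (β b2) (θ b1) (θ b2) τ r s1 s2 h1 h2
  have hnn : 0 ≤ ∑ m ∈ Ioc P (3 * P), ‖Ucs_X S H B β θ τ m r‖ ^ 2 := Finset.sum_nonneg fun m _ => by positivity
  have h0 : ∑ m ∈ Ioc P (3 * P), ‖Ucs_X S H B β θ τ m r‖ ^ 2 =
      ‖((∑ m ∈ Ioc P (3 * P), ‖Ucs_X S H B β θ τ m r‖ ^ 2 : ℝ) : ℂ)‖ := by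
    rw [Complex.norm_real, Real.norm_of_nonneg hnn]
  rw [h0, key]
  refine (norm_sum_le _ _).trans (Finset.sum_le_sum fun b1 _ => ?_)
  refine (norm_sum_le _ _).trans (Finset.sum_le_sum fun b2 _ => ?_)
  refine (norm_sum_le _ _).trans (Finset.sum_le_sum fun s1 _ => ?_)
  refine (norm_sum_le _ _).trans (Finset.sum_le_sum fun s2 _ => ?_)
  refine (norm_sum_le _ _).trans (Finset.sum_le_sum fun h1 _ => ?_)
  refine (norm_sum_le _ _).trans (Finset.sum_le_sum fun h2 _ => ?_)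
  rw [norm_mul, norm_mul, RCLike.norm_conj]

theorem tUcs : UcsStmt := by
  intro P S H K A B α β θ τ hα hK
  obtain ⟨X, hX⟩ : ∃ X : ℤ → ℕ → ℕ → ℂ, X = fun a m r => Ucs_X S H (B a) β (θ a) (τ a) m r := ⟨_, rfl⟩
  obtain ⟨I, hI⟩ : ∃ I, I = A ×ˢ ((Ioc P (3 * P)) ×ˢ (Icc 1 (3 * P / S))) := ⟨_, rfl⟩
  have h1 : TfM P S H A B α β θ τ = ∑ x ∈ I, α x.1 x.2.1 * X x.1 x.2.1 x.2.2 := by
    unfold TfM
    rw [hI, Finset.sum_product]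
    refine Finset.sum_congr rfl fun a _ => ?_
    rw [Finset.sum_product, Ucs_form, hX]
  have h2 : ‖TfM P S H A B α β θ τ‖ ≤ ∑ x ∈ I, ‖α x.1 x.2.1‖ * ‖X x.1 x.2.1 x.2.2‖ := by
    rw [h1]
    refine (norm_sum_le _ _).trans (le_of_eq ?_)
    exact Finset.sum_congr rfl fun x _ => norm_mul _ _
  have h3 : ‖TfM P S H A B α β θ τ‖ ^ 2 ≤
      (∑ x ∈ I, ‖α x.1 x.2.1‖ ^ 2) * ∑ x ∈ I, ‖X x.1 x.2.1 x.2.2‖ ^ 2 :=
    (pow_le_pow_left₀ (norm_nonneg _) h2 2).trans (Finset.sum_mul_sq_le_sq_mul_sq _ _ _)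
  have h4 : ∑ x ∈ I, ‖α x.1 x.2.1‖ ^ 2 ≤ K * (2 * (P : ℝ) * ((3 * P / S : ℕ) : ℝ)) := by
    rw [hI, Finset.sum_product_right]
    have e1 : ∀ y ∈ (Ioc P (3 * P)) ×ˢ (Icc 1 (3 * P / S)), ∑ a ∈ A, ‖α a y.1‖ ^ 2 ≤ K := by
      intro y _
      refine (Finset.sum_le_sum fun a _ => ?_).trans (hK y.1)
      have := hα a y.1
      nlinarith [norm_nonneg (α a y.1)]
    refine (Finset.sum_le_sum e1).trans (le_of_eq ?_)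
    rw [Finset.sum_const, Finset.card_product, Nat.card_Ioc, Nat.card_Icc, nsmul_eq_mul]
    have e2 : 3 * P - P = 2 * P := by omega
    have e3 : 3 * P / S + 1 - 1 = 3 * P / S := Nat.add_sub_cancel _ _
    rw [e2, e3]
    push_cast
    ring
  have h5 : ∑ x ∈ I, ‖X x.1 x.2.1 x.2.2‖ ^ 2 ≤
      ∑ a ∈ A, ∑ r ∈ Icc 1 (3 * P / S), ∑ b1 ∈ B a, ∑ b2 ∈ B a, ∑ s1 ∈ Ico S (2 * S), ∑ s2 ∈ Ico S (2 * S),
      ∑ h1 ∈ Icc 1 H, ∑ h2 ∈ Icc 1 H,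
        ‖β b1 r s1‖ * ‖β b2 r s2‖ * ‖ImM P (θ a b1) (θ a b2) (τ a) r s1 s2 h1 h2‖ := by
    rw [hI, Finset.sum_product]
    refine Finset.sum_le_sum fun a _ => ?_
    rw [Finset.sum_product_right, hX]
    exact Finset.sum_le_sum fun r _ => Ucs_inner P S H (B a) β (θ a) (τ a) r
  have h6 : 0 ≤ ∑ x ∈ I, ‖α x.1 x.2.1‖ ^ 2 := Finset.sum_nonneg fun x _ => by positivity
  have h7 : 0 ≤ ∑ x ∈ I, ‖X x.1 x.2.1 x.2.2‖ ^ 2 := Finset.sum_nonneg fun x _ => by positivity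
  exact h3.trans (mul_le_mul h4 h5 h7 (h6.trans h4))

end Pool.Agent.Lib.TM
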