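import Pool.Agent.Lib.TM.SpecU
import Pool.Agent.Lib.TB.Tauk

/-!
MP_00e23e_nt, Lib/TM, part T, module Udg: counting the diagonal θ1 h1 s2 = θ2 h2 s1.
-/

set_option autoImplicit false

namespace Pool.Agent.Lib.TM

open Finset Pool.Agent.Lib.EH3 Pool.Agent.Lib.TB Pool.Agent.Lib.TN Pool.Agent.Results.MP_00e23e_nt

private lemma Udg_kk {θ1 θ2 : ℤ} {h1 h2 s1 s2 : ℕ} (h : kM θ1 θ2 h1 h2 s1 s2 = 0) :
    θ1 * h1 * s2 = θ2 * h2 * s1 := by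
  unfold kM at h
  have e1 : ((s1 / Nat.gcd s1 s2 : ℕ) : ℤ) * (Nat.gcd s1 s2 : ℤ) = s1 := by
    exact_mod_cast Nat.div_mul_cancel (Nat.gcd_dvd_left _ _)
  have e2 : ((s2 / Nat.gcd s1 s2 : ℕ) : ℤ) * (Nat.gcd s1 s2 : ℤ) = s2 := by
    exact_mod_cast Nat.div_mul_cancel (Nat.gcd_dvd_right _ _)
  have h' : θ1 * h1 * ((s2 / Nat.gcd s1 s2 : ℕ) : ℤ) = θ2 * h2 * ((s1 / Nat.gcd s1 s2 : ℕ) : ℤ) := by
    linarith
  calc θ1 * h1 * s2 = θ1 * h1 * (((s2 / Nat.gcd s1 s2 : ℕ) : ℤ) * (Nat.gcd s1 s2 : ℤ)) := by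
        rw [e2]
    _ = θ1 * h1 * ((s2 / Nat.gcd s1 s2 : ℕ) : ℤ) * (Nat.gcd s1 s2 : ℤ) := by ring
    _ = θ2 * h2 * ((s1 / Nat.gcd s1 s2 : ℕ) : ℤ) * (Nat.gcd s1 s2 : ℤ) := by rw [h']
    _ = θ2 * h2 * (((s1 / Nat.gcd s1 s2 : ℕ) : ℤ) * (Nat.gcd s1 s2 : ℤ)) := by ring
    _ = θ2 * h2 * s1 := by rw [e1]

private lemma Udg_count (S H : ℕ) (B : Finset ℤ) (θ : ℤ → ℤ) (b1 : ℤ) (s2 h1 : ℕ)
    (hθ : ∀ b ∈ B, ∀ b' ∈ B, θ b = θ b' → b = b') (hn : θ b1 * h1 * s2 ≠ 0) :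
    ∑ b2 ∈ B, ∑ s1 ∈ Ico S (2 * S), ∑ h2 ∈ Icc 1 H,
        (if kM (θ b1) (θ b2) h1 h2 s1 s2 = 0 then (1 : ℝ) else 0) ≤
      (((θ b1 * h1 * s2).natAbs.divisors.card : ℝ)) ^ 2 := by
  classical
  have e : ∑ b2 ∈ B, ∑ s1 ∈ Ico S (2 * S), ∑ h2 ∈ Icc 1 H,
        (if kM (θ b1) (θ b2) h1 h2 s1 s2 = 0 then (1 : ℝ) else 0) =
      ∑ x ∈ B ×ˢ (Ico S (2 * S) ×ˢ Icc 1 H),
        (if kM (θ b1) (θ x.1) h1 x.2.2 x.2.1 s2 = 0 then (1 : ℝ) else 0) := by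
    rw [sum_product]
    refine sum_congr rfl fun b _ => ?_
    rw [sum_product]
  rw [e, ← sum_filter, sum_const, nsmul_eq_mul, mul_one, sq]
  norm_cast
  rw [← card_product]
  refine card_le_card_of_injOn (fun x => x.2) ?_ ?_
  · intro x hx
    have hx' := (mem_filter.1 (mem_coe.1 hx))
    have h1' := mem_product.1 hx'.1
    have h2' := mem_product.1 h1'.2
    have ek := Udg_kk hx'.2
    refine mem_coe.2 (mem_product.2 ⟨Nat.mem_divisors.2 ⟨?_, ?_⟩, Nat.mem_divisors.2 ⟨?_, ?_⟩⟩)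
    · rw [ek, ← Int.natCast_dvd]
      exact ⟨θ x.1 * x.2.2, by ring⟩
    · exact Int.natAbs_ne_zero.2 hn
    · rw [ek, ← Int.natCast_dvd]
      exact ⟨θ x.1 * x.2.1, by ring⟩
    · exact Int.natAbs_ne_zero.2 hn
  · intro x hx y hy hxy
    have hx' := (mem_filter.1 (mem_coe.1 hx))
    have hy' := (mem_filter.1 (mem_coe.1 hy))
    have ex := Udg_kk hx'.2
    have ey := Udg_kk hy'.2
    have hxy' : x.2 = y.2 := hxy
    have h1' := mem_product.1 hx'.1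
    have h2' := mem_product.1 h1'.2
    have h3 := mem_Ico.1 h2'.1
    have h4 := mem_Icc.1 h2'.2
    have hB := (mem_product.1 hy'.1).1
    rw [← hxy', ex] at ey
    have h5 : ((x.2.2 : ℕ) : ℤ) * ((x.2.1 : ℕ) : ℤ) ≠ 0 := by
      have h6 : 0 < x.2.2 * x.2.1 := Nat.mul_pos (by omega) (by omega)
      exact_mod_cast h6.ne'
    have h7 : θ x.1 = θ y.1 := by
      apply mul_right_cancel₀ h5
      rw [← mul_assoc, ← mul_assoc]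
      exact ey
    exact Prod.ext (hθ _ h1'.1 _ hB h7) hxy'

theorem tUdg : UdgStmt := by
  intro ε hε
  obtain ⟨C, hC, hC2⟩ := tTauk (ε / 2) (by positivity)
  refine ⟨C ^ 2 * 2 ^ ε, by positivity, fun S H X B θ hS hH hX hinj hB => ?_⟩
  have hS' : (1 : ℝ) ≤ S := by exact_mod_cast hS
  have hH' : (1 : ℝ) ≤ H := by exact_mod_cast hH
  have hb : ∀ b1 ∈ B, ∀ s2 ∈ Ico S (2 * S), ∀ h1 ∈ Icc 1 H,
      ∑ b2 ∈ B, ∑ s1 ∈ Ico S (2 * S), ∑ h2 ∈ Icc 1 H,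
        (if kM (θ b1) (θ b2) h1 h2 s1 s2 = 0 then (1 : ℝ) else 0) ≤
        C ^ 2 * 2 ^ ε * (X * H * S) ^ ε := by
    intro b1 hb1 s2 hs2 h1 hh1
    have e1 := mem_Ico.1 hs2
    have e2 := mem_Icc.1 hh1
    obtain ⟨hθ0, hθX⟩ := hB b1 hb1
    have hn : θ b1 * h1 * s2 ≠ 0 := by
      refine mul_ne_zero (mul_ne_zero hθ0 ?_) ?_
      · exact_mod_cast (by omega : h1 ≠ 0)
      · exact_mod_cast (by omega : s2 ≠ 0)
    refine (Udg_count S H B θ b1 s2 h1 hinj hn).trans ?_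
    set M : ℕ := (θ b1 * h1 * s2).natAbs with hM
    have hM1 : 1 ≤ M := Nat.one_le_iff_ne_zero.2 (Int.natAbs_ne_zero.2 hn)
    have hMX : (M : ℝ) ≤ 2 * (X * H * S) := by
      have a0 : (M : ℝ) = |(θ b1 : ℝ)| * h1 * s2 := by
        rw [hM, Nat.cast_natAbs]
        push_cast
        rw [abs_mul, abs_mul, Nat.abs_cast, Nat.abs_cast]
      have a1 : (s2 : ℝ) ≤ 2 * S := by exact_mod_cast e1.2.le
      have a2 : (h1 : ℝ) ≤ H := by exact_mod_cast e2.2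
      rw [a0]
      calc |(θ b1 : ℝ)| * h1 * s2 ≤ X * H * (2 * S) := by
            gcongr
        _ = 2 * (X * H * S) := by ring
    have h3 := hC2 M hM1
    have hM0 : (0 : ℝ) ≤ M := Nat.cast_nonneg _
    calc ((M.divisors.card : ℝ)) ^ 2 ≤ (C * (M : ℝ) ^ (ε / 2)) ^ 2 :=
          pow_le_pow_left₀ (Nat.cast_nonneg _) h3 2
      _ = C ^ 2 * (M : ℝ) ^ ε := by
          rw [mul_pow, ← Real.rpow_natCast ((M : ℝ) ^ (ε / 2)) 2, ← Real.rpow_mul hM0]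
          congr 2
          push_cast
          ring
      _ ≤ C ^ 2 * (2 * (X * H * S)) ^ ε := by
          refine mul_le_mul_of_nonneg_left (Real.rpow_le_rpow hM0 hMX hε.le) (by positivity)
      _ = C ^ 2 * 2 ^ ε * (X * H * S) ^ ε := by
          rw [Real.mul_rpow (by norm_num) (by positivity), ← mul_assoc (C ^ 2)]
  have he : ∀ b1 ∈ B, ∑ b2 ∈ B, ∑ s1 ∈ Ico S (2 * S), ∑ s2 ∈ Ico S (2 * S), ∑ h1 ∈ Icc 1 H,
      ∑ h2 ∈ Icc 1 H, (if kM (θ b1) (θ b2) h1 h2 s1 s2 = 0 then (1 : ℝ) else 0) ≤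
      S * (H * (C ^ 2 * 2 ^ ε * (X * H * S) ^ ε)) := by
    intro b1 hb1
    have e : ∑ b2 ∈ B, ∑ s1 ∈ Ico S (2 * S), ∑ s2 ∈ Ico S (2 * S), ∑ h1 ∈ Icc 1 H,
      ∑ h2 ∈ Icc 1 H, (if kM (θ b1) (θ b2) h1 h2 s1 s2 = 0 then (1 : ℝ) else 0) =
        ∑ s2 ∈ Ico S (2 * S), ∑ h1 ∈ Icc 1 H, ∑ b2 ∈ B, ∑ s1 ∈ Ico S (2 * S),
      ∑ h2 ∈ Icc 1 H, (if kM (θ b1) (θ b2) h1 h2 s1 s2 = 0 then (1 : ℝ) else 0) := by
      calc _ = ∑ b2 ∈ B, ∑ s2 ∈ Ico S (2 * S), ∑ h1 ∈ Icc 1 H, ∑ s1 ∈ Ico S (2 * S),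
              ∑ h2 ∈ Icc 1 H, (if kM (θ b1) (θ b2) h1 h2 s1 s2 = 0 then (1 : ℝ) else 0) := by
            refine sum_congr rfl fun b _ => ?_
            rw [sum_comm]
            exact sum_congr rfl fun _ _ => sum_comm
        _ = _ := by
            rw [sum_comm]
            exact sum_congr rfl fun _ _ => sum_comm
    rw [e]
    refine (sum_le_sum fun s2 hs2 => sum_le_sum fun h1 hh1 => hb b1 hb1 s2 hs2 h1 hh1).trans ?_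
    rw [sum_const, sum_const, nsmul_eq_mul, nsmul_eq_mul, Nat.card_Icc, Nat.card_Ico]
    have : ((2 * S - S : ℕ) : ℝ) = S := by
      rw [Nat.two_mul, Nat.add_sub_cancel]
    rw [this]
    simp
  refine (sum_le_sum fun b1 hb1 => he b1 hb1).trans ?_
  rw [sum_const, nsmul_eq_mul]
  apply le_of_eq
  ring

end Pool.Agent.Lib.TM
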