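import Pool.Agent.Lib.TM.SpecU
import Pool.Agent.Lib.TB.Tauk
import Pool.Agent.Lib.TN.Tgs

/-!
MP_00e23e_nt: module Ugd, the sum over r for one tuple with kM ≠ 0.
-/

namespace Pool.Agent.Lib.TM

open Finset Pool.Agent.Lib.EH3 Pool.Agent.Lib.TB Pool.Agent.Lib.TN Pool.Agent.Results.MP_00e23e_nt

private lemma Ugd_kk (S H : ℕ) (X : ℝ) (θ1 θ2 : ℤ) (s1 s2 h1 h2 : ℕ) (hX : 1 ≤ X) (hθ1 : |(θ1 : ℝ)| ≤ X)
    (hθ2 : |(θ2 : ℝ)| ≤ X) (h1s : s1 ≤ 2 * S) (h2s : s2 ≤ 2 * S) (hh1 : h1 ≤ H) (hh2 : h2 ≤ H) :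
    |((kM θ1 θ2 h1 h2 s1 s2 : ℤ) : ℝ)| ≤ 4 * (X * H * S) := by
  have hX0 : (0 : ℝ) ≤ X := by linarith
  have ht1 : ((s1 / Nat.gcd s1 s2 : ℕ) : ℝ) ≤ 2 * S := by
    have : s1 / Nat.gcd s1 s2 ≤ 2 * S := le_trans (Nat.div_le_self _ _) h1s
    exact_mod_cast this
  have ht2 : ((s2 / Nat.gcd s1 s2 : ℕ) : ℝ) ≤ 2 * S := by
    have : s2 / Nat.gcd s1 s2 ≤ 2 * S := le_trans (Nat.div_le_self _ _) h2s
    exact_mod_cast this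
  have hH1 : (h1 : ℝ) ≤ H := by exact_mod_cast hh1
  have hH2 : (h2 : ℝ) ≤ H := by exact_mod_cast hh2
  have a1 : (h1 : ℝ) * ((s2 / Nat.gcd s1 s2 : ℕ) : ℝ) ≤ H * (2 * S) :=
    mul_le_mul hH1 ht2 (by positivity) (by positivity)
  have a2 : (h2 : ℝ) * ((s1 / Nat.gcd s1 s2 : ℕ) : ℝ) ≤ H * (2 * S) :=
    mul_le_mul hH2 ht1 (by positivity) (by positivity)
  have b1 : 0 ≤ (h1 : ℝ) * ((s2 / Nat.gcd s1 s2 : ℕ) : ℝ) := by positivity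
  have b2 : 0 ≤ (h2 : ℝ) * ((s1 / Nat.gcd s1 s2 : ℕ) : ℝ) := by positivity
  have e : ((kM θ1 θ2 h1 h2 s1 s2 : ℤ) : ℝ) = (θ1 : ℝ) * ((h1 : ℝ) * ((s2 / Nat.gcd s1 s2 : ℕ) : ℝ)) -
      (θ2 : ℝ) * ((h2 : ℝ) * ((s1 / Nat.gcd s1 s2 : ℕ) : ℝ)) := by
    unfold kM
    rw [Int.cast_sub, Int.cast_mul, Int.cast_mul, Int.cast_mul, Int.cast_mul, Int.cast_natCast, Int.cast_natCast,
      Int.cast_natCast, Int.cast_natCast]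
    ring
  rw [e]
  have c1 : |(θ1 : ℝ) * ((h1 : ℝ) * ((s2 / Nat.gcd s1 s2 : ℕ) : ℝ))| ≤ X * (H * (2 * S)) := by
    rw [abs_mul, abs_of_nonneg b1]
    exact mul_le_mul hθ1 a1 b1 hX0
  have c2 : |(θ2 : ℝ) * ((h2 : ℝ) * ((s1 / Nat.gcd s1 s2 : ℕ) : ℝ))| ≤ X * (H * (2 * S)) := by
    rw [abs_mul, abs_of_nonneg b2]
    exact mul_le_mul hθ2 a2 b2 hX0
  calc |(θ1 : ℝ) * ((h1 : ℝ) * ((s2 / Nat.gcd s1 s2 : ℕ) : ℝ)) -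
      (θ2 : ℝ) * ((h2 : ℝ) * ((s1 / Nat.gcd s1 s2 : ℕ) : ℝ))|
      ≤ |(θ1 : ℝ) * ((h1 : ℝ) * ((s2 / Nat.gcd s1 s2 : ℕ) : ℝ))| +
        |(θ2 : ℝ) * ((h2 : ℝ) * ((s1 / Nat.gcd s1 s2 : ℕ) : ℝ))| := abs_sub _ _
    _ ≤ X * (H * (2 * S)) + X * (H * (2 * S)) := add_le_add c1 c2
    _ = 4 * (X * H * S) := by ring

theorem tUgd (h1 : UgcStmt) : UgdStmt := by
  intro ε hε
  obtain ⟨C, hC1, hC⟩ := tTauk ε hε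
  refine ⟨C * 4 ^ ε, by positivity, ?_⟩
  intro R S H X θ1 θ2 s1 s2 a1 a2 hS hH hX hθ1 hθ2 hs1 hs2 hs1S hs2S ha1 ha2 hk
  set K : ℤ := kM θ1 θ2 a1 a2 s1 s2 with hK
  set G : ℝ := ((Nat.gcd s1 s2 : ℝ) * (Int.gcd (θ1 * a1) (s1 / Nat.gcd s1 s2 : ℕ) : ℝ) *
      (Int.gcd (θ2 * a2) (s2 / Nat.gcd s1 s2 : ℕ) : ℝ)) with hG
  have hG0 : 0 ≤ G := by positivity
  have hX0 : (0 : ℝ) ≤ X := by linarith
  have e1 : ∑ r ∈ Icc 1 R, (Int.gcd K (q0 r s1 s2) : ℝ) ≤ ∑ r ∈ Icc 1 R, (Int.gcd K r : ℝ) * G := by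
    apply Finset.sum_le_sum
    intro r hr
    have hr1 := (Finset.mem_Icc.1 hr).1
    have := h1 θ1 θ2 r s1 s2 a1 a2 hr1 hs1 hs2
    calc (Int.gcd K (q0 r s1 s2) : ℝ) ≤ _ := this
      _ = (Int.gcd K r : ℝ) * G := by rw [hG]; ring
  have e2 : ∑ r ∈ Icc 1 R, (Int.gcd K r : ℝ) * G ≤ ((K.natAbs.divisors.card : ℝ) * R) * G := by
    rw [← Finset.sum_mul]
    exact mul_le_mul_of_nonneg_right (tTgs K R hk) hG0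
  have hn : 1 ≤ K.natAbs := Int.natAbs_pos.2 hk
  have hY : 0 ≤ X * H * S := by positivity
  have e3 : (K.natAbs.divisors.card : ℝ) ≤ C * (4 ^ ε * (X * H * S) ^ ε) := by
    refine le_trans (hC _ hn) ?_
    apply mul_le_mul_of_nonneg_left _ (by positivity)
    rw [← Real.mul_rpow (by norm_num) hY]
    apply Real.rpow_le_rpow (by positivity) _ hε.le
    have : ((K.natAbs : ℕ) : ℝ) = |((K : ℤ) : ℝ)| := by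
      rw [Nat.cast_natAbs, Int.cast_abs]
    rw [this]
    exact Ugd_kk S H X θ1 θ2 s1 s2 a1 a2 hX hθ1 hθ2 hs1S hs2S ha1 ha2
  calc ∑ r ∈ Icc 1 R, (Int.gcd K (q0 r s1 s2) : ℝ) ≤ ((K.natAbs.divisors.card : ℝ) * R) * G := le_trans e1 e2
    _ ≤ ((C * (4 ^ ε * (X * H * S) ^ ε)) * R) * G := by
        apply mul_le_mul_of_nonneg_right _ hG0
        exact mul_le_mul_of_nonneg_right e3 (by positivity)
    _ = C * 4 ^ ε * (X * H * S) ^ ε * R * G := by ring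

end Pool.Agent.Lib.TM
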