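import Pool.Agent.Lib.TM.SpecU
import Pool.Agent.Lib.TB.Tauk
import Pool.Agent.Lib.TN.Tgs

/-!
MP_00e23e_nt: module Uge, the sum over s1, s2 of the greatest common divisors.
-/

namespace Pool.Agent.Lib.TM

open Finset Pool.Agent.Lib.EH3 Pool.Agent.Lib.TB Pool.Agent.Lib.TN Pool.Agent.Results.MP_00e23e_nt

private lemma Uge_harm (N : ℕ) : ∑ g ∈ Icc 1 N, (1 : ℝ) / g ≤ 1 + Real.log N := by
  have h := harmonic_le_one_add_log N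
  have e : ((harmonic N : ℚ) : ℝ) = ∑ g ∈ Icc 1 N, (1 : ℝ) / g := by
    rw [harmonic_eq_sum_Icc]
    push_cast
    apply Finset.sum_congr rfl
    intro g _
    rw [one_div]
  rw [← e]
  exact h

private lemma Uge_fib (S g : ℕ) (hS : 1 ≤ S) (D1 D2 : ℤ) (hD1 : D1 ≠ 0) (hD2 : D2 ≠ 0) (hg : 1 ≤ g) :
    ∑ p ∈ ((Ico S (2 * S)) ×ˢ (Ico S (2 * S))).filter (fun p => Nat.gcd p.1 p.2 = g),
      (Nat.gcd p.1 p.2 : ℝ) * (Int.gcd D1 (p.1 / Nat.gcd p.1 p.2 : ℕ) : ℝ) *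
      (Int.gcd D2 (p.2 / Nat.gcd p.1 p.2 : ℕ) : ℝ) ≤
    (D1.natAbs.divisors.card : ℝ) * (D2.natAbs.divisors.card : ℝ) * (4 * (S : ℝ) ^ 2) * (1 / g) := by
  set A := ((Ico S (2 * S)) ×ˢ (Ico S (2 * S))).filter (fun p => Nat.gcd p.1 p.2 = g) with hA
  set T := Icc 1 (2 * S / g) with hT
  have hinj : Set.InjOn (fun p : ℕ × ℕ => (p.1 / g, p.2 / g)) (A : Set (ℕ × ℕ)) := by
    intro p hp q hq hpq
    have hp' := (Finset.mem_filter.1 (Finset.mem_coe.1 hp)).2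
    have hq' := (Finset.mem_filter.1 (Finset.mem_coe.1 hq)).2
    have d1 : g ∣ p.1 := hp' ▸ Nat.gcd_dvd_left _ _
    have d2 : g ∣ p.2 := hp' ▸ Nat.gcd_dvd_right _ _
    have d3 : g ∣ q.1 := hq' ▸ Nat.gcd_dvd_left _ _
    have d4 : g ∣ q.2 := hq' ▸ Nat.gcd_dvd_right _ _
    have e1 : p.1 / g = q.1 / g := congrArg Prod.fst hpq
    have e2 : p.2 / g = q.2 / g := congrArg Prod.snd hpq
    have f1 : p.1 = q.1 := by
      rw [← Nat.div_mul_cancel d1, ← Nat.div_mul_cancel d3, e1]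
    have f2 : p.2 = q.2 := by
      rw [← Nat.div_mul_cancel d2, ← Nat.div_mul_cancel d4, e2]
    exact Prod.ext f1 f2
  have himg : A.image (fun p : ℕ × ℕ => (p.1 / g, p.2 / g)) ⊆ T ×ˢ T := by
    intro q hq
    obtain ⟨p, hp, rfl⟩ := Finset.mem_image.1 hq
    have hp1 := Finset.mem_product.1 (Finset.mem_filter.1 hp).1
    have hp' := (Finset.mem_filter.1 hp).2
    have a1 := Finset.mem_Ico.1 hp1.1
    have a2 := Finset.mem_Ico.1 hp1.2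
    have d1 : g ∣ p.1 := hp' ▸ Nat.gcd_dvd_left _ _
    have d2 : g ∣ p.2 := hp' ▸ Nat.gcd_dvd_right _ _
    have c1 : 1 ≤ p.1 / g := Nat.div_pos (Nat.le_of_dvd (by omega) d1) hg
    have c2 : 1 ≤ p.2 / g := Nat.div_pos (Nat.le_of_dvd (by omega) d2) hg
    exact Finset.mem_product.2 ⟨Finset.mem_Icc.2 ⟨c1, Nat.div_le_div_right a1.2.le⟩,
      Finset.mem_Icc.2 ⟨c2, Nat.div_le_div_right a2.2.le⟩⟩
  have e1 : ∑ p ∈ A, (Nat.gcd p.1 p.2 : ℝ) * (Int.gcd D1 (p.1 / Nat.gcd p.1 p.2 : ℕ) : ℝ) *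
      (Int.gcd D2 (p.2 / Nat.gcd p.1 p.2 : ℕ) : ℝ) =
      ∑ q ∈ A.image (fun p : ℕ × ℕ => (p.1 / g, p.2 / g)), (g : ℝ) * (Int.gcd D1 (q.1 : ℕ) : ℝ) * (Int.gcd D2 (q.2 : ℕ) : ℝ) := by
    rw [Finset.sum_image hinj]
    apply Finset.sum_congr rfl
    intro p hp
    have hp' := (Finset.mem_filter.1 hp).2
    rw [hp']
  have e2 : ∑ q ∈ A.image (fun p : ℕ × ℕ => (p.1 / g, p.2 / g)), (g : ℝ) * (Int.gcd D1 (q.1 : ℕ) : ℝ) * (Int.gcd D2 (q.2 : ℕ) : ℝ) ≤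
      ∑ q ∈ T ×ˢ T, (g : ℝ) * (Int.gcd D1 (q.1 : ℕ) : ℝ) * (Int.gcd D2 (q.2 : ℕ) : ℝ) :=
    Finset.sum_le_sum_of_subset_of_nonneg himg (fun _ _ _ => by positivity)
  have e3 : ∑ q ∈ T ×ˢ T, (g : ℝ) * (Int.gcd D1 (q.1 : ℕ) : ℝ) * (Int.gcd D2 (q.2 : ℕ) : ℝ) =
      (g : ℝ) * ((∑ t ∈ T, (Int.gcd D1 (t : ℕ) : ℝ)) * (∑ t ∈ T, (Int.gcd D2 (t : ℕ) : ℝ))) := by
    rw [Finset.sum_product, Finset.sum_mul_sum, Finset.mul_sum]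
    apply Finset.sum_congr rfl
    intro x _
    rw [Finset.mul_sum]
    apply Finset.sum_congr rfl
    intro y _
    ring
  have f1 := tTgs D1 (2 * S / g) hD1
  have f2 := tTgs D2 (2 * S / g) hD2
  rw [← hT] at f1 f2
  have hg0 : (0 : ℝ) < g := by exact_mod_cast hg
  have hN : ((2 * S / g : ℕ) : ℝ) ≤ 2 * S / g := by
    have := @Nat.cast_div_le ℝ _ _ _ (2 * S) g
    push_cast at this
    exact this
  have g1 : ∑ t ∈ T, (Int.gcd D1 (t : ℕ) : ℝ) ≤ (D1.natAbs.divisors.card : ℝ) * (2 * S / g) :=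
    le_trans f1 (mul_le_mul_of_nonneg_left hN (by positivity))
  have g2 : ∑ t ∈ T, (Int.gcd D2 (t : ℕ) : ℝ) ≤ (D2.natAbs.divisors.card : ℝ) * (2 * S / g) :=
    le_trans f2 (mul_le_mul_of_nonneg_left hN (by positivity))
  rw [e1]
  refine le_trans e2 ?_
  rw [e3]
  calc (g : ℝ) * ((∑ t ∈ T, (Int.gcd D1 (t : ℕ) : ℝ)) * (∑ t ∈ T, (Int.gcd D2 (t : ℕ) : ℝ)))
      ≤ (g : ℝ) * (((D1.natAbs.divisors.card : ℝ) * (2 * S / g)) * ((D2.natAbs.divisors.card : ℝ) * (2 * S / g))) := by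
        apply mul_le_mul_of_nonneg_left _ hg0.le
        exact mul_le_mul g1 g2 (by positivity) (by positivity)
    _ = (D1.natAbs.divisors.card : ℝ) * (D2.natAbs.divisors.card : ℝ) * (4 * (S : ℝ) ^ 2) * (1 / g) := by
        field_simp
        ring

theorem tUge : UgeStmt := by
  intro ε hε
  obtain ⟨C, hC1, hC⟩ := tTauk ε hε
  refine ⟨4 * C ^ 2 * (1 + 2 ^ ε / ε), by positivity, ?_⟩
  intro S D1 D2 hS hD1 hD2
  rw [← Finset.sum_product' (Ico S (2 * S)) (Ico S (2 * S)) (fun s1 s2 => (Nat.gcd s1 s2 : ℝ) *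
      (Int.gcd D1 (s1 / Nat.gcd s1 s2 : ℕ) : ℝ) * (Int.gcd D2 (s2 / Nat.gcd s1 s2 : ℕ) : ℝ))]
  have hmap : ∀ p ∈ (Ico S (2 * S)) ×ˢ (Ico S (2 * S)), Nat.gcd p.1 p.2 ∈ Icc 1 (2 * S) := by
    intro p hp
    have hp1 := Finset.mem_product.1 hp
    have a1 := Finset.mem_Ico.1 hp1.1
    have hpos : 0 < p.1 := by omega
    exact Finset.mem_Icc.2 ⟨Nat.gcd_pos_of_pos_left _ hpos, le_trans (Nat.gcd_le_left _ hpos) a1.2.le⟩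
  rw [← Finset.sum_fiberwise_of_maps_to hmap]
  set τ1 : ℝ := (D1.natAbs.divisors.card : ℝ) with hτ1
  set τ2 : ℝ := (D2.natAbs.divisors.card : ℝ) with hτ2
  have k1 : ∑ g ∈ Icc 1 (2 * S), ∑ p ∈ ((Ico S (2 * S)) ×ˢ (Ico S (2 * S))).filter (fun p => Nat.gcd p.1 p.2 = g),
      (Nat.gcd p.1 p.2 : ℝ) * (Int.gcd D1 (p.1 / Nat.gcd p.1 p.2 : ℕ) : ℝ) *
      (Int.gcd D2 (p.2 / Nat.gcd p.1 p.2 : ℕ) : ℝ) ≤
      ∑ g ∈ Icc 1 (2 * S), τ1 * τ2 * (4 * (S : ℝ) ^ 2) * (1 / g) := by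
    apply Finset.sum_le_sum
    intro g hg
    exact Uge_fib S g hS D1 D2 hD1 hD2 (Finset.mem_Icc.1 hg).1
  refine le_trans k1 ?_
  rw [← Finset.mul_sum]
  have hS1 : (1 : ℝ) ≤ S := by exact_mod_cast hS
  have hSε : (1 : ℝ) ≤ (S : ℝ) ^ ε := Real.one_le_rpow hS1 hε.le
  have k2 : ∑ g ∈ Icc 1 (2 * S), (1 : ℝ) / g ≤ (1 + 2 ^ ε / ε) * (S : ℝ) ^ ε := by
    refine le_trans (Uge_harm (2 * S)) ?_
    push_cast
    have l1 : Real.log (2 * (S : ℝ)) ≤ (2 * (S : ℝ)) ^ ε / ε := Real.log_le_rpow_div (by positivity) hε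
    rw [Real.mul_rpow (by norm_num) (by positivity)] at l1
    calc 1 + Real.log (2 * (S : ℝ)) ≤ (S : ℝ) ^ ε + 2 ^ ε * (S : ℝ) ^ ε / ε := add_le_add hSε l1
      _ = (1 + 2 ^ ε / ε) * (S : ℝ) ^ ε := by ring
  have n1 : τ1 ≤ C * |(D1 : ℝ)| ^ ε := by
    have := hC _ (Int.natAbs_pos.2 hD1)
    rwa [Nat.cast_natAbs, Int.cast_abs] at this
  have n2 : τ2 ≤ C * |(D2 : ℝ)| ^ ε := by
    have := hC _ (Int.natAbs_pos.2 hD2)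
    rwa [Nat.cast_natAbs, Int.cast_abs] at this
  have n3 : τ1 * τ2 ≤ (C * |(D1 : ℝ)| ^ ε) * (C * |(D2 : ℝ)| ^ ε) :=
    mul_le_mul n1 n2 (by positivity) (by positivity)
  calc τ1 * τ2 * (4 * (S : ℝ) ^ 2) * ∑ g ∈ Icc 1 (2 * S), (1 : ℝ) / g
      ≤ ((C * |(D1 : ℝ)| ^ ε) * (C * |(D2 : ℝ)| ^ ε)) * (4 * (S : ℝ) ^ 2) * ((1 + 2 ^ ε / ε) * (S : ℝ) ^ ε) := by
        apply mul_le_mul _ k2 (by positivity) (by positivity)
        exact mul_le_mul_of_nonneg_right n3 (by positivity)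
    _ = 4 * C ^ 2 * (1 + 2 ^ ε / ε) * (|(D1 : ℝ)| ^ ε * |(D2 : ℝ)| ^ ε * (S : ℝ) ^ ε) * (S : ℝ) ^ 2 := by ring
    _ = 4 * C ^ 2 * (1 + 2 ^ ε / ε) * (|(D1 : ℝ)| * |(D2 : ℝ)| * S) ^ ε * (S : ℝ) ^ 2 := by
        rw [Real.mul_rpow (by positivity) (by positivity), Real.mul_rpow (by positivity) (by positivity)]

end Pool.Agent.Lib.TM
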