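import Pool.Agent.Lib.TM.SpecU

/-!
MP_00e23e_nt: module Ugf, the sum of the greatest common divisors over all variables.
-/

namespace Pool.Agent.Lib.TM

open Finset Pool.Agent.Lib.EH3 Pool.Agent.Lib.TB Pool.Agent.Lib.TN Pool.Agent.Results.MP_00e23e_nt

private lemma Ugf_swap (X A B : Finset ℕ) (F : ℕ → ℕ → ℕ → ℕ → ℕ → ℝ) :
    ∑ r ∈ X, ∑ s1 ∈ A, ∑ s2 ∈ A, ∑ h1 ∈ B, ∑ h2 ∈ B, F r s1 s2 h1 h2 =
      ∑ h1 ∈ B, ∑ h2 ∈ B, ∑ s1 ∈ A, ∑ s2 ∈ A, ∑ r ∈ X, F r s1 s2 h1 h2 := by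
  have e1 : ∑ r ∈ X, ∑ s1 ∈ A, ∑ s2 ∈ A, ∑ h1 ∈ B, ∑ h2 ∈ B, F r s1 s2 h1 h2 =
      ∑ h1 ∈ B, ∑ h2 ∈ B, ∑ r ∈ X, ∑ s1 ∈ A, ∑ s2 ∈ A, F r s1 s2 h1 h2 := by
    calc ∑ r ∈ X, ∑ s1 ∈ A, ∑ s2 ∈ A, ∑ h1 ∈ B, ∑ h2 ∈ B, F r s1 s2 h1 h2
        = ∑ r ∈ X, ∑ s1 ∈ A, ∑ h1 ∈ B, ∑ s2 ∈ A, ∑ h2 ∈ B, F r s1 s2 h1 h2 := by
          refine Finset.sum_congr rfl fun r _ => Finset.sum_congr rfl fun s1 _ => ?_
          exact Finset.sum_comm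
      _ = ∑ r ∈ X, ∑ h1 ∈ B, ∑ s1 ∈ A, ∑ s2 ∈ A, ∑ h2 ∈ B, F r s1 s2 h1 h2 := by
          refine Finset.sum_congr rfl fun r _ => ?_
          exact Finset.sum_comm
      _ = ∑ h1 ∈ B, ∑ r ∈ X, ∑ s1 ∈ A, ∑ s2 ∈ A, ∑ h2 ∈ B, F r s1 s2 h1 h2 := Finset.sum_comm
      _ = ∑ h1 ∈ B, ∑ r ∈ X, ∑ s1 ∈ A, ∑ h2 ∈ B, ∑ s2 ∈ A, F r s1 s2 h1 h2 := by
          refine Finset.sum_congr rfl fun h1 _ => Finset.sum_congr rfl fun r _ => Finset.sum_congr rfl fun s1 _ => ?_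
          exact Finset.sum_comm
      _ = ∑ h1 ∈ B, ∑ r ∈ X, ∑ h2 ∈ B, ∑ s1 ∈ A, ∑ s2 ∈ A, F r s1 s2 h1 h2 := by
          refine Finset.sum_congr rfl fun h1 _ => Finset.sum_congr rfl fun r _ => ?_
          exact Finset.sum_comm
      _ = ∑ h1 ∈ B, ∑ h2 ∈ B, ∑ r ∈ X, ∑ s1 ∈ A, ∑ s2 ∈ A, F r s1 s2 h1 h2 := by
          refine Finset.sum_congr rfl fun h1 _ => ?_
          exact Finset.sum_comm
  rw [e1]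
  refine Finset.sum_congr rfl fun h1 _ => Finset.sum_congr rfl fun h2 _ => ?_
  calc ∑ r ∈ X, ∑ s1 ∈ A, ∑ s2 ∈ A, F r s1 s2 h1 h2
      = ∑ s1 ∈ A, ∑ r ∈ X, ∑ s2 ∈ A, F r s1 s2 h1 h2 := Finset.sum_comm
    _ = ∑ s1 ∈ A, ∑ s2 ∈ A, ∑ r ∈ X, F r s1 s2 h1 h2 := by
        refine Finset.sum_congr rfl fun s1 _ => ?_
        exact Finset.sum_comm

theorem tUgf (h1 : UgdStmt) (h2 : UgeStmt) : UgfStmt := by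
  intro ε hε
  obtain ⟨C1, hC1, hA⟩ := h1 (ε / 3) (by positivity)
  obtain ⟨C2, hC2, hB⟩ := h2 (ε / 3) (by positivity)
  refine ⟨C1 * C2, by positivity, ?_⟩
  intro R S H Y θ1 θ2 hS hH hY hθ1 hθ2 hb1 hb2
  rw [Ugf_swap (Icc 1 R) (Ico S (2 * S)) (Icc 1 H) (fun r s1 s2 h1 h2 =>
    (if kM θ1 θ2 h1 h2 s1 s2 ≠ 0 then (Int.gcd (kM θ1 θ2 h1 h2 s1 s2) (q0 r s1 s2) : ℝ) else 0))]
  have hS1 : (1 : ℝ) ≤ S := by exact_mod_cast hS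
  have hH1 : (1 : ℝ) ≤ H := by exact_mod_cast hH
  have hY0 : (0 : ℝ) < Y := by linarith
  set X : ℝ := Y * H * S with hX
  have hX0 : 0 < X := by positivity
  -- one pair (h1, h2)
  have key : ∀ a1 ∈ Icc 1 H, ∀ a2 ∈ Icc 1 H,
      ∑ s1 ∈ Ico S (2 * S), ∑ s2 ∈ Ico S (2 * S), ∑ r ∈ Icc 1 R,
        (if kM θ1 θ2 a1 a2 s1 s2 ≠ 0 then (Int.gcd (kM θ1 θ2 a1 a2 s1 s2) (q0 r s1 s2) : ℝ) else 0) ≤
      C1 * C2 * X ^ ε * ((R : ℝ) * S ^ 2) := by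
    intro a1 ha1 a2 ha2
    have ha1' := Finset.mem_Icc.1 ha1
    have ha2' := Finset.mem_Icc.1 ha2
    have p1 : ∑ s1 ∈ Ico S (2 * S), ∑ s2 ∈ Ico S (2 * S), ∑ r ∈ Icc 1 R,
        (if kM θ1 θ2 a1 a2 s1 s2 ≠ 0 then (Int.gcd (kM θ1 θ2 a1 a2 s1 s2) (q0 r s1 s2) : ℝ) else 0) ≤
        ∑ s1 ∈ Ico S (2 * S), ∑ s2 ∈ Ico S (2 * S), C1 * X ^ (ε / 3) * R *
          ((Nat.gcd s1 s2 : ℝ) * (Int.gcd (θ1 * a1) (s1 / Nat.gcd s1 s2 : ℕ) : ℝ) *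
            (Int.gcd (θ2 * a2) (s2 / Nat.gcd s1 s2 : ℕ) : ℝ)) := by
      refine Finset.sum_le_sum fun s1 hs1 => Finset.sum_le_sum fun s2 hs2 => ?_
      have hs1' := Finset.mem_Ico.1 hs1
      have hs2' := Finset.mem_Ico.1 hs2
      by_cases hk : kM θ1 θ2 a1 a2 s1 s2 ≠ 0
      · simp only [if_pos hk]
        exact hA R S H Y θ1 θ2 s1 s2 a1 a2 hS hH hY hb1 hb2 (by omega) (by omega) hs1'.2.le hs2'.2.le ha1'.2 ha2'.2 hk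
      · simp only [if_neg hk, Finset.sum_const_zero]
        positivity
    refine le_trans p1 ?_
    simp only [← Finset.mul_sum]
    have hD1 : θ1 * (a1 : ℤ) ≠ 0 := mul_ne_zero hθ1 (by have := ha1'.1; omega)
    have hD2 : θ2 * (a2 : ℤ) ≠ 0 := mul_ne_zero hθ2 (by have := ha2'.1; omega)
    have p2 := hB S (θ1 * a1) (θ2 * a2) hS hD1 hD2
    have q1 : |((θ1 * (a1 : ℤ) : ℤ) : ℝ)| ≤ Y * H := by
      rw [Int.cast_mul, abs_mul, Int.cast_natCast, Nat.abs_cast]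
      exact mul_le_mul hb1 (by exact_mod_cast ha1'.2) (by positivity) hY0.le
    have q2 : |((θ2 * (a2 : ℤ) : ℤ) : ℝ)| ≤ Y * H := by
      rw [Int.cast_mul, abs_mul, Int.cast_natCast, Nat.abs_cast]
      exact mul_le_mul hb2 (by exact_mod_cast ha2'.2) (by positivity) hY0.le
    have q3 : |((θ1 * (a1 : ℤ) : ℤ) : ℝ)| * |((θ2 * (a2 : ℤ) : ℤ) : ℝ)| * S ≤ X * X := by
      have r1 : |((θ1 * (a1 : ℤ) : ℤ) : ℝ)| * |((θ2 * (a2 : ℤ) : ℤ) : ℝ)| ≤ (Y * H) * (Y * H) :=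
        mul_le_mul q1 q2 (abs_nonneg _) (by positivity)
      calc |((θ1 * (a1 : ℤ) : ℤ) : ℝ)| * |((θ2 * (a2 : ℤ) : ℤ) : ℝ)| * S ≤ (Y * H) * (Y * H) * S :=
            mul_le_mul_of_nonneg_right r1 (by positivity)
        _ ≤ (Y * H) * (Y * H) * S * S := by
            apply le_mul_of_one_le_right (by positivity) hS1
        _ = X * X := by rw [hX]; ring
    have q4 : (|((θ1 * (a1 : ℤ) : ℤ) : ℝ)| * |((θ2 * (a2 : ℤ) : ℤ) : ℝ)| * S) ^ (ε / 3) ≤ X ^ (ε / 3) * X ^ (ε / 3) := by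
      rw [← Real.mul_rpow hX0.le hX0.le]
      exact Real.rpow_le_rpow (by positivity) q3 (by positivity)
    calc C1 * X ^ (ε / 3) * R * ∑ s1 ∈ Ico S (2 * S), ∑ s2 ∈ Ico S (2 * S),
          ((Nat.gcd s1 s2 : ℝ) * (Int.gcd (θ1 * a1) (s1 / Nat.gcd s1 s2 : ℕ) : ℝ) *
            (Int.gcd (θ2 * a2) (s2 / Nat.gcd s1 s2 : ℕ) : ℝ))
        ≤ C1 * X ^ (ε / 3) * R * (C2 * (|((θ1 * (a1 : ℤ) : ℤ) : ℝ)| * |((θ2 * (a2 : ℤ) : ℤ) : ℝ)| * S) ^ (ε / 3) *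
            (S : ℝ) ^ 2) := mul_le_mul_of_nonneg_left p2 (by positivity)
      _ ≤ C1 * X ^ (ε / 3) * R * (C2 * (X ^ (ε / 3) * X ^ (ε / 3)) * (S : ℝ) ^ 2) := by
          apply mul_le_mul_of_nonneg_left _ (by positivity)
          apply mul_le_mul_of_nonneg_right _ (by positivity)
          exact mul_le_mul_of_nonneg_left q4 hC2
      _ = C1 * C2 * (X ^ (ε / 3) * X ^ (ε / 3) * X ^ (ε / 3)) * ((R : ℝ) * S ^ 2) := by ring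
      _ = C1 * C2 * X ^ ε * ((R : ℝ) * S ^ 2) := by
          rw [← Real.rpow_add hX0, ← Real.rpow_add hX0]
          congr 3
          ring
  calc ∑ a1 ∈ Icc 1 H, ∑ a2 ∈ Icc 1 H, ∑ s1 ∈ Ico S (2 * S), ∑ s2 ∈ Ico S (2 * S), ∑ r ∈ Icc 1 R,
        (if kM θ1 θ2 a1 a2 s1 s2 ≠ 0 then (Int.gcd (kM θ1 θ2 a1 a2 s1 s2) (q0 r s1 s2) : ℝ) else 0)
      ≤ ∑ a1 ∈ Icc 1 H, ∑ a2 ∈ Icc 1 H, C1 * C2 * X ^ ε * ((R : ℝ) * S ^ 2) :=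
        Finset.sum_le_sum fun a1 ha1 => Finset.sum_le_sum fun a2 ha2 => key a1 ha1 a2 ha2
    _ = C1 * C2 * X ^ ε * ((R : ℝ) * S ^ 2 * H ^ 2) := by
        rw [Finset.sum_const, Finset.sum_const, Nat.card_Icc]
        simp only [nsmul_eq_mul, Nat.add_sub_cancel]
        ring

end Pool.Agent.Lib.TM
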