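import Pool.Agent.Lib.TM.SpecU

/-!
MP_00e23e_nt, Lib/TM, part T, module Uof: the weighted sum of the roots of the greatest common divisors.
-/

set_option autoImplicit false

namespace Pool.Agent.Lib.TM

open Finset Pool.Agent.Lib.EH3 Pool.Agent.Lib.TB Pool.Agent.Lib.TN Pool.Agent.Results.MP_00e23e_nt

private lemma Uof_prod (I1 I3 I4 : Finset ℕ) (B : Finset ℤ)
    (f : ℕ → ℤ → ℤ → ℕ → ℕ → ℕ → ℕ → ℝ) :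
    ∑ r ∈ I1, ∑ b1 ∈ B, ∑ b2 ∈ B, ∑ s1 ∈ I3, ∑ s2 ∈ I3, ∑ h1 ∈ I4, ∑ h2 ∈ I4, f r b1 b2 s1 s2 h1 h2 =
      ∑ x ∈ I1 ×ˢ (B ×ˢ (B ×ˢ (I3 ×ˢ (I3 ×ˢ (I4 ×ˢ I4))))),
        f x.1 x.2.1 x.2.2.1 x.2.2.2.1 x.2.2.2.2.1 x.2.2.2.2.2.1 x.2.2.2.2.2.2 := by
  rw [sum_product]
  refine sum_congr rfl fun r _ => ?_
  rw [sum_product]
  refine sum_congr rfl fun b _ => ?_
  rw [sum_product]
  refine sum_congr rfl fun b _ => ?_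
  rw [sum_product]
  refine sum_congr rfl fun b _ => ?_
  rw [sum_product]
  refine sum_congr rfl fun b _ => ?_
  rw [sum_product]

private lemma Uof_cauchy (I1 I3 I4 : Finset ℕ) (B : Finset ℤ)
    (u v : ℕ → ℤ → ℤ → ℕ → ℕ → ℕ → ℕ → ℝ) :
    (∑ r ∈ I1, ∑ b1 ∈ B, ∑ b2 ∈ B, ∑ s1 ∈ I3, ∑ s2 ∈ I3, ∑ h1 ∈ I4, ∑ h2 ∈ I4,
        u r b1 b2 s1 s2 h1 h2 * v r b1 b2 s1 s2 h1 h2) ^ 2 ≤
      (∑ r ∈ I1, ∑ b1 ∈ B, ∑ b2 ∈ B, ∑ s1 ∈ I3, ∑ s2 ∈ I3, ∑ h1 ∈ I4, ∑ h2 ∈ I4,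
        u r b1 b2 s1 s2 h1 h2 ^ 2) *
      (∑ r ∈ I1, ∑ b1 ∈ B, ∑ b2 ∈ B, ∑ s1 ∈ I3, ∑ s2 ∈ I3, ∑ h1 ∈ I4, ∑ h2 ∈ I4,
        v r b1 b2 s1 s2 h1 h2 ^ 2) := by
  rw [Uof_prod I1 I3 I4 B (fun r b1 b2 s1 s2 h1 h2 => u r b1 b2 s1 s2 h1 h2 * v r b1 b2 s1 s2 h1 h2),
    Uof_prod I1 I3 I4 B (fun r b1 b2 s1 s2 h1 h2 => u r b1 b2 s1 s2 h1 h2 ^ 2),
    Uof_prod I1 I3 I4 B (fun r b1 b2 s1 s2 h1 h2 => v r b1 b2 s1 s2 h1 h2 ^ 2)]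
  exact sum_mul_sq_le_sq_mul_sq _ _ _

private lemma Uof_card (S : ℕ) : (((Ico S (2 * S)).card : ℕ) : ℝ) = S := by
  rw [Nat.card_Ico, Nat.two_mul, Nat.add_sub_cancel]

private lemma Uof_u (S H r : ℕ) (K : ℝ) (B : Finset ℤ) (β : ℤ → ℕ → ℕ → ℂ)
    (hβ : ∀ b r s, ‖β b r s‖ ≤ 1) (hK : ∀ r s, ∑ b ∈ B, ‖β b r s‖ ≤ K) :
    ∑ b1 ∈ B, ∑ b2 ∈ B, ∑ s1 ∈ Ico S (2 * S), ∑ s2 ∈ Ico S (2 * S), ∑ _h1 ∈ Icc 1 H, ∑ _h2 ∈ Icc 1 H,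
      (‖β b1 r s1‖ * ‖β b2 r s2‖) ^ 2 ≤ (S * K) ^ 2 * (H : ℝ) ^ 2 := by
  have e1 : ∀ b1 ∈ B, ∀ b2 ∈ B, ∑ s1 ∈ Ico S (2 * S), ∑ s2 ∈ Ico S (2 * S), ∑ _h1 ∈ Icc 1 H,
      ∑ _h2 ∈ Icc 1 H, (‖β b1 r s1‖ * ‖β b2 r s2‖) ^ 2 =
      (∑ s1 ∈ Ico S (2 * S), ‖β b1 r s1‖ ^ 2) * (∑ s2 ∈ Ico S (2 * S), ‖β b2 r s2‖ ^ 2) *
        (H : ℝ) ^ 2 := by
    intro b1 _ b2 _
    rw [sum_mul_sum, sum_mul]
    refine sum_congr rfl fun s1 _ => ?_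
    rw [sum_mul]
    refine sum_congr rfl fun s2 _ => ?_
    rw [sum_const, sum_const, nsmul_eq_mul, nsmul_eq_mul, Nat.card_Icc, Nat.add_sub_cancel]
    ring
  rw [sum_congr rfl fun b1 hb1 => sum_congr rfl fun b2 hb2 => e1 b1 hb1 b2 hb2]
  have e2 : ∑ b1 ∈ B, ∑ b2 ∈ B, (∑ s1 ∈ Ico S (2 * S), ‖β b1 r s1‖ ^ 2) *
      (∑ s2 ∈ Ico S (2 * S), ‖β b2 r s2‖ ^ 2) * (H : ℝ) ^ 2 =
      (∑ b ∈ B, ∑ s ∈ Ico S (2 * S), ‖β b r s‖ ^ 2) ^ 2 * (H : ℝ) ^ 2 := by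
    rw [sq (∑ b ∈ B, ∑ s ∈ Ico S (2 * S), ‖β b r s‖ ^ 2), sum_mul_sum, sum_mul]
    refine sum_congr rfl fun b1 _ => ?_
    rw [sum_mul]
  rw [e2]
  refine mul_le_mul_of_nonneg_right ?_ (by positivity)
  refine pow_le_pow_left₀ (sum_nonneg fun b _ => sum_nonneg fun s _ => by positivity) ?_ 2
  rw [sum_comm]
  refine (sum_le_sum (g := fun _ => K) fun s _ => ?_).trans ?_
  · refine le_trans (sum_le_sum fun b _ => ?_) (hK r s)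
    have h1 := hβ b r s
    have h2 := norm_nonneg (β b r s)
    nlinarith
  · rw [sum_const, nsmul_eq_mul, Uof_card]

private lemma Uof_v (g : ℝ) (hg : 0 ≤ g) (p : Prop) [Decidable p] :
    (if p then g ^ ((1 : ℝ) / 2) else 0) ^ 2 = if p then g else 0 := by
  split_ifs
  · rw [← Real.rpow_natCast, ← Real.rpow_mul hg]
    norm_num
  · norm_num

theorem tUof (h1 : UgfStmt) : UofStmt := by
  intro ε hε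
  obtain ⟨C, hC, hC2⟩ := h1 ε hε
  refine ⟨Real.sqrt C, Real.sqrt_nonneg _, fun R S H X K W B β θ hS hH hX hβ hK hW hB => ?_⟩
  have hS' : (1 : ℝ) ≤ S := by exact_mod_cast hS
  have hH' : (1 : ℝ) ≤ H := by exact_mod_cast hH
  have hK0 : 0 ≤ K := (sum_nonneg fun b _ => norm_nonneg _).trans (hK 0 0)
  have hW0 : 0 ≤ W := (Nat.cast_nonneg _).trans hW
  have hbase : 1 ≤ X * H * S := by
    calc (1 : ℝ) = 1 * 1 * 1 := by norm_num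
      _ ≤ X * H * S := by gcongr
  have hpow : 1 ≤ (X * H * S) ^ ε := Real.one_le_rpow hbase hε.le
  set T : ℝ := (R : ℝ) * S ^ 2 * H ^ 2 with hT
  have hT0 : 0 ≤ T := by positivity
  have hc := Uof_cauchy (Icc 1 R) (Ico S (2 * S)) (Icc 1 H) B
    (fun r b1 b2 s1 s2 _ _ => ‖β b1 r s1‖ * ‖β b2 r s2‖)
    (fun r b1 b2 s1 s2 h1 h2 => if kM (θ b1) (θ b2) h1 h2 s1 s2 ≠ 0 then
      (Int.gcd (kM (θ b1) (θ b2) h1 h2 s1 s2) (q0 r s1 s2) : ℝ) ^ ((1 : ℝ) / 2) else 0)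
  have hu : ∑ r ∈ Icc 1 R, ∑ b1 ∈ B, ∑ b2 ∈ B, ∑ s1 ∈ Ico S (2 * S), ∑ s2 ∈ Ico S (2 * S),
      ∑ _h1 ∈ Icc 1 H, ∑ _h2 ∈ Icc 1 H, (‖β b1 r s1‖ * ‖β b2 r s2‖) ^ 2 ≤ K ^ 2 * T := by
    refine (sum_le_sum fun r _ => Uof_u S H r K B β hβ hK).trans ?_
    rw [sum_const, nsmul_eq_mul, Nat.card_Icc, Nat.add_sub_cancel]
    apply le_of_eq
    rw [hT]
    ring
  have hv : ∑ r ∈ Icc 1 R, ∑ b1 ∈ B, ∑ b2 ∈ B, ∑ s1 ∈ Ico S (2 * S), ∑ s2 ∈ Ico S (2 * S),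
      ∑ h1 ∈ Icc 1 H, ∑ h2 ∈ Icc 1 H, (if kM (θ b1) (θ b2) h1 h2 s1 s2 ≠ 0 then
      (Int.gcd (kM (θ b1) (θ b2) h1 h2 s1 s2) (q0 r s1 s2) : ℝ) ^ ((1 : ℝ) / 2) else 0) ^ 2 ≤
      W ^ 2 * (C * (X * H * S) ^ ε * T) := by
    have e1 : ∑ r ∈ Icc 1 R, ∑ b1 ∈ B, ∑ b2 ∈ B, ∑ s1 ∈ Ico S (2 * S), ∑ s2 ∈ Ico S (2 * S),
      ∑ h1 ∈ Icc 1 H, ∑ h2 ∈ Icc 1 H, (if kM (θ b1) (θ b2) h1 h2 s1 s2 ≠ 0 then
      (Int.gcd (kM (θ b1) (θ b2) h1 h2 s1 s2) (q0 r s1 s2) : ℝ) ^ ((1 : ℝ) / 2) else 0) ^ 2 =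
      ∑ b1 ∈ B, ∑ b2 ∈ B, ∑ r ∈ Icc 1 R, ∑ s1 ∈ Ico S (2 * S), ∑ s2 ∈ Ico S (2 * S),
      ∑ h1 ∈ Icc 1 H, ∑ h2 ∈ Icc 1 H, (if kM (θ b1) (θ b2) h1 h2 s1 s2 ≠ 0 then
      (Int.gcd (kM (θ b1) (θ b2) h1 h2 s1 s2) (q0 r s1 s2) : ℝ) else 0) := by
      rw [sum_comm]
      refine sum_congr rfl fun b1 _ => ?_
      rw [sum_comm]
      refine sum_congr rfl fun b2 _ => sum_congr rfl fun r _ => sum_congr rfl fun s1 _ =>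
        sum_congr rfl fun s2 _ => sum_congr rfl fun h1 _ => sum_congr rfl fun h2 _ => ?_
      exact Uof_v _ (Nat.cast_nonneg _) _
    rw [e1]
    refine (sum_le_sum fun b1 hb1 => sum_le_sum fun b2 hb2 =>
      hC2 R S H X (θ b1) (θ b2) hS hH hX (hB b1 hb1).1 (hB b2 hb2).1 (hB b1 hb1).2
        (hB b2 hb2).2).trans ?_
    rw [sum_const, sum_const, nsmul_eq_mul, nsmul_eq_mul, ← mul_assoc, ← sq]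
    refine mul_le_mul_of_nonneg_right ?_ (by positivity)
    exact pow_le_pow_left₀ (Nat.cast_nonneg _) hW 2
  have hfin : (∑ r ∈ Icc 1 R, ∑ b1 ∈ B, ∑ b2 ∈ B, ∑ s1 ∈ Ico S (2 * S), ∑ s2 ∈ Ico S (2 * S),
      ∑ h1 ∈ Icc 1 H, ∑ h2 ∈ Icc 1 H, ‖β b1 r s1‖ * ‖β b2 r s2‖ *
      (if kM (θ b1) (θ b2) h1 h2 s1 s2 ≠ 0 then
      (Int.gcd (kM (θ b1) (θ b2) h1 h2 s1 s2) (q0 r s1 s2) : ℝ) ^ ((1 : ℝ) / 2) else 0)) ^ 2 ≤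
      (Real.sqrt C * (X * H * S) ^ ε * (K * W * T)) ^ 2 := by
    refine hc.trans ((mul_le_mul hu hv
      (sum_nonneg fun r _ => sum_nonneg fun b1 _ => sum_nonneg fun b2 _ => sum_nonneg fun s1 _ =>
        sum_nonneg fun s2 _ => sum_nonneg fun h1 _ => sum_nonneg fun h2 _ => sq_nonneg _)
      (by positivity)).trans ?_)
    have e1 : (Real.sqrt C * (X * H * S) ^ ε * (K * W * T)) ^ 2 =
        C * ((X * H * S) ^ ε) ^ 2 * (K * W * T) ^ 2 := by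
      rw [mul_pow, mul_pow, Real.sq_sqrt hC]
    rw [e1]
    have e2 : K ^ 2 * T * (W ^ 2 * (C * (X * H * S) ^ ε * T)) =
        C * (X * H * S) ^ ε * (K * W * T) ^ 2 := by ring
    rw [e2]
    refine mul_le_mul_of_nonneg_right (mul_le_mul_of_nonneg_left ?_ hC) (by positivity)
    exact le_self_pow₀ hpow (by norm_num)
  exact (pow_le_pow_iff_left₀
    (sum_nonneg fun r _ => sum_nonneg fun b1 _ => sum_nonneg fun b2 _ => sum_nonneg fun s1 _ =>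
        sum_nonneg fun s2 _ => sum_nonneg fun h1 _ => sum_nonneg fun h2 _ => by
          refine mul_nonneg (by positivity) ?_
          split_ifs <;> positivity)
    (by positivity) (by norm_num)).1 hfin

end Pool.Agent.Lib.TM
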