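import Pool.Agent.Lib.TM.SpecU
import Pool.Agent.Lib.TB.Tauk

/-!
MP_00e23e_nt, Lib/TM, module Utr (helper40): the trilinear form of the family (after TN/Tri.lean).
-/

namespace Pool.Agent.Lib.TM

open Finset Pool.Agent.Lib.EH3 Pool.Agent.Lib.TB Pool.Agent.Lib.TN Pool.Agent.Results.MP_00e23e_nt

private lemma Utr_norm_Im (P : ℕ) (θ1 θ2 : ℤ) (τ : ℝ) (r s1 s2 h1 h2 : ℕ) :
    ‖ImM P θ1 θ2 τ r s1 s2 h1 h2‖ ≤ 2 * (P : ℝ) := by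
  unfold ImM
  refine (norm_sum_le _ _).trans ?_
  have h : ∀ m ∈ (Ioc P (3 * P)).filter (fun m => m.Coprime (r * s1) ∧ m.Coprime (r * s2)),
      ‖eB ((h1 : ℤ) * θ1) ((h1 : ℝ) * τ) m (r * s1) *
        (starRingEnd ℂ) (eB ((h2 : ℤ) * θ2) ((h2 : ℝ) * τ) m (r * s2))‖ ≤ 1 := by
    intro m _
    rw [norm_mul, RCLike.norm_conj]
    unfold eB
    rw [norm_ee, norm_ee, one_mul]
  refine (Finset.sum_le_card_nsmul _ _ _ h).trans ?_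
  rw [nsmul_eq_mul, mul_one]
  have h2 : ((Ioc P (3 * P)).filter (fun m => m.Coprime (r * s1) ∧ m.Coprime (r * s2))).card ≤ 2 * P := by
    refine (Finset.card_filter_le _ _).trans ?_
    rw [Nat.card_Ioc]
    omega
  exact_mod_cast h2

/-- the arithmetic factor -/
private lemma Utr_tau (ε : ℝ) (hε : 0 < ε) : ∃ C : ℝ, 0 ≤ C ∧ ∀ (P q : ℕ), 1 ≤ P → 1 ≤ q → q ≤ 6 * P ^ 2 →
    (q.divisors.card : ℝ) * (3 + Real.log q) ≤ C * (P : ℝ) ^ ε := by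
  obtain ⟨Ct, hCt, ht⟩ := tTauk (ε / 4) (by linarith)
  refine ⟨Ct * (3 + 4 / ε) * (6 : ℝ) ^ (ε / 2), by positivity, ?_⟩
  intro P q hP hq hqP
  have hq1 : (1 : ℝ) ≤ q := by exact_mod_cast hq
  have hP1 : (1 : ℝ) ≤ P := by exact_mod_cast hP
  have h1 := ht q hq
  have h2 : Real.log q ≤ (q : ℝ) ^ (ε / 4) / (ε / 4) := Real.log_le_rpow_div (by linarith) (by linarith)
  have h3 : (1 : ℝ) ≤ (q : ℝ) ^ (ε / 4) := Real.one_le_rpow hq1 (by linarith)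
  have h4 : 3 + Real.log q ≤ (3 + 4 / ε) * (q : ℝ) ^ (ε / 4) := by
    have : (q : ℝ) ^ (ε / 4) / (ε / 4) = 4 / ε * (q : ℝ) ^ (ε / 4) := by
      field_simp
    rw [this] at h2
    nlinarith
  have hlog : 0 ≤ Real.log q := Real.log_nonneg hq1
  calc (q.divisors.card : ℝ) * (3 + Real.log q) ≤ (Ct * (q : ℝ) ^ (ε / 4)) * ((3 + 4 / ε) * (q : ℝ) ^ (ε / 4)) :=
        mul_le_mul h1 h4 (by linarith) (by positivity)
    _ = Ct * (3 + 4 / ε) * ((q : ℝ) ^ (ε / 4) * (q : ℝ) ^ (ε / 4)) := by ring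
    _ = Ct * (3 + 4 / ε) * (q : ℝ) ^ (ε / 2) := by
        rw [← Real.rpow_add (by linarith)]
        congr 2
        ring
    _ ≤ Ct * (3 + 4 / ε) * ((6 * (P : ℝ) ^ 2) ^ (ε / 2)) := by
        refine mul_le_mul_of_nonneg_left ?_ (by positivity)
        refine Real.rpow_le_rpow (by linarith) ?_ (by linarith)
        exact_mod_cast hqP
    _ = Ct * (3 + 4 / ε) * (6 : ℝ) ^ (ε / 2) * (P : ℝ) ^ ε := by
        rw [Real.mul_rpow (by norm_num) (by positivity), ← Real.rpow_natCast, ← Real.rpow_mul (by linarith)]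
        have : ((2 : ℕ) : ℝ) * (ε / 2) = ε := by push_cast; ring
        rw [this]
        ring

/-- one term -/
private lemma Utr_term (h2 : UimStmt) (ε : ℝ) {C1 : ℝ}
    (hC1 : ∀ (P q : ℕ), 1 ≤ P → 1 ≤ q → q ≤ 6 * P ^ 2 → (q.divisors.card : ℝ) * (3 + Real.log q) ≤ C1 * (P : ℝ) ^ ε)
    (P S H : ℕ) (θ1 θ2 : ℤ) (τ τ0 : ℝ) (u1 u2 : ℂ) (hP : 1 ≤ P) (hSP : S ≤ P) (hτ : |τ| ≤ τ0)
    (r s1 s2 g1 g2 : ℕ) (hu1 : ‖u1‖ ≤ 1) (hu2 : ‖u2‖ ≤ 1)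
    (hβ1 : u1 ≠ 0 → P < r * s1 ∧ r * s1 ≤ 3 * P ∧ Squarefree (r * s1))
    (hβ2 : u2 ≠ 0 → P < r * s2 ∧ r * s2 ≤ 3 * P ∧ Squarefree (r * s2))
    (hs2 : s2 ≤ 2 * S) (hg1 : g1 ≤ H) (hg2 : g2 ≤ H) :
    ‖u1‖ * ‖u2‖ * ‖ImM P θ1 θ2 τ r s1 s2 g1 g2‖ ≤
      2 * (P : ℝ) * (if kM θ1 θ2 g1 g2 s1 s2 = 0 then (1 : ℝ) else 0) +
      7 * (1 + (H : ℝ) * τ0 / (P : ℝ) ^ 2) * (C1 * (P : ℝ) ^ ε) * (6 * (P : ℝ) * S) ^ ((1 : ℝ) / 2) *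
        (‖u1‖ * ‖u2‖ * (if kM θ1 θ2 g1 g2 s1 s2 ≠ 0 then
          (Int.gcd (kM θ1 θ2 g1 g2 s1 s2) (q0 r s1 s2) : ℝ) ^ ((1 : ℝ) / 2) else 0)) := by
  have hτ0 : 0 ≤ τ0 := (abs_nonneg τ).trans hτ
  have hC1' : 0 ≤ C1 * (P : ℝ) ^ ε := by
    refine le_trans ?_ (hC1 P 1 hP le_rfl (by nlinarith))
    have : (0 : ℝ) ≤ Real.log (1 : ℕ) := by simp
    positivity
  have hV : (0 : ℝ) ≤ 1 + (H : ℝ) * τ0 / (P : ℝ) ^ 2 := by positivity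
  have e1 : (0 : ℝ) ≤ (if kM θ1 θ2 g1 g2 s1 s2 = 0 then (1 : ℝ) else 0) := by split_ifs <;> norm_num
  have e2 : (0 : ℝ) ≤ (if kM θ1 θ2 g1 g2 s1 s2 ≠ 0 then
      (Int.gcd (kM θ1 θ2 g1 g2 s1 s2) (q0 r s1 s2) : ℝ) ^ ((1 : ℝ) / 2) else 0) := by
    split_ifs
    · positivity
    · exact le_rfl
  by_cases hc1 : u1 = 0
  · rw [hc1, norm_zero, zero_mul, zero_mul, zero_mul, mul_zero, add_zero]
    positivity
  by_cases hc2 : u2 = 0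
  · rw [hc2, norm_zero, mul_zero, zero_mul, zero_mul, mul_zero, add_zero]
    positivity
  obtain ⟨a1, a2, a3⟩ := hβ1 hc1
  obtain ⟨b1, b2, b3⟩ := hβ2 hc2
  by_cases hk : kM θ1 θ2 g1 g2 s1 s2 = 0
  · rw [if_pos hk, if_neg (by simpa using hk), mul_one, mul_zero, mul_zero, add_zero]
    have h3 : ‖u1‖ * ‖u2‖ ≤ 1 := by
      calc ‖u1‖ * ‖u2‖ ≤ 1 * 1 := mul_le_mul hu1 hu2 (norm_nonneg _) zero_le_one
        _ = 1 := one_mul 1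
    calc ‖u1‖ * ‖u2‖ * ‖ImM P θ1 θ2 τ r s1 s2 g1 g2‖
        ≤ 1 * (2 * (P : ℝ)) := mul_le_mul h3 (Utr_norm_Im P θ1 θ2 τ r s1 s2 g1 g2) (norm_nonneg _) zero_le_one
      _ = 2 * (P : ℝ) := one_mul _
  · rw [if_neg hk, if_pos hk, mul_zero, zero_add]
    have hr : 1 ≤ r := by
      rcases Nat.eq_zero_or_pos r with h | h
      · subst h; simp at a1
      · exact h
    have hs1' : 1 ≤ s1 := by
      rcases Nat.eq_zero_or_pos s1 with h | h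
      · subst h; simp at a1
      · exact h
    have hs2' : 1 ≤ s2 := by
      rcases Nat.eq_zero_or_pos s2 with h | h
      · subst h; simp at b1
      · exact h
    have hq1 : 1 ≤ q0 r s1 s2 := Nat.mul_pos hr (Nat.lcm_pos hs1' hs2')
    have hq6 : q0 r s1 s2 ≤ 6 * P * S := by
      unfold q0
      have e1 : Nat.lcm s1 s2 ≤ s1 * s2 := Nat.div_le_self _ _
      calc r * Nat.lcm s1 s2 ≤ r * (s1 * s2) := Nat.mul_le_mul_left _ e1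
        _ = (r * s1) * s2 := by ring
        _ ≤ (3 * P) * (2 * S) := Nat.mul_le_mul a2 hs2
        _ = 6 * P * S := by ring
    have hq6' : q0 r s1 s2 ≤ 6 * P ^ 2 := by
      refine hq6.trans ?_
      have : P * S ≤ P * P := Nat.mul_le_mul_left _ hSP
      nlinarith
    have hm := h2 P H θ1 θ2 τ r s1 s2 g1 g2 hP hg1 hg2 a1 b1 a3 b3
    have ht := hC1 P (q0 r s1 s2) hP hq1 hq6'
    set G : ℕ := Int.gcd (kM θ1 θ2 g1 g2 s1 s2) (q0 r s1 s2) with hG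
    have hqr : ((q0 r s1 s2 : ℕ) : ℝ) ^ ((1 : ℝ) / 2) ≤ (6 * (P : ℝ) * S) ^ ((1 : ℝ) / 2) := by
      refine Real.rpow_le_rpow (Nat.cast_nonneg _) ?_ (by norm_num)
      exact_mod_cast hq6
    have hlog : 0 ≤ Real.log (q0 r s1 s2 : ℕ) := Real.log_nonneg (by exact_mod_cast hq1)
    have hG0 : (0 : ℝ) ≤ (G : ℝ) ^ ((1 : ℝ) / 2) := by positivity
    have key : ((q0 r s1 s2).divisors.card : ℝ) * (G : ℝ) ^ ((1 : ℝ) / 2) *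
        ((q0 r s1 s2 : ℕ) : ℝ) ^ ((1 : ℝ) / 2) * (3 + Real.log (q0 r s1 s2 : ℕ)) ≤
        (C1 * (P : ℝ) ^ ε) * ((6 * (P : ℝ) * S) ^ ((1 : ℝ) / 2) * (G : ℝ) ^ ((1 : ℝ) / 2)) := by
      calc ((q0 r s1 s2).divisors.card : ℝ) * (G : ℝ) ^ ((1 : ℝ) / 2) *
        ((q0 r s1 s2 : ℕ) : ℝ) ^ ((1 : ℝ) / 2) * (3 + Real.log (q0 r s1 s2 : ℕ))
          = (((q0 r s1 s2).divisors.card : ℝ) * (3 + Real.log (q0 r s1 s2 : ℕ))) *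
            (((q0 r s1 s2 : ℕ) : ℝ) ^ ((1 : ℝ) / 2) * (G : ℝ) ^ ((1 : ℝ) / 2)) := by ring
        _ ≤ (C1 * (P : ℝ) ^ ε) * ((6 * (P : ℝ) * S) ^ ((1 : ℝ) / 2) * (G : ℝ) ^ ((1 : ℝ) / 2)) := by
            refine mul_le_mul ht ?_ (by positivity) hC1'
            exact mul_le_mul_of_nonneg_right hqr hG0
    have hVV : 1 + (H : ℝ) * |τ| / (P : ℝ) ^ 2 ≤ 1 + (H : ℝ) * τ0 / (P : ℝ) ^ 2 := by
      have h5 : (H : ℝ) * |τ| ≤ (H : ℝ) * τ0 := mul_le_mul_of_nonneg_left hτ (Nat.cast_nonneg _)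
      have h6 : (H : ℝ) * |τ| / (P : ℝ) ^ 2 ≤ (H : ℝ) * τ0 / (P : ℝ) ^ 2 :=
        div_le_div_of_nonneg_right h5 (by positivity)
      linarith
    have hmain : ‖ImM P θ1 θ2 τ r s1 s2 g1 g2‖ ≤ 7 * (1 + (H : ℝ) * τ0 / (P : ℝ) ^ 2) *
        ((C1 * (P : ℝ) ^ ε) * ((6 * (P : ℝ) * S) ^ ((1 : ℝ) / 2) * (G : ℝ) ^ ((1 : ℝ) / 2))) := by
      refine hm.trans ?_
      refine mul_le_mul (by linarith) key (mul_nonneg (mul_nonneg (mul_nonneg (Nat.cast_nonneg _) hG0)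
        (Real.rpow_nonneg (Nat.cast_nonneg _) _)) (by linarith)) (by linarith)
    calc ‖u1‖ * ‖u2‖ * ‖ImM P θ1 θ2 τ r s1 s2 g1 g2‖
        ≤ ‖u1‖ * ‖u2‖ * (7 * (1 + (H : ℝ) * τ0 / (P : ℝ) ^ 2) *
        ((C1 * (P : ℝ) ^ ε) * ((6 * (P : ℝ) * S) ^ ((1 : ℝ) / 2) * (G : ℝ) ^ ((1 : ℝ) / 2)))) :=
          mul_le_mul_of_nonneg_left hmain (by positivity)
      _ = _ := by ring

private lemma Utr_b1 {P R C2 S H E F K W V : ℝ} (hP : 1 ≤ P) (hS : 1 ≤ S) (hH : 1 ≤ H) (hC2 : 0 ≤ C2)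
    (hR0 : 0 ≤ R) (hR : R ≤ 3 * P / S) (hF : 0 ≤ F) (hFE : F ≤ E) (hE : 1 ≤ E) (hK : 0 ≤ K) (hV : 1 ≤ V) :
    K * (2 * P * R) * (W * (R * (2 * P * (C2 * F * (W * S * H))))) ≤
      36 * C2 * E ^ 2 * V * (K * W ^ 2 * (P ^ 4 * H / S)) := by
  have hR2 : R ^ 2 ≤ (3 * P / S) ^ 2 := pow_le_pow_left₀ hR0 hR 2
  have hS0 : S ≠ 0 := by linarith
  have hE2 : E ≤ E ^ 2 * V := by
    have : E ≤ E ^ 2 := by nlinarith
    nlinarith [sq_nonneg E]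
  calc K * (2 * P * R) * (W * (R * (2 * P * (C2 * F * (W * S * H)))))
      = (4 * P ^ 2 * C2 * (S * H) * (K * W ^ 2)) * (R ^ 2 * F) := by ring
    _ ≤ (4 * P ^ 2 * C2 * (S * H) * (K * W ^ 2)) * ((3 * P / S) ^ 2 * (E ^ 2 * V)) := by
        refine mul_le_mul_of_nonneg_left ?_ (by positivity)
        exact mul_le_mul hR2 (hFE.trans hE2) hF (by positivity)
    _ = _ := by
        field_simp
        ring

private lemma Utr_b2 {P R C1 C3 S H E F G V K W p s q Y : ℝ} (hP : 1 ≤ P) (hS : 1 ≤ S) (hH : 1 ≤ H)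
    (hC1 : 0 ≤ C1) (hC3 : 0 ≤ C3) (hR0 : 0 ≤ R) (hV : 0 ≤ V) (hq : 0 ≤ q)
    (hR : R ≤ 3 * P / S) (hF : 0 ≤ F) (hFE : F ≤ E) (hG : 0 ≤ G) (hGE : G ≤ E) (hp : 0 ≤ p) (hs : 0 ≤ s)
    (hY : P ^ 3 * p * s = Y) :
    K * (2 * P * R) * (W * (7 * V * (C1 * F) * (q * (p * s)) * (C3 * G * (K * W * (R * S ^ 2 * H ^ 2))))) ≤
      126 * q * C1 * C3 * E ^ 2 * V * (K * W ^ 2 * (K * H ^ 2 * Y)) := by
  have hR2 : R ^ 2 ≤ (3 * P / S) ^ 2 := pow_le_pow_left₀ hR0 hR 2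
  have hS0 : S ≠ 0 := by linarith
  have hE : 0 ≤ E := hF.trans hFE
  calc K * (2 * P * R) * (W * (7 * V * (C1 * F) * (q * (p * s)) * (C3 * G * (K * W * (R * S ^ 2 * H ^ 2)))))
      = (14 * P * V * C1 * (q * (p * s)) * C3 * S ^ 2 * H ^ 2 * (K ^ 2 * W ^ 2)) * (R ^ 2 * (F * G)) := by ring
    _ ≤ (14 * P * V * C1 * (q * (p * s)) * C3 * S ^ 2 * H ^ 2 * (K ^ 2 * W ^ 2)) *
        ((3 * P / S) ^ 2 * (E * E)) := by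
        refine mul_le_mul_of_nonneg_left ?_ (by positivity)
        refine mul_le_mul hR2 ?_ (by positivity) (by positivity)
        exact mul_le_mul hFE hGE hG hE
    _ = 126 * q * C1 * C3 * E ^ 2 * V * (K * W ^ 2 * (K * H ^ 2 * (P ^ 3 * p * s))) := by
        field_simp
        ring
    _ = _ := by rw [hY]

theorem tUtr (h1 : UcsStmt) (h2 : UimStmt) (h3 : UdgStmt) (h4 : UofStmt) : UtrStmt := by
  intro ε hε
  have hε2 : 0 < ε / 2 := by linarith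
  obtain ⟨C1, hC10, hC1⟩ := Utr_tau (ε / 2) hε2
  obtain ⟨C2, hC20, hC2⟩ := h3 (ε / 2) hε2
  obtain ⟨C3, hC30, hC3⟩ := h4 (ε / 2) hε2
  refine ⟨36 * C2 + 126 * (6 : ℝ) ^ ((1 : ℝ) / 2) * C1 * C3, by positivity, ?_⟩
  intro P S H K W X τ0 A B α β θ τ hP hS hH hSP hα hαK hβ1 hβK hβ hA hBA hθi hθ hX hτ hτ0
  have hP1 : (1 : ℝ) ≤ P := by exact_mod_cast hP
  have hS1 : (1 : ℝ) ≤ S := by exact_mod_cast hS
  have hH1 : (1 : ℝ) ≤ H := by exact_mod_cast hH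
  have hSPr : (S : ℝ) ≤ P := by exact_mod_cast hSP
  have hK0 : 0 ≤ K := (Finset.sum_nonneg fun a _ => norm_nonneg _).trans (hαK 0)
  have hW0 : 0 ≤ W := (Nat.cast_nonneg _).trans hA
  set V : ℝ := 1 + (H : ℝ) * τ0 / (P : ℝ) ^ 2 with hV
  have hV1 : 1 ≤ V := by
    rw [hV]
    have : 0 ≤ (H : ℝ) * τ0 / (P : ℝ) ^ 2 := by positivity
    linarith
  set N0 : ℝ := (P : ℝ) * H * X with hN0
  have hPH : (1 : ℝ) ≤ (P : ℝ) * H := by nlinarith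
  have hN1 : 1 ≤ N0 := by
    rw [hN0]
    nlinarith
  set R : ℕ := 3 * P / S with hR
  have hRr : (R : ℝ) ≤ 3 * P / S := by
    rw [hR]
    have := @Nat.cast_div_le ℝ _ _ _ (3 * P) S
    refine this.trans (le_of_eq ?_)
    push_cast
    rfl
  have hPe : (P : ℝ) ^ (ε / 2) ≤ N0 ^ (ε / 2) := by
    refine Real.rpow_le_rpow (by linarith) ?_ hε2.le
    rw [hN0]
    have : (1 : ℝ) ≤ (H : ℝ) * X := by nlinarith
    calc (P : ℝ) = P * 1 := (mul_one _).symm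
      _ ≤ P * (H * X) := mul_le_mul_of_nonneg_left this (by linarith)
      _ = (P : ℝ) * H * X := by ring
  have hTHe : (X * H * S) ^ (ε / 2) ≤ N0 ^ (ε / 2) := by
    refine Real.rpow_le_rpow (by positivity) ?_ hε2.le
    rw [hN0]
    have : X * H * S ≤ X * H * P := mul_le_mul_of_nonneg_left hSPr (by positivity)
    calc X * H * S ≤ X * H * P := this
      _ = _ := by ring
  have hNe1 : 1 ≤ N0 ^ (ε / 2) := Real.one_le_rpow hN1 hε2.le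
  have hE2 : (N0 ^ (ε / 2)) ^ 2 = N0 ^ ε := by
    rw [← Real.rpow_natCast, ← Real.rpow_mul (by linarith)]
    congr 1
    push_cast
    ring
  -- the sum for one value
  set D : ℝ := 7 * V * (C1 * (P : ℝ) ^ (ε / 2)) * (6 * (P : ℝ) * S) ^ ((1 : ℝ) / 2) with hD
  have hD0 : 0 ≤ D := by positivity
  have hR0 : (0 : ℝ) ≤ R := Nat.cast_nonneg _
  have hcs := h1 P S H K A B α β θ τ hα hαK
  have hone : ∀ a ∈ A, ∑ r ∈ Icc 1 R, ∑ b1 ∈ B a, ∑ b2 ∈ B a, ∑ s1 ∈ Ico S (2 * S), ∑ s2 ∈ Ico S (2 * S),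
      ∑ h1 ∈ Icc 1 H, ∑ h2 ∈ Icc 1 H,
        ‖β b1 r s1‖ * ‖β b2 r s2‖ * ‖ImM P (θ a b1) (θ a b2) (τ a) r s1 s2 h1 h2‖ ≤
      R * (2 * (P : ℝ) * (C2 * (X * H * S) ^ (ε / 2) * (W * S * H))) +
        D * (C3 * (X * H * S) ^ (ε / 2) * (K * W * ((R : ℝ) * S ^ 2 * H ^ 2))) := by
    intro a ha
    have hcard : ((B a).card : ℝ) ≤ W := by
      refine le_trans ?_ hA
      exact_mod_cast Finset.card_le_card (hBA a ha)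
    have e1 : ∑ r ∈ Icc 1 R, ∑ b1 ∈ B a, ∑ b2 ∈ B a, ∑ s1 ∈ Ico S (2 * S), ∑ s2 ∈ Ico S (2 * S),
      ∑ h1 ∈ Icc 1 H, ∑ h2 ∈ Icc 1 H,
        ‖β b1 r s1‖ * ‖β b2 r s2‖ * ‖ImM P (θ a b1) (θ a b2) (τ a) r s1 s2 h1 h2‖ ≤
      ∑ r ∈ Icc 1 R, ∑ b1 ∈ B a, ∑ b2 ∈ B a, ∑ s1 ∈ Ico S (2 * S), ∑ s2 ∈ Ico S (2 * S),
      ∑ h1 ∈ Icc 1 H, ∑ h2 ∈ Icc 1 H,
        (2 * (P : ℝ) * (if kM (θ a b1) (θ a b2) h1 h2 s1 s2 = 0 then (1 : ℝ) else 0) +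
        D * (‖β b1 r s1‖ * ‖β b2 r s2‖ * (if kM (θ a b1) (θ a b2) h1 h2 s1 s2 ≠ 0 then
          (Int.gcd (kM (θ a b1) (θ a b2) h1 h2 s1 s2) (q0 r s1 s2) : ℝ) ^ ((1 : ℝ) / 2) else 0))) := by
      refine sum_le_sum fun r _ => sum_le_sum fun b1 _ => sum_le_sum fun b2 _ => sum_le_sum fun s1 _ =>
        sum_le_sum fun s2 hs2 => sum_le_sum fun g1 hg1 => sum_le_sum fun g2 hg2 => ?_
      exact Utr_term h2 (ε / 2) hC1 P S H (θ a b1) (θ a b2) (τ a) τ0 (β b1 r s1) (β b2 r s2) hP hSP (hτ a ha)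
        r s1 s2 g1 g2 (hβ1 _ _ _) (hβ1 _ _ _) (hβ b1 r s1) (hβ b2 r s2) (mem_Ico.1 hs2).2.le (mem_Icc.1 hg1).2
        (mem_Icc.1 hg2).2
    have e9 : ∑ r ∈ Icc 1 R, ∑ b1 ∈ B a, ∑ b2 ∈ B a, ∑ s1 ∈ Ico S (2 * S), ∑ s2 ∈ Ico S (2 * S),
      ∑ h1 ∈ Icc 1 H, ∑ h2 ∈ Icc 1 H,
        (2 * (P : ℝ) * (if kM (θ a b1) (θ a b2) h1 h2 s1 s2 = 0 then (1 : ℝ) else 0) +
        D * (‖β b1 r s1‖ * ‖β b2 r s2‖ * (if kM (θ a b1) (θ a b2) h1 h2 s1 s2 ≠ 0 then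
          (Int.gcd (kM (θ a b1) (θ a b2) h1 h2 s1 s2) (q0 r s1 s2) : ℝ) ^ ((1 : ℝ) / 2) else 0))) =
      ∑ r ∈ Icc 1 R, (2 * (P : ℝ) * ∑ b1 ∈ B a, ∑ b2 ∈ B a, ∑ s1 ∈ Ico S (2 * S), ∑ s2 ∈ Ico S (2 * S),
      ∑ h1 ∈ Icc 1 H, ∑ h2 ∈ Icc 1 H, (if kM (θ a b1) (θ a b2) h1 h2 s1 s2 = 0 then (1 : ℝ) else 0)) +
      D * ∑ r ∈ Icc 1 R, ∑ b1 ∈ B a, ∑ b2 ∈ B a, ∑ s1 ∈ Ico S (2 * S), ∑ s2 ∈ Ico S (2 * S),
      ∑ h1 ∈ Icc 1 H, ∑ h2 ∈ Icc 1 H,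
        (‖β b1 r s1‖ * ‖β b2 r s2‖ * (if kM (θ a b1) (θ a b2) h1 h2 s1 s2 ≠ 0 then
          (Int.gcd (kM (θ a b1) (θ a b2) h1 h2 s1 s2) (q0 r s1 s2) : ℝ) ^ ((1 : ℝ) / 2) else 0)) := by
      simp only [mul_sum, sum_add_distrib]
    refine e1.trans ?_
    rw [e9]
    refine add_le_add ?_ ?_
    · have e2 := hC2 S H X (B a) (θ a) hS hH hX (hθi a ha) (hθ a ha)
      have e3 : C2 * (X * H * S) ^ (ε / 2) * (((B a).card : ℝ) * S * H) ≤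
          C2 * (X * H * S) ^ (ε / 2) * (W * S * H) := by
        refine mul_le_mul_of_nonneg_left ?_ (by positivity)
        refine mul_le_mul_of_nonneg_right ?_ (by linarith)
        exact mul_le_mul_of_nonneg_right hcard (by linarith)
      rw [sum_const, Nat.card_Icc, Nat.add_sub_cancel, nsmul_eq_mul]
      refine mul_le_mul_of_nonneg_left ?_ hR0
      exact mul_le_mul_of_nonneg_left (e2.trans e3) (by positivity)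
    · refine mul_le_mul_of_nonneg_left ?_ hD0
      exact hC3 R S H X K W (B a) β (θ a) hS hH hX hβ1
        (fun r s => (Finset.sum_le_sum_of_subset_of_nonneg (hBA a ha)
          (fun _ _ _ => norm_nonneg _)).trans (hβK r s)) hcard (hθ a ha)
  have hsum : ∑ a ∈ A, ∑ r ∈ Icc 1 R, ∑ b1 ∈ B a, ∑ b2 ∈ B a, ∑ s1 ∈ Ico S (2 * S), ∑ s2 ∈ Ico S (2 * S),
      ∑ h1 ∈ Icc 1 H, ∑ h2 ∈ Icc 1 H,
        ‖β b1 r s1‖ * ‖β b2 r s2‖ * ‖ImM P (θ a b1) (θ a b2) (τ a) r s1 s2 h1 h2‖ ≤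
      W * (R * (2 * (P : ℝ) * (C2 * (X * H * S) ^ (ε / 2) * (W * S * H))) +
        D * (C3 * (X * H * S) ^ (ε / 2) * (K * W * ((R : ℝ) * S ^ 2 * H ^ 2)))) := by
    refine (Finset.sum_le_card_nsmul _ _ _ hone).trans ?_
    rw [nsmul_eq_mul]
    exact mul_le_mul_of_nonneg_right hA (by positivity)
  have hsq : (6 * (P : ℝ) * S) ^ ((1 : ℝ) / 2) = (6 : ℝ) ^ ((1 : ℝ) / 2) * ((P : ℝ) ^ ((1 : ℝ) / 2) *
      (S : ℝ) ^ ((1 : ℝ) / 2)) := by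
    rw [Real.mul_rpow (by positivity) (by positivity), Real.mul_rpow (by positivity) (by positivity), mul_assoc]
  have hP72 : (P : ℝ) ^ 3 * (P : ℝ) ^ ((1 : ℝ) / 2) * (S : ℝ) ^ ((1 : ℝ) / 2) =
      (P : ℝ) ^ ((7 : ℝ) / 2) * (S : ℝ) ^ ((1 : ℝ) / 2) := by
    rw [← Real.rpow_natCast, ← Real.rpow_add (by linarith)]
    norm_num
  have b1 := Utr_b1 (W := W) (C2 := C2) hP1 hS1 hH1 hC20 hR0 hRr
    (by positivity : (0 : ℝ) ≤ (X * H * S) ^ (ε / 2)) hTHe hNe1 hK0 hV1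
  have b2 := Utr_b2 (V := V) (K := K) (W := W) hP1 hS1 hH1 hC10 hC30 hR0 (by linarith : (0 : ℝ) ≤ V)
    (by positivity : (0 : ℝ) ≤ (6 : ℝ) ^ ((1 : ℝ) / 2)) hRr
    (by positivity : (0 : ℝ) ≤ (P : ℝ) ^ (ε / 2)) hPe (by positivity : (0 : ℝ) ≤ (X * H * S) ^ (ε / 2)) hTHe
    (by positivity : (0 : ℝ) ≤ (P : ℝ) ^ ((1 : ℝ) / 2)) (by positivity : (0 : ℝ) ≤ (S : ℝ) ^ ((1 : ℝ) / 2)) hP72
  rw [← hsq] at b2
  calc ‖TfM P S H A B α β θ τ‖ ^ 2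
      ≤ K * (2 * (P : ℝ) * (R : ℝ)) * (W * (R * (2 * (P : ℝ) * (C2 * (X * H * S) ^ (ε / 2) * (W * S * H))) +
        D * (C3 * (X * H * S) ^ (ε / 2) * (K * W * ((R : ℝ) * S ^ 2 * H ^ 2))))) :=
        hcs.trans (mul_le_mul_of_nonneg_left hsum (by positivity))
    _ = K * (2 * (P : ℝ) * (R : ℝ)) * (W * (R * (2 * (P : ℝ) * (C2 * (X * H * S) ^ (ε / 2) * (W * S * H))))) +
        K * (2 * (P : ℝ) * (R : ℝ)) *
          (W * (D * (C3 * (X * H * S) ^ (ε / 2) * (K * W * ((R : ℝ) * S ^ 2 * H ^ 2))))) := by ring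
    _ ≤ 36 * C2 * (N0 ^ (ε / 2)) ^ 2 * V * (K * W ^ 2 * ((P : ℝ) ^ 4 * H / S)) +
        126 * (6 : ℝ) ^ ((1 : ℝ) / 2) * C1 * C3 * (N0 ^ (ε / 2)) ^ 2 * V *
          (K * W ^ 2 * (K * (H : ℝ) ^ 2 * ((P : ℝ) ^ ((7 : ℝ) / 2) * (S : ℝ) ^ ((1 : ℝ) / 2)))) :=
        add_le_add b1 b2
    _ ≤ _ := by
        rw [hE2]
        have hx : 0 ≤ K * W ^ 2 * ((P : ℝ) ^ 4 * H / S) := by positivity
        have hy : 0 ≤ K * W ^ 2 * (K * (H : ℝ) ^ 2 * ((P : ℝ) ^ ((7 : ℝ) / 2) * (S : ℝ) ^ ((1 : ℝ) / 2))) := by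
          positivity
        have hc : 0 ≤ 126 * (6 : ℝ) ^ ((1 : ℝ) / 2) * C1 * C3 := by positivity
        have hNV : 0 ≤ N0 ^ ε * V := by positivity
        set x : ℝ := K * W ^ 2 * ((P : ℝ) ^ 4 * H / S) with hxd
        set y : ℝ := K * W ^ 2 * (K * (H : ℝ) ^ 2 * ((P : ℝ) ^ ((7 : ℝ) / 2) * (S : ℝ) ^ ((1 : ℝ) / 2))) with hyd
        set c : ℝ := 126 * (6 : ℝ) ^ ((1 : ℝ) / 2) * C1 * C3 with hcd
        have e5 : K * W ^ 2 * ((P : ℝ) ^ 4 * H / S +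
            K * (H : ℝ) ^ 2 * ((P : ℝ) ^ ((7 : ℝ) / 2) * (S : ℝ) ^ ((1 : ℝ) / 2))) = x + y := by
          rw [hxd, hyd]
          ring
        rw [e5]
        have e6 : 0 ≤ 36 * C2 * (N0 ^ ε * V) * y := by positivity
        have e7 : 0 ≤ c * (N0 ^ ε * V) * x := by positivity
        calc 36 * C2 * N0 ^ ε * V * x + c * N0 ^ ε * V * y
            ≤ 36 * C2 * N0 ^ ε * V * x + c * N0 ^ ε * V * y + (36 * C2 * (N0 ^ ε * V) * y +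
              c * (N0 ^ ε * V) * x) := by linarith
          _ = (36 * C2 + c) * N0 ^ ε * V * (x + y) := by ring

end Pool.Agent.Lib.TM
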