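import Pool.Agent.Lib.TM.StmM

/-!
MP_00e23e_nt, directory Lib/TM, part T of THEOREM M (helper3): the trilinear form for a whole family of coefficients.
Final statement UpgStmt (Lib/TM/StmM.lean).

RULES. Module X: file Pool/Agent/Lib/TM/X.lean, first line `import Pool.Agent.Lib.TM.SpecU`, then
`namespace Pool.Agent.Lib.TM` and `open Finset Pool.Agent.Lib.EH3 Pool.Agent.Lib.TB Pool.Agent.Lib.TN Pool.Agent.Results.MP_00e23e_nt`,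
private lemmas with names starting with X_, final theorem `theorem tX (h1 : AStmt) ... : XStmt`; the statements listed
under Uses are hypotheses of your theorem, in this order. The docstring contains a complete proof. MOST MODULES ARE SMALL
CHANGES OF A MODULE OF Lib/TN (given as MODEL): copy the file and change it. Differences: two frequencies θ1, θ2 (instead
of one θ), the range Ico S (2 * S) for s (instead of Ioc S (2 * S)), sums over the labels a, b. Basic lemmas: iv_mul,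
iv_dvd, iv_congr, iv_unique, ee_congr, ee_add_int in TB/Basic.lean, ee_add, ee_int, norm_ee, conj_ee in EH3/LS1.lean.
Proved and usable (import the file): TB.tPsm : PsmStmt (TB/Psm.lean), TB.tTauk : TaukStmt (TB/Tauk.lean; the divisor
bound), TN.tTgs : TgsStmt (TN/Tgs.lean), TN.tPsl : PslStmt (TN/Psl.lean). Never use congr!. Every module below 60 s. x / y
for natural numbers in a range is the floor. q0, al, be, Pf are the definitions of TN/SpecT.lean.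
-/

namespace Pool.Agent.Lib.TM

open Finset Pool.Agent.Lib.EH3 Pool.Agent.Lib.TB Pool.Agent.Lib.TN Pool.Agent.Results.MP_00e23e_nt

/-- the trilinear form for one pair (a, b); as TN.Tf, but the range of s is Ico S (2 * S) -/
noncomputable def TfI (P S H : ℕ) (α : ℕ → ℂ) (β : ℕ → ℕ → ℂ) (θ : ℤ) (τ : ℝ) : ℂ :=
  ∑ h ∈ Icc 1 H, ∑ m ∈ Ioc P (3 * P), ∑ r ∈ Icc 1 (3 * P / S),
      ∑ s ∈ (Ico S (2 * S)).filter (fun s => m.Coprime (r * s)),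
        α m * β r s * eB ((h : ℤ) * θ) ((h : ℝ) * τ) m (r * s)

/-- the trilinear form for the family -/
noncomputable def TfM (P S H : ℕ) (A : Finset ℤ) (B : ℤ → Finset ℤ) (α : ℤ → ℕ → ℂ) (β : ℤ → ℕ → ℕ → ℂ)
    (θ : ℤ → ℤ → ℤ) (τ : ℤ → ℝ) : ℂ :=
  ∑ a ∈ A, ∑ b ∈ B a, TfI P S H (α a) (β b) (θ a b) (τ a)

/-- the inner sum over m after Cauchy's inequality (two frequencies) -/
noncomputable def ImM (P : ℕ) (θ1 θ2 : ℤ) (τ : ℝ) (r s1 s2 h1 h2 : ℕ) : ℂ :=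
  ∑ m ∈ (Ioc P (3 * P)).filter (fun m => m.Coprime (r * s1) ∧ m.Coprime (r * s2)),
    eB ((h1 : ℤ) * θ1) ((h1 : ℝ) * τ) m (r * s1) * (starRingEnd ℂ) (eB ((h2 : ℤ) * θ2) ((h2 : ℝ) * τ) m (r * s2))

/-- the frequency of the inner sum -/
def kM (θ1 θ2 : ℤ) (h1 h2 s1 s2 : ℕ) : ℤ :=
  θ1 * h1 * ((s2 / Nat.gcd s1 s2 : ℕ) : ℤ) - θ2 * h2 * ((s1 / Nat.gcd s1 s2 : ℕ) : ℤ)

/-- Module Ucs (theorem tUcs; Cauchy's inequality over a, m and r). Uses: nothing. MODEL: TN/Tcs.lean.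
Proof. Exchange the sums: TfM = ∑_a ∑_m ∑_r α a m X(a, m, r), X(a, m, r) = ∑_{b ∈ B a} ∑_{s ∈ Ico S 2S} ∑_h [m coprime to r s]
β b r s eB(h θ a b)(h τ a) m (r s). Cauchy over the triples (a, m, r) ∈ A × Ioc P 3P × Icc 1 (3P/S): ‖TfM‖^2 ≤ (∑ ‖α a m‖^2)(∑ ‖X(a, m, r)‖^2)
(first ‖TfM‖ ≤ ∑ ‖α‖‖X‖, then Finset.sum_mul_sq_le_sq_mul_sq), and ∑_{a, m, r} ‖α a m‖^2 ≤ ∑_{m, r} ∑_a ‖α a m‖ ≤ K * 2P * (3P/S).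
‖X‖^2 = X conj X = ∑_{b1, b2 ∈ B a} ∑_{s1, s2, h1, h2} [m coprime to r s1 and r s2] β b1 r s1 conj (β b2 r s2) eB(..) conj (eB(..)); sum over m inside:
∑_m ‖X(a, m, r)‖^2 = ∑_{b1, b2, s1, s2, h1, h2} β b1 r s1 conj(β b2 r s2) ImM P (θ a b1) (θ a b2) (τ a) r s1 s2 h1 h2, at most the sum of the norms. -/
def UcsStmt : Prop := ∀ (P S H : ℕ) (K : ℝ) (A : Finset ℤ) (B : ℤ → Finset ℤ) (α : ℤ → ℕ → ℂ) (β : ℤ → ℕ → ℕ → ℂ)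
    (θ : ℤ → ℤ → ℤ) (τ : ℤ → ℝ), (∀ a m, ‖α a m‖ ≤ 1) → (∀ m, ∑ a ∈ A, ‖α a m‖ ≤ K) →
  ‖TfM P S H A B α β θ τ‖ ^ 2 ≤ K * (2 * (P : ℝ) * ((3 * P / S : ℕ) : ℝ)) *
    ∑ a ∈ A, ∑ r ∈ Icc 1 (3 * P / S), ∑ b1 ∈ B a, ∑ b2 ∈ B a, ∑ s1 ∈ Ico S (2 * S), ∑ s2 ∈ Ico S (2 * S),
      ∑ h1 ∈ Icc 1 H, ∑ h2 ∈ Icc 1 H,
        ‖β b1 r s1‖ * ‖β b2 r s2‖ * ‖ImM P (θ a b1) (θ a b2) (τ a) r s1 s2 h1 h2‖

/-- Module Uph (theorem tUph; the product of two phases). Uses: nothing. MODEL: TN/Tph.lean (two frequencies instead of one).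
Proof. g0 = gcd(s1, s2), t1 = s1/g0, t2 = s2/g0, lcm(s1, s2) = s1 t2 = s2 t1, q0 = r s1 t2 = r s2 t1. m is coprime to q0
(q0 divides (r s1)(r s2)). By iv_dvd, q0 | iv m q0 * m - 1, so r s1 and r s2 divide it, and by iv_unique r s1 | iv m q0 - iv m (r s1),
r s2 | iv m q0 - iv m (r s2). ee_congr: ee(h1 θ1 iv m (r s1)/(r s1)) = ee(h1 θ1 iv m q0/(r s1)) = ee(h1 θ1 t2 iv m q0/q0), and the same for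
s2 with t1, θ2. eB = ee(..) * ee(vt/(m n)) by ee_add; conj (ee x) = ee (-x); collect: (θ1 h1 t2 - θ2 h2 t1) iv m q0/q0 and
h1 τ/(m r s1) - h2 τ/(m r s2) = τ (h1/(r s1) - h2/(r s2))/m. -/
def UphStmt : Prop := ∀ (θ1 θ2 : ℤ) (τ : ℝ) (r s1 s2 h1 h2 m : ℕ), 1 ≤ r → 1 ≤ s1 → 1 ≤ s2 → 1 ≤ m →
  m.Coprime (r * s1) → m.Coprime (r * s2) →
  eB ((h1 : ℤ) * θ1) ((h1 : ℝ) * τ) m (r * s1) * (starRingEnd ℂ) (eB ((h2 : ℤ) * θ2) ((h2 : ℝ) * τ) m (r * s2)) =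
    ee (((kM θ1 θ2 h1 h2 s1 s2 : ℤ) : ℝ) * (iv m (q0 r s1 s2) : ℝ) / ((q0 r s1 s2 : ℕ) : ℝ)) *
      ee (τ * ((h1 : ℝ) / ((r : ℝ) * s1) - (h2 : ℝ) / ((r : ℝ) * s2)) / m)

/-- Module Uim (theorem tUim; the inner sum). Uses: IsqStmt, UphStmt. MODEL: TN/Tim.lean (θ kk is replaced by kM θ1 θ2; nothing else
changes). (Import also TB/Psm.lean: tPsm.)
Proof. m is coprime to r s1 and r s2 iff m is coprime to q0 = r lcm(s1, s2). r, s1, s2 ≥ 1 as r s1 > P ≥ 1. q0 is squarefree: r is coprime to s1 and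
to s2 (r s1, r s2 squarefree), so to the lcm, r is squarefree, and lcm(s1, s2) is squarefree. By UphStmt, ImM = ∑_{m ∈ Ico (P+1) (3P+1)} f m g m,
f m = (if m coprime to q0 then ee(kM iv m q0/q0) else 0), g m = ee(τ w/m), w = h1/(r s1) - h2/(r s2), |w| ≤ H/P. IsqStmt for Ico (P+1) T, T ≤ 3P+1:
bound τ(q0) gcd^(1/2) q0^(1/2) (2P/q0 + 1 + log q0) ≤ τ(q0) gcd^(1/2) q0^(1/2) (3 + log q0) because q0 ≥ r s1 > P. tPsm (partial summation):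
‖ImM‖ ≤ B (1 + ∑_m ‖g (m+1) - g m‖) ≤ B (1 + 2π H |τ|/P^2) ≤ 7 B (1 + H |τ|/P^2). -/
def UimStmt : Prop := ∀ (P H : ℕ) (θ1 θ2 : ℤ) (τ : ℝ) (r s1 s2 h1 h2 : ℕ), 1 ≤ P → h1 ≤ H → h2 ≤ H → P < r * s1 →
  P < r * s2 → Squarefree (r * s1) → Squarefree (r * s2) →
  ‖ImM P θ1 θ2 τ r s1 s2 h1 h2‖ ≤ 7 * (1 + (H : ℝ) * |τ| / (P : ℝ) ^ 2) *
    (((q0 r s1 s2).divisors.card : ℝ) * (Int.gcd (kM θ1 θ2 h1 h2 s1 s2) (q0 r s1 s2) : ℝ) ^ ((1 : ℝ) / 2) *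
      ((q0 r s1 s2 : ℕ) : ℝ) ^ ((1 : ℝ) / 2) * (3 + Real.log (q0 r s1 s2 : ℕ)))

/-- Module Udg (theorem tUdg; the diagonal). Uses: nothing. (Import also TB/Tauk.lean: tTauk : TaukStmt.)
Proof. kM = 0 iff θ1 h1 t2 = θ2 h2 t1 iff θ1 h1 s2 = θ2 h2 s1 (multiply by g0 = gcd(s1, s2) > 0; θ1 = θ b1, θ2 = θ b2). Fix b1 ∈ B, h1 ∈ Icc 1 H, s2 ∈ Ico S 2S
(at most |B| H S triples; Ico S (2S) has S elements) and put n = θ1 h1 s2 ≠ 0, 1 ≤ |n| ≤ 2 X H S. Then h2 and s1 are divisors of |n| and θ2 = n/(h2 s1) is determined by h2 and s1,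
so b2 is determined (θ is injective on B): at most τ(|n|)^2 triples (b2, h2, s1). τ(|n|)^2 ≤ C^2 |n|^(2 ε') ≤ C^2 2^ε (X H S)^ε with ε' = ε/2.
(Formally: for fixed b1, h1, s2 the map (b2, h2, s1) ↦ (h2, s1) is injective on the triples with kM = 0, with image in divisors |n| × divisors |n|.) -/
def UdgStmt : Prop := ∀ ε : ℝ, 0 < ε → ∃ C : ℝ, 0 ≤ C ∧ ∀ (S H : ℕ) (X : ℝ) (B : Finset ℤ) (θ : ℤ → ℤ), 1 ≤ S → 1 ≤ H →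
  1 ≤ X → (∀ b ∈ B, ∀ b' ∈ B, θ b = θ b' → b = b') → (∀ b ∈ B, θ b ≠ 0 ∧ |(θ b : ℝ)| ≤ X) →
  ∑ b1 ∈ B, ∑ b2 ∈ B, ∑ s1 ∈ Ico S (2 * S), ∑ s2 ∈ Ico S (2 * S), ∑ h1 ∈ Icc 1 H, ∑ h2 ∈ Icc 1 H,
    (if kM (θ b1) (θ b2) h1 h2 s1 s2 = 0 then (1 : ℝ) else 0) ≤ C * (X * H * S) ^ ε * ((B.card : ℝ) * S * H)

/-- Module Ugc (theorem tUgc; the greatest common divisor of one tuple). Uses: nothing. MODEL: TN/Tgc.lean.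
Proof. q0 = r g0 t1 t2 with g0 = gcd(s1, s2), t_i = s_i/g0, gcd(t1, t2) = 1 (lcm(s1, s2) = g0 t1 t2). gcd(k, u v) divides gcd(k, u) gcd(k, v), so with
k = kM = θ1 h1 t2 - θ2 h2 t1: gcd(k, q0) ≤ gcd(k, r) gcd(k, g0) gcd(k, t1) gcd(k, t2). gcd(k, g0) ≤ g0. k ≡ θ1 h1 t2 mod t1, so gcd(k, t1) = gcd(θ1 h1 t2, t1)
= gcd(θ1 h1, t1) since t2 is coprime to t1; in the same way gcd(k, t2) = gcd(θ2 h2 t1, t2) = gcd(θ2 h2, t2). -/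
def UgcStmt : Prop := ∀ (θ1 θ2 : ℤ) (r s1 s2 h1 h2 : ℕ), 1 ≤ r → 1 ≤ s1 → 1 ≤ s2 →
  (Int.gcd (kM θ1 θ2 h1 h2 s1 s2) (q0 r s1 s2) : ℝ) ≤ (Int.gcd (kM θ1 θ2 h1 h2 s1 s2) r : ℝ) * (Nat.gcd s1 s2 : ℝ) *
    (Int.gcd (θ1 * h1) (s1 / Nat.gcd s1 s2 : ℕ) : ℝ) * (Int.gcd (θ2 * h2) (s2 / Nat.gcd s1 s2 : ℕ) : ℝ)

/-- Module Ugd (theorem tUgd; the sum over r, for one tuple with kM ≠ 0). Uses: UgcStmt. MODEL: TN/Tgd.lean. (Import also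
TB/Tauk.lean and TN/Tgs.lean: tTgs : TgsStmt.)
Proof. Sum UgcStmt over r ∈ Icc 1 R and use tTgs for D = kM ≠ 0: ∑_r gcd(D, r) ≤ τ(|D|) R ≤ C |D|^ε R, and 1 ≤ |D| ≤ 2 X H (2S) = 4 X H S
(|θ_i| ≤ X, h_i ≤ H, t_i ≤ s_i ≤ 2S). -/
def UgdStmt : Prop := ∀ ε : ℝ, 0 < ε → ∃ C : ℝ, 0 ≤ C ∧ ∀ (R S H : ℕ) (X : ℝ) (θ1 θ2 : ℤ) (s1 s2 h1 h2 : ℕ), 1 ≤ S →
  1 ≤ H → 1 ≤ X → |(θ1 : ℝ)| ≤ X → |(θ2 : ℝ)| ≤ X →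
  1 ≤ s1 → 1 ≤ s2 → s1 ≤ 2 * S → s2 ≤ 2 * S → h1 ≤ H → h2 ≤ H → kM θ1 θ2 h1 h2 s1 s2 ≠ 0 →
  ∑ r ∈ Icc 1 R, (Int.gcd (kM θ1 θ2 h1 h2 s1 s2) (q0 r s1 s2) : ℝ) ≤ C * (X * H * S) ^ ε * R *
    ((Nat.gcd s1 s2 : ℝ) * (Int.gcd (θ1 * h1) (s1 / Nat.gcd s1 s2 : ℕ) : ℝ) *
      (Int.gcd (θ2 * h2) (s2 / Nat.gcd s1 s2 : ℕ) : ℝ))

/-- Module Uge (theorem tUge; the sum over s1, s2). Uses: nothing. MODEL: TN/Tge.lean (range Ico S (2S) instead of Ioc S (2S)). (Import also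
TB/Tauk.lean and TN/Tgs.lean: tTgs : TgsStmt.)
Proof. The map (s1, s2) ↦ (g0, t1, t2) is injective and maps the pairs of Ico S (2S) (S ≥ 1) into the triples g0 ∈ Icc 1 (2S), t1, t2 ∈ Icc 1 (2S/g0). So the sum is
at most ∑_{g0 ≤ 2S} g0 (∑_{t ≤ 2S/g0} gcd(D1, t)) (∑_{t ≤ 2S/g0} gcd(D2, t)) ≤ ∑_{g0} g0 τ(|D1|) τ(|D2|) (2S/g0)^2 =
4 S^2 τ(|D1|) τ(|D2|) ∑_{g0 ≤ 2S} 1/g0 ≤ 4 S^2 τ τ (1 + log (2S)), log(2S) ≤ C S^ε, τ(|D|) ≤ C |D|^ε. -/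
def UgeStmt : Prop := ∀ ε : ℝ, 0 < ε → ∃ C : ℝ, 0 ≤ C ∧ ∀ (S : ℕ) (D1 D2 : ℤ), 1 ≤ S → D1 ≠ 0 → D2 ≠ 0 →
  ∑ s1 ∈ Ico S (2 * S), ∑ s2 ∈ Ico S (2 * S), (Nat.gcd s1 s2 : ℝ) * (Int.gcd D1 (s1 / Nat.gcd s1 s2 : ℕ) : ℝ) *
      (Int.gcd D2 (s2 / Nat.gcd s1 s2 : ℕ) : ℝ) ≤
    C * (|(D1 : ℝ)| * |(D2 : ℝ)| * S) ^ ε * (S : ℝ) ^ 2

/-- Module Ugf (theorem tUgf; the sum of the greatest common divisors). Uses: UgdStmt, UgeStmt. MODEL: TN/Tgf.lean.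
Proof. Move the sum over r inside; UgdStmt for the tuples with kM ≠ 0 (the others contribute 0, and the right side of UgdStmt is ≥ 0), then for fixed
h1, h2 (in Icc 1 H) UgeStmt with D_i = θ_i h_i ≠ 0, |D_i| ≤ X H, then sum over h1, h2 (H^2 pairs): C C' (X H S)^(ε') (X^2 H^2 S)^(ε') R S^2 H^2, ε' = ε/3
(all the bases are ≥ 1, X^2 H^2 S ≤ (X H S)^2). -/
def UgfStmt : Prop := ∀ ε : ℝ, 0 < ε → ∃ C : ℝ, 0 ≤ C ∧ ∀ (R S H : ℕ) (X : ℝ) (θ1 θ2 : ℤ), 1 ≤ S → 1 ≤ H → 1 ≤ X →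
  θ1 ≠ 0 → θ2 ≠ 0 → |(θ1 : ℝ)| ≤ X → |(θ2 : ℝ)| ≤ X →
  ∑ r ∈ Icc 1 R, ∑ s1 ∈ Ico S (2 * S), ∑ s2 ∈ Ico S (2 * S), ∑ h1 ∈ Icc 1 H, ∑ h2 ∈ Icc 1 H,
    (if kM θ1 θ2 h1 h2 s1 s2 ≠ 0 then (Int.gcd (kM θ1 θ2 h1 h2 s1 s2) (q0 r s1 s2) : ℝ) else 0) ≤
    C * (X * H * S) ^ ε * ((R : ℝ) * S ^ 2 * H ^ 2)

/-- Module Uof (theorem tUof; the weighted sum of the roots of the greatest common divisors). Uses: UgfStmt.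
Proof. Cauchy (Finset.sum_mul_sq_le_sq_mul_sq, over the product of all the index sets, or step by step) with u = ‖β b1 r s1‖‖β b2 r s2‖ and v = (if kM ≠ 0 then gcd^(1/2) else 0):
(∑ u v)^2 ≤ (∑ u^2)(∑ v^2). ∑ u^2 = ∑_{r, s1, s2, h1, h2} (∑_{b1} ‖β b1 r s1‖^2)(∑_{b2} ‖β b2 r s2‖^2) ≤ R S^2 H^2 K^2 since ‖β‖^2 ≤ ‖β‖ and ∑_b ‖β b r s‖ ≤ K
(Ico S (2S) has S elements). ∑ v^2 = ∑_{b1, b2 ∈ B} ∑_{r, ..} (if kM ≠ 0 then gcd else 0) ≤ W^2 C (X H S)^ε R S^2 H^2 by UgfStmt (exchange the sums). So the sum is ≤ √C (X H S)^(ε/2)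
K W R S^2 H^2 (K ≥ 0 because K bounds a sum of norms; W ≥ 0 because W ≥ B.card), and (X H S)^(ε/2) ≤ (X H S)^ε. -/
def UofStmt : Prop := ∀ ε : ℝ, 0 < ε → ∃ C : ℝ, 0 ≤ C ∧ ∀ (R S H : ℕ) (X K W : ℝ) (B : Finset ℤ) (β : ℤ → ℕ → ℕ → ℂ)
    (θ : ℤ → ℤ), 1 ≤ S → 1 ≤ H → 1 ≤ X → (∀ b r s, ‖β b r s‖ ≤ 1) → (∀ r s, ∑ b ∈ B, ‖β b r s‖ ≤ K) →
  (B.card : ℝ) ≤ W → (∀ b ∈ B, θ b ≠ 0 ∧ |(θ b : ℝ)| ≤ X) →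
  ∑ r ∈ Icc 1 R, ∑ b1 ∈ B, ∑ b2 ∈ B, ∑ s1 ∈ Ico S (2 * S), ∑ s2 ∈ Ico S (2 * S), ∑ h1 ∈ Icc 1 H, ∑ h2 ∈ Icc 1 H,
    ‖β b1 r s1‖ * ‖β b2 r s2‖ * (if kM (θ b1) (θ b2) h1 h2 s1 s2 ≠ 0 then
      (Int.gcd (kM (θ b1) (θ b2) h1 h2 s1 s2) (q0 r s1 s2) : ℝ) ^ ((1 : ℝ) / 2) else 0) ≤
    C * (X * H * S) ^ ε * (K * W * ((R : ℝ) * S ^ 2 * H ^ 2))

/-- Module Utr (theorem tUtr; the trilinear form of the family). Uses: UcsStmt, UimStmt, UdgStmt, UofStmt. MODEL: TN/Tri.lean (Tri_norm_Im, Tri_tau and Tri_term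
can be copied with small changes). (Import also TB/Tauk.lean.)
Proof. R = 3P/S ≤ 3P/S as reals. V = 1 + H τ0/P^2 ≥ 1 + H |τ a|/P^2. K ≥ 0, W ≥ 0. For b1, b2 ∈ B a ⊆ A and r, s1, s2 with β b1 r s1, β b2 r s2 ≠ 0: P < r s_i ≤ 3P, squarefree.
If kM = 0: ‖ImM‖ ≤ 2P. If kM ≠ 0: UimStmt, q0 ≤ r s1 s2 ≤ 3P * 2S = 6 P S ≤ 6 P^2, τ(q0) (3 + log q0) ≤ C P^ε' : ‖ImM‖ ≤ 7 V C P^ε' (6 P S)^(1/2) gcd(kM, q0)^(1/2). So for every term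
‖β‖‖β‖‖ImM‖ ≤ 2P [kM = 0] + 7 V C P^ε' (6PS)^(1/2) ‖β b1 r s1‖‖β b2 r s2‖ [kM ≠ 0] gcd^(1/2). Sum: for every a (at most W of them): UdgStmt (B = B a, θ = θ a, |B a| ≤ W; times R for the sum over r) and
UofStmt: ‖TfM‖^2 ≤ K 2P R [W R C (X H S)^ε' W S H 2P + W 7 V C P^ε' (6PS)^(1/2) C (X H S)^ε' K W R S^2 H^2]. With R ≤ 3P/S: first part ≤ C K W^2 (X H P)^ε P^4 H/S, second part
≤ C V (X H P)^(2 ε') K^2 W^2 P^(7/2) S^(1/2) H^2 (P * P/S * (P S)^(1/2) * P/S * S^2 = P^(7/2) S^(1/2)), ε' = ε/2, V ≥ 1, S ≤ P. -/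
def UtrStmt : Prop := ∀ ε : ℝ, 0 < ε → ∃ C : ℝ, 0 ≤ C ∧ ∀ (P S H : ℕ) (K W X τ0 : ℝ) (A : Finset ℤ)
    (B : ℤ → Finset ℤ) (α : ℤ → ℕ → ℂ) (β : ℤ → ℕ → ℕ → ℂ) (θ : ℤ → ℤ → ℤ) (τ : ℤ → ℝ),
  1 ≤ P → 1 ≤ S → 1 ≤ H → S ≤ P → (∀ a m, ‖α a m‖ ≤ 1) → (∀ m, ∑ a ∈ A, ‖α a m‖ ≤ K) →
  (∀ b r s, ‖β b r s‖ ≤ 1) → (∀ r s, ∑ b ∈ A, ‖β b r s‖ ≤ K) →
  (∀ b r s, β b r s ≠ 0 → P < r * s ∧ r * s ≤ 3 * P ∧ Squarefree (r * s)) →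
  (A.card : ℝ) ≤ W → (∀ a ∈ A, B a ⊆ A) → (∀ a ∈ A, ∀ b ∈ B a, ∀ b' ∈ B a, θ a b = θ a b' → b = b') →
  (∀ a ∈ A, ∀ b ∈ B a, θ a b ≠ 0 ∧ |(θ a b : ℝ)| ≤ X) → 1 ≤ X → (∀ a ∈ A, |τ a| ≤ τ0) → 0 ≤ τ0 →
  ‖TfM P S H A B α β θ τ‖ ^ 2 ≤ C * ((P : ℝ) * H * X) ^ ε * (1 + (H : ℝ) * τ0 / (P : ℝ) ^ 2) *
    (K * W ^ 2 * ((P : ℝ) ^ 4 * H / S + K * (H : ℝ) ^ 2 * ((P : ℝ) ^ ((7 : ℝ) / 2) * (S : ℝ) ^ ((1 : ℝ) / 2))))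

/-- Module Udy (theorem tUdy; dyadic decomposition of the divisors). Uses: nothing. MODEL: TN/Pdy.lean (Ico S (2S) instead of Ioc S (2S), σ n ≥ 1 instead of σ n ≥ 2,
j = Nat.log 2 (σ n) instead of clog - 1).
Proof. P = Q/g ≥ 1 (g ≤ Q), 2Q/g ≤ 2P + 1 ≤ 3P. Fix h. P^2 pg(..) = ∑_{m ∈ Ioc P (2Q/g)} ∑_{n ∈ Ioc P (2Q/g), (m,n)=1} (c(gm) P/m)(c'(gn) P/n) eB. Only n with
c'(g n) ≠ 0 matter; put s = σ n ≥ 1, r = n/s; j = Nat.log 2 s is the unique j with 2^j ≤ s < 2^(j+1); 2^j ≤ s ≤ n ≤ 3P < 2^J, so j < J.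
For fixed j, S = 2^j, the map n ↦ (n/σ n, σ n) is a bijection from the n ∈ Ioc P (2Q/g) with c'(gn) ≠ 0 and S ≤ σ n < 2S onto the pairs (r, s), r ∈ Icc 1 (3P/S), s ∈ Ico S (2S)
with the condition of be (r S ≤ r s = n ≤ 3P, so r ≤ 3P/S; conversely n = r s). In TfI the terms with m outside (P, 2Q/g] vanish
(al = 0), Ioc P (2Q/g) ⊆ Ioc P (3P). The terms agree: α m β r s eB(hθ)(hτ) m (r s). Sum over h. -/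
def UdyStmt : Prop := ∀ (Q g H J : ℕ) (c c' : ℕ → ℝ) (σ : ℕ → ℕ) (θ : ℤ) (τ : ℝ), 1 ≤ g → g ≤ Q → 3 * (Q / g) < 2 ^ J →
  (∀ n, 1 ≤ n → c' (g * n) ≠ 0 → σ n ∣ n ∧ 1 ≤ σ n) →
  (((Q / g : ℕ) : ℂ)) ^ 2 * Pf Q g H c c' θ τ =
    ∑ j ∈ range J, TfI (Q / g) (2 ^ j) H (al Q g c) (be Q g c' σ) θ τ

/-- Module Upg (theorem tUpg). FINAL STATEMENT UpgStmt (TM/StmM.lean). Uses: UtrStmt, UdyStmt. MODEL: TN/Pgt.lean. (Import also TN/Psl.lean: tPsl : PslStmt.)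
Proof. P = Q/γ ≥ 1. The form of UpgStmt is F = ∑_a ∑_{b ∈ B a} Pf Q γ H (c a) (c b) (θ a b) (τ a). σ from tPsl for c'' d = (if Conv L1 L2 d then 1 else 0): for n ≥ 1 with Conv (γ n): σ n | n,
L1/γ ≤ σ n ≤ L2; L1/γ > 0 so σ n ≥ 1. c b (γ n) ≠ 0 → Conv (γ n). J = Nat.log 2 (3P) + 1, 3P < 2^J, J ≤ C P^ε' (as Pgt_J). UdyStmt for every pair (a, b ∈ B a):
P^2 F = ∑_{j < J} TfM P (2^j) H A B (fun a => al Q γ (c a)) (fun b => be Q γ (c b) σ) θ τ, so P^4 ‖F‖^2 ≤ J ∑_{j < J} ‖TfM_j‖^2. For j: if be Q γ (c b) σ r s = 0 for all b, r and all s ∈ Ico S (2S), S = 2^j,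
then TfM_j = 0. Otherwise there are b, r, s with S ≤ s < 2S, σ (r s) = s, Conv (γ r s), so S ≤ s ≤ L2 ≤ P and S > s/2 ≥ L1/(2γ), 1/S ≤ 2γ/L1. UtrStmt for (P, S, H): its hypotheses hold:
‖al Q γ (c a) m‖ ≤ |c a (γ m)| ≤ 1 (P < m), so ∑_a ≤ K; ‖be Q γ (c b) σ r s‖ ≤ |c b (γ (r s))|, so ∑_b ≤ K; be ≠ 0 → P < r s ≤ 2Q/γ ≤ 3P and r s is squarefree (divisor of the squarefree γ (r s)). So
‖TfM_j‖^2 ≤ C (P H X)^ε' V K W^2 P^4 (2 H γ/L1 + K H^2 (L2/P)^(1/2)) (P^(7/2) S^(1/2) = P^4 (S/P)^(1/2)). Sum over j, divide by P^4; J^2 ≤ C P^(2ε'), P ≤ Q, ε' = ε/3. -/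
def UpgStmt' : Prop := UpgStmt

end Pool.Agent.Lib.TM
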