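import Pool.Agent.Lib.TN.AllW
import Pool.Agent.Lib.TN.AllA
import Pool.Agent.Lib.TM.AllG
import Pool.Agent.Lib.TM.Upg
import Pool.Agent.Lib.TM.Utr
import Pool.Agent.Lib.TM.Udy
import Pool.Agent.Lib.TM.Ucs
import Pool.Agent.Lib.TM.Uph
import Pool.Agent.Lib.TM.Uim
import Pool.Agent.Lib.TM.Udg
import Pool.Agent.Lib.TM.Ugc
import Pool.Agent.Lib.TM.Ugd
import Pool.Agent.Lib.TM.Uge
import Pool.Agent.Lib.TM.Ugf
import Pool.Agent.Lib.TM.Uof
import Pool.Agent.Lib.TV.Vpm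
import Pool.Agent.Lib.TV.FinV

/-!
MP_00e23e_nt, directory Lib/TM (THEOREM M): Theorem M without hypotheses.
-/

namespace Pool.Agent.Lib.TM

open Pool.Agent.Lib.TB Pool.Agent.Lib.TN Pool.Agent.Lib.TV

/-- the multilinear form of the family -/
theorem tUpg_all : UpgStmt :=
  tUpg (tUtr tUcs (tUim (tIsq (tKsq tWeil)) tUph) tUdg (tUof (tUgf (tUgd tUgc) tUge))) tUdy

/-- **Theorem M** -/
theorem tTMw : TMStmt :=
  tTM_of (tOffM tWb (tWx (tWf tWb)) (tEEM_of tUpg_all)) tWb tDiaK tLpS Pool.Agent.Lib.BV.aExt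

end Pool.Agent.Lib.TM
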