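import Pool.Agent.Lib.TM.StmM

/-!
MP_00e23e_nt, directory Lib/TM (THEOREM M), part G (helper95): the sum of the error terms of the pairs for the whole
family (EEMStmt) from the trilinear form for the family (UpgStmt).

Every module proves ONE of the propositions. Module Xyz: file Pool/Agent/Lib/TM/Xyz.lean; first lines
`import Pool.Agent.Lib.TM.SpecG`, then `namespace Pool.Agent.Lib.TM` and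
`open Finset Pool.Agent.Lib.EH3 Pool.Agent.Lib.TB Pool.Agent.Lib.TN Pool.Agent.Results.MP_00e23e_nt`; private lemmas start with the
name of the module; final theorem `tXyz`; the statements it uses are arguments in the given order (for example
theorem tGv1 (h1 : SsclNStmt) (h2 : SszeNStmt) (h3 : Gv0Stmt) : Gv1Stmt). Many modules are small changes of a module of Lib/TN
(MODEL: copy its private lemmas, renamed). pg, eB, SG1: TB/SpecG.lean; fEN, SN3, SN4: TN/SpecG.lean; wt, Iw, clN, SSN, WxStmt,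
SsclNStmt, SszeNStmt, WbStmt: TN/Stm2.lean. Every module below 60 s.
-/

namespace Pool.Agent.Lib.TM

open Finset Pool.Agent.Lib.EH3 Pool.Agent.Lib.TB Pool.Agent.Lib.TN Pool.Agent.Results.MP_00e23e_nt

/-- the sum of the error terms of the pairs (γ m, γ n) for the whole family -/
noncomputable def famG (N j Q γ : ℕ) (A : Finset ℤ) (c : ℤ → ℕ → ℝ) : ℂ :=
  ∑ a ∈ A, ∑ b ∈ Bg A γ a, pg Q γ (fEN N j γ (c a) (c b) a b)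

/-- the main part of the error term of the pair (γ m, γ n) (as in SN4) -/
noncomputable def mainG (N j H γ : ℕ) (a b : ℤ) (m n : ℕ) : ℂ :=
  (1 / ((γ : ℂ) * m * n)) * ∑ h ∈ Icc 1 H, ∑ t ∈ Iw N j, ((wt N j t : ℝ) : ℂ) *
    (eB ((h : ℤ) * (-((b - a) / γ))) ((h : ℝ) * (((t : ℝ) - a) / γ)) m n +
      eB ((h : ℤ) * ((b - a) / γ)) ((h : ℝ) * (-(((t : ℝ) - a) / γ))) m n)

/-- the bound of the main part: P = Q / γ (floor) -/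
noncomputable def bndG (ε : ℝ) (N Q H γ : ℕ) (L1 L2 K W : ℝ) : ℝ :=
  ((Q : ℝ) * H * (2 * N)) ^ ε * (1 + (H : ℝ) * N / ((γ : ℝ) * ((Q / γ : ℕ) : ℝ) ^ 2)) *
    (K * W ^ 2 * ((H : ℝ) * γ / L1 + K * (H : ℝ) ^ 2 * (L2 / ((Q / γ : ℕ) : ℝ)) ^ ((1 : ℝ) / 2)))

/-- Module Gv0 (70 lines; theorem tGv0 (h1 : WxStmt) : Gv0Stmt; import also TB/Msm.lean). MODEL: TN/Ncb.lean.
Proof. As tMcbN; only the estimate of the kernel changes (Ncb_ker): for 1 ≤ h < q, t = h/q: ‖GG N t‖ ≤ q, because |t - round t| ≥ 1/q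
(|t - round t| = min(h, q-h)/q, copy Msm_pt of TB/Msm.lean or Wtr_pt of TN/Wtr.lean) and norm_GG_sq_le gives ‖GG N t‖^2 ≤ q^2/4
(or norm_GG_mul_le of EH3/LS1.lean). So ‖GG‖^(2j+2)/N^(2j+1) ≤ (q^(2j)/N^(2j+1)) ‖GG‖^2; the sum of ‖GG‖^2 over Ico 1 q is ≤ q^2
((tMsm N q hN hq).2), and (1/q) (q^(2j)/N^(2j+1)) q^2 = (q/N)^(2j+1). -/
def Gv0Stmt : Prop := ∀ (N j q : ℕ) (b : ℤ), 1 ≤ N → 1 ≤ q →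
  |clN N j q b - (N : ℝ) / q| ≤ ((q : ℝ) / N) ^ (2 * j + 1)

/-- Module Gv1 (30 lines; theorem tGv1 (h1 : SsclNStmt) (h2 : SszeNStmt) (h3 : Gv0Stmt) : Gv1Stmt). MODEL: TN/Nsb.lean (the same proof). -/
def Gv1Stmt : Prop := ∀ (N j u w : ℕ) (a b : ℤ), 1 ≤ N → 1 ≤ u → 1 ≤ w →
  |SSN N j u w a b - MM N u w a b| ≤ ((Nat.lcm u w : ℝ) / N) ^ (2 * j + 1)

/-- Module Gpn (80 lines; theorem tGpn : GpnStmt; uses nothing). A bound of a family of forms pg. MODEL: N6_pg_norm of TN/N6.lean.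
Proof. m ∈ Ioc (Q/γ) (2Q/γ) gives m ≥ 1, Q < γ m ≤ 2Q (hmem in TN/N6.lean). The norm is ≤ ∑_a ∑_{b ∈ B a} ∑_{m ∈ I} ∑_{n ∈ I, (m,n)=1}
|c a (γ m)| |c b (γ n)| D ≤ D ∑_{m ∈ I} ∑_{n ∈ I} (∑_{a ∈ A} |c a (γ m)|)(∑_{b ∈ A} |c b (γ n)|) ≤ D |I|^2 K^2, I = Ioc (Q/γ) (2Q/γ), |I| ≤ 2Q
(K ≥ 0 because 0 ≤ ∑_{a ∈ A} |c a 0| ≤ K). -/
def GpnStmt : Prop := ∀ (Q γ : ℕ) (K D : ℝ) (A : Finset ℤ) (B : ℤ → Finset ℤ) (c : ℤ → ℕ → ℝ) (e : ℤ → ℤ → ℕ → ℕ → ℂ),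
  1 ≤ γ → 0 ≤ D → IsCf A K c → (∀ a ∈ A, B a ⊆ A) →
  (∀ a ∈ A, ∀ b ∈ B a, ∀ m n : ℕ, 1 ≤ m → 1 ≤ n → Q < γ * m → Q < γ * n → γ * m ≤ 2 * Q → γ * n ≤ 2 * Q →
    m.Coprime n → ‖e a b m n‖ ≤ D) →
  ‖∑ a ∈ A, ∑ b ∈ B a, pg Q γ (fun m n => ((c a (γ * m) * c b (γ * n) : ℝ) : ℂ) * e a b m n)‖ ≤
    K ^ 2 * (2 * (Q : ℝ)) ^ 2 * D

/-- Module Gla (50 lines; theorem tGla (h1 : Gv1Stmt) (h2 : GpnStmt) : GlaStmt). The bound for every γ (used for large γ).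
Proof. fEN .. m n = ((c a (γ m) * c b (γ n) : ℝ) : ℂ) * (((SSN - MM : ℝ)) : ℂ) (push_cast; ring); GpnStmt with B = Bg A γ (a subset of A:
filter_subset), e a b m n = ((SSN N j (γ m) (γ n) a b - MM N (γ m) (γ n) a b : ℝ) : ℂ), D = (4Q^2/(γ N))^(2j+1): Gv1Stmt, and
lcm(γ m, γ n) = γ m n (Nat.lcm_mul_left, Nat.Coprime.lcm_eq_mul; as in TN/N4.lean), γ (γ m n) = (γ m)(γ n) ≤ 4Q^2, so γ m n/N ≤ 4Q^2/(γ N). -/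
def GlaStmt : Prop := ∀ (N j Q γ : ℕ) (K : ℝ) (A : Finset ℤ) (c : ℤ → ℕ → ℝ), 1 ≤ N → 1 ≤ γ → IsCf A K c →
  ‖famG N j Q γ A c‖ ≤ K ^ 2 * (2 * (Q : ℝ)) ^ 2 * (4 * (Q : ℝ) ^ 2 / ((γ : ℝ) * N)) ^ (2 * j + 1)

/-- Module Gma (150 lines; theorem tGma (h1 : WbStmt) (h2 : UpgStmt) : GmaStmt). The main part. MODEL: e2, e3, e4 of TN/N6.lean (copy N6_v,
N6_pg_add, N6_pg_mul, N6_pg_sum, N6_pg_congr).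
Proof. As in e2 of TN/N6.lean, the form of one pair (a, b) is ∑_{t ∈ Iw} (wt(t) (1/γ)) (F-(t, a, b) + F+(t, a, b)), F-+(t, a, b) = ∑_{h ∈ Icc 1 H}
pg Q γ (c c' (1/(m n)) eB(h θ)(h τ)) with θ = -+(b-a)/γ, τ = +-(t-a)/γ. Sum over a and b ∈ Bg A γ a and exchange with t: the whole is
∑_t (wt(t)/γ) (G-(t) + G+(t)), G-+(t) = ∑_a ∑_{b ∈ Bg A γ a} F-+(t, a, b). UpgStmt (with ε; B = Bg A γ, θ a b = -+(b-a)/γ, τ a = +-(t-a)/γ, X = 2N,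
τ0 = (j+2) N/γ): θ a b = θ a b' → b = b' because γ (b-a)/γ = b-a for b ∈ Bg A γ a; θ ≠ 0 as b ≠ a; |θ| ≤ |b-a| ≤ 2N; for t ∈ Iw N j:
|t-a| ≤ (j+2) N. 1 + H τ0/P^2 ≤ (j+2)(1 + H N/(γ P^2)) (P = Q/γ ≥ 1). So ‖G-+(t)‖^2 ≤ C (j+2) bndG (all factors of bndG are ≥ 0: K ≥ 0 because it bounds
a sum of absolute values), ‖G-+(t)‖ ≤ (C (j+2))^(1/2) bndG^(1/2) (Real.rpow_natCast / Real.sqrt; abs_le_sqrt). wt ≤ 1, Iw N j has 2(j+1)N + 1 ≤ 3(j+1)N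
elements: constant 6 (j+1) (C (j+2))^(1/2). -/
def GmaStmt : Prop := ∀ (ε : ℝ) (j : ℕ), 0 < ε → ∃ C : ℝ, 0 ≤ C ∧ ∀ (N Q H γ : ℕ) (L1 L2 K W : ℝ) (A : Finset ℤ)
    (c : ℤ → ℕ → ℝ),
  1 ≤ N → 1 ≤ H → 1 ≤ γ → γ ≤ Q → 1 ≤ L1 → L1 ≤ L2 → L2 ≤ ((Q / γ : ℕ) : ℝ) → IsCf A K c →
  (∀ a d, c a d ≠ 0 → Conv L1 L2 d) → (A.card : ℝ) ≤ W → (∀ a ∈ A, |a| ≤ (N : ℤ)) →
  ‖∑ a ∈ A, ∑ b ∈ Bg A γ a, pg Q γ (fun m n => ((c a (γ * m) * c b (γ * n) : ℝ) : ℂ) * mainG N j H γ a b m n)‖ ≤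
    C * ((N : ℝ) / γ) * (bndG ε N Q H γ L1 L2 K W) ^ ((1 : ℝ) / 2)

/-- Module Gsm (80 lines; theorem tGsm (h1 : SN4) (h2 : GpnStmt) (h3 : GmaStmt) : GsmStmt). The bound for small γ. MODEL: e1 of TN/N6.lean.
Proof. fEN = c c' (SSN - MM) = c c' ((SSN - MM) - mainG) + c c' mainG for every pair; pg and the sums are additive. The second part: GmaStmt.
The first part: GpnStmt with B = Bg A γ, D = (4Q^2/(γ N H))^(2j+1): SN4 (γ | b - a for b ∈ Bg A γ a) gives the norm ≤ (γ m n/(N H))^(2j+1), γ (γ m n) = (γ m)(γ n)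
≤ 4Q^2; 2H < γ m n because γ (γ m n) = (γ m)(γ n) > Q^2 ≥ 2 H γ. -/
def GsmStmt : Prop := ∀ (ε : ℝ) (j : ℕ), 0 < ε → ∃ C : ℝ, 0 ≤ C ∧ ∀ (N Q H γ : ℕ) (L1 L2 K W : ℝ) (A : Finset ℤ)
    (c : ℤ → ℕ → ℝ),
  1 ≤ N → 1 ≤ H → 1 ≤ γ → γ ≤ Q → 2 * H * γ ≤ Q ^ 2 → 1 ≤ L1 → L1 ≤ L2 → L2 ≤ ((Q / γ : ℕ) : ℝ) → IsCf A K c →
  (∀ a d, c a d ≠ 0 → Conv L1 L2 d) → (A.card : ℝ) ≤ W → (∀ a ∈ A, |a| ≤ (N : ℤ)) →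
  ‖famG N j Q γ A c‖ ≤ K ^ 2 * (2 * (Q : ℝ)) ^ 2 * (4 * (Q : ℝ) ^ 2 / ((γ : ℝ) * N * H)) ^ (2 * j + 1) +
    C * ((N : ℝ) / γ) * (bndG ε N Q H γ L1 L2 K W) ^ ((1 : ℝ) / 2)

/-- Module Gex (200 lines; theorem tGex : GexStmt; uses nothing). The exponents. MODEL: TN/N7.lean.
Proof. κ = ε/200. 9δ + 6v + 2ε ≤ 1/2 + g ≤ 1/2 + 2δ, so 7δ + 6v + 2ε ≤ 1/2: δ ≤ 1/14, v ≤ 1/12, ε ≤ 1/4, κ ≤ 1/800. N0 with N0 ≥ 5000 and N0^(ε/2) ≥ 16.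
K ≥ N^g ≥ 1. G = 4 N^κ Q^2/N; γ ≤ G by hypothesis. H = ⌈G/γ⌉: 1 ≤ G/γ ≤ H ≤ G/γ + 1 ≤ 2G/γ, so G ≤ γ H ≤ 2G. G ≤ 16 N^(κ+2δ) (Q^2 ≤ 4 N^(1+2δ)).
(a) 4Q^2/(γ N H) ≤ 4Q^2/(N G) = N^(-κ); its power 2j+1 is ≤ N^(-κ(2j+1)) ≤ N^(-3).
(b) γ ≤ G = Q (4 N^κ Q/N) ≤ Q (8 N^(κ+δ-1/2)) ≤ Q, as N^(1/2-δ-κ) ≥ N^(1/4) ≥ 8.
(c) 2Hγ ≤ 4G = 16 N^κ Q^2/N ≤ Q^2, as N^(1-κ) ≥ N^(1/2) ≥ 16.
(d) L1 ≥ N^(2δ+2v-g+ε) ≥ 1.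
(e) P = floor(Q/γ) ≥ Q/(2γ) (γ ≤ Q; as G7_div of TB/G7.lean) ≥ Q/(2G) = N^(1-κ)/(8Q) ≥ N^(1/2-δ-κ)/16 ≥ N^(1/2-7δ-4v-ε) ≥ L2, as N^(ε-κ) ≥ N^(ε/2) ≥ 16.
(f) H N/(γ P^2) ≤ 4 H γ N/Q^2 ≤ 8 G N/Q^2 = 32 N^κ, so 1 + .. ≤ 33 N^κ.
(g) H γ/L1 ≤ 2G/L1 ≤ 32 N^(κ-2v+g-ε).
(h) H^2 (L2/P)^(1/2) ≤ (2G/γ)^2 (2γ L2/Q)^(1/2) ≤ 8 G^2 (L2/Q)^(1/2) (γ^(1/2) ≤ γ^2, 2^(1/2) ≤ 2), and G^2 (L2/Q)^(1/2) = 16 N^(2κ-2) Q^(7/2) L2^(1/2) ≤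
16 N^(2κ-2) 12 N^(7/4+7δ/2) N^(1/4-7δ/2-2v-ε/2) = 192 N^(2κ-2v-ε/2) (2^(7/2) ≤ 12). So H^2 (L2/P)^(1/2) ≤ 1536 N^(2κ-2v-ε/2).
(i) With W = K N^v: K W^2 (..) ≤ K^3 N^(2v) (32 N^(κ-2v+g-ε) + 1536 K N^(2κ-2v-ε/2)) ≤ 1568 K^4 N^(2κ-ε/2) (N^g ≤ K).
(j) Q ≤ 2N, H ≤ γ H ≤ 2G ≤ 32 N, so (Q H 2N)^(ε/1000) ≤ (128 N^3)^(ε/1000) ≤ 2 N^(3ε/1000) (128^(ε/1000) ≤ 128^(1/4000) ≤ 2).
(k) bndG ≤ 2 N^(3ε/1000) 33 N^κ 1568 K^4 N^(2κ-ε/2) = 103488 K^4 N^(-482 ε/1000) ≤ (322 K^2 N^(-ε/10))^2, and C (N/γ) bndG^(1/2) ≤ 322 C K^2 N^(1-ε/10)/γ.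
C1 = 322 C. -/
def GexStmt : Prop := ∀ (δ v g ε C : ℝ) (j : ℕ), 0 ≤ δ → 0 ≤ v → 0 ≤ g → g ≤ 2 * δ → 0 < ε →
  2 * δ + 2 * v - g + ε ≤ 1 / 2 - 7 * δ - 4 * v - ε → 0 ≤ C → 3 ≤ ε / 200 * (2 * j + 1) →
  ∃ C1 : ℝ, ∃ N0 : ℕ, 0 ≤ C1 ∧ ∀ (N Q γ : ℕ) (L1 L2 K : ℝ), N0 ≤ N → 1 ≤ N → 1 ≤ γ →
    (Q : ℝ) ≤ 2 * (N : ℝ) ^ ((1 : ℝ) / 2 + δ) → (N : ℝ) ^ (2 * δ + 2 * v - g + ε) ≤ L1 → L1 ≤ L2 →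
    L2 ≤ (N : ℝ) ^ ((1 : ℝ) / 2 - 7 * δ - 4 * v - ε) → (N : ℝ) ^ g ≤ K →
    (γ : ℝ) * N ≤ 4 * (N : ℝ) ^ (ε / 200) * (Q : ℝ) ^ 2 →
    ∃ H : ℕ, 1 ≤ H ∧ γ ≤ Q ∧ 2 * H * γ ≤ Q ^ 2 ∧ 1 ≤ L1 ∧ L2 ≤ ((Q / γ : ℕ) : ℝ) ∧
      (4 * (Q : ℝ) ^ 2 / ((γ : ℝ) * N * H)) ^ (2 * j + 1) ≤ (N : ℝ) ^ (-3 : ℝ) ∧
      C * ((N : ℝ) / γ) * (bndG (ε / 1000) N Q H γ L1 L2 K (K * (N : ℝ) ^ v)) ^ ((1 : ℝ) / 2) ≤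
        C1 * K ^ 2 * (N : ℝ) ^ (1 - ε / 10) / γ

/-- Module Gde (60 lines; theorem tGde (h1 : SG1) (h2 : SN3) : GdeStmt). The decomposition. MODEL: e1, e2 of TN/N8.lean.
Proof. SG1 for every pair (a, b ∈ A.erase a), then exchange the sum over γ with the sums over a and b; for b ∈ A.erase a with ¬ γ | b - a the form is 0 (SN3), the
others form Bg A γ a. So the sum (as a complex number) is ∑_{γ ∈ Icc 1 2Q} famG; norm_sum_le. -/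
def GdeStmt : Prop := ∀ (N j Q : ℕ) (A : Finset ℤ) (c : ℤ → ℕ → ℝ),
  |∑ a ∈ A, ∑ b ∈ A.erase a, ∑ d ∈ Ioc Q (2 * Q), ∑ d' ∈ Ioc Q (2 * Q),
      c a d * c b d' * (SSN N j d d' a b - MM N d d' a b)| ≤ ∑ γ ∈ Icc 1 (2 * Q), ‖famG N j Q γ A c‖

/-- Module Gfi (120 lines; theorem tGfi (h1 : GlaStmt) (h2 : GsmStmt) (h3 : GexStmt) (h4 : GdeStmt) : EEMStmt). The result. MODEL: TN/N8.lean.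
Proof. κ = ε/200, j = ⌈600/ε⌉ (then 3 ≤ ε/200 (2j+1)), C from GsmStmt with ε/1000 and j, C1 and N0 from GexStmt with C; η = ε/20. If L2 < L1 then c a d = 0 for all
a, d and the sum is 0. K ≥ N^g ≥ 1. Put E = K^2 (2Q)^2 N^(-3). For every γ ∈ Icc 1 (2Q): ‖famG‖ ≤ E + C1 K^2 N^(1-ε/10)/γ: if γ N ≤ 4 N^κ Q^2 by GexStmt and GsmStmt
(W = K N^v); otherwise 4Q^2/(γ N) ≤ N^(-κ), its power 2j+1 is ≤ N^(-3), and GlaStmt. GdeStmt; sum over γ: 2Q E + C1 K^2 N^(1-ε/10) ∑_{γ ≤ 2Q} 1/γ. 2Q E = 8 Q^3 K^2 N^(-3) ≤ 64 K^2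
(Q ≤ 2 N^(1/2+δ) ≤ 2N) ≤ 64 K^2 N^(1-ε/20); ∑_{γ ≤ 2Q} 1/γ ≤ 1 + log(2Q) (harmonic_le_one_add_log, or copy from Lib), 2Q ≤ 4N, log(4N) ≤ (4N)^(ε/20)/(ε/20)
(Real.log_le_rpow_div) ≤ (80/ε) N^(ε/20), 1 ≤ N^(ε/20). Constant 64 + C1 (1 + 80/ε). -/
def GfiStmt : Prop := EEMStmt

end Pool.Agent.Lib.TM
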