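import Pool.Agent.Lib.TN.Stm3
import Pool.Agent.Lib.TN.SpecG
import Pool.Agent.Lib.TN.SpecT
import Pool.Agent.Lib.TB.StmK

/-!
MP_00e23e_nt, directory Lib/TM (THEOREM M, helper3): Theorem N for functions with x^v values (v up to 1/12), with
exceptional sets of x^g elements (g = 0: a power of log x). Interfaces. Directory Lib/TN is used as it is.

MAIN DIFFERENCE TO THEOREM N. The off-diagonal terms are bounded for the whole family at once: A is the set of all the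
values, c a d (a ∈ A) are coefficients with |c a d| ≤ 1 and ∑_{a ∈ A} |c a d| ≤ K for every d (K = number of functions of
the family), |A| ≤ K N^v; result C K^2 N^(1-η).
-/

namespace Pool.Agent.Lib.TM

open Finset Pool.Agent.Lib.EH3 Pool.Agent.Lib.TB Pool.Agent.Lib.TN Pool.Agent.Results.MP_00e23e_nt

/-- a family of coefficients -/
def IsCf (A : Finset ℤ) (K : ℝ) (c : ℤ → ℕ → ℝ) : Prop :=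
  (∀ a d, |c a d| ≤ 1) ∧ ∀ d, ∑ a ∈ A, |c a d| ≤ K

/-- the b ∈ A different from a with γ | b - a -/
def Bg (A : Finset ℤ) (γ : ℕ) (a : ℤ) : Finset ℤ := A.filter (fun b => b ≠ a ∧ (γ : ℤ) ∣ b - a)

/-- the multilinear form for the pairs (γ m, γ n) (part T, helper3; uses IsqStmt of TN). θ a and τ a are the frequency
and the real phase for the value a; B a is the set of the b which occur with a. -/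
def UpgStmt : Prop := ∀ ε : ℝ, 0 < ε → ∃ C : ℝ, 0 ≤ C ∧ ∀ (Q γ H : ℕ) (L1 L2 K W X τ0 : ℝ) (A : Finset ℤ)
    (B : ℤ → Finset ℤ) (c : ℤ → ℕ → ℝ) (θ : ℤ → ℤ → ℤ) (τ : ℤ → ℝ),
  1 ≤ γ → γ ≤ Q → 1 ≤ H → 1 ≤ L1 → L1 ≤ L2 → L2 ≤ ((Q / γ : ℕ) : ℝ) → IsCf A K c →
  (∀ a d, c a d ≠ 0 → Conv L1 L2 d) → (A.card : ℝ) ≤ W → (∀ a ∈ A, B a ⊆ A) →
  (∀ a ∈ A, ∀ b ∈ B a, ∀ b' ∈ B a, θ a b = θ a b' → b = b') →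
  (∀ a ∈ A, ∀ b ∈ B a, θ a b ≠ 0 ∧ |(θ a b : ℝ)| ≤ X) → 1 ≤ X → (∀ a ∈ A, |τ a| ≤ τ0) → 0 ≤ τ0 →
  ‖∑ a ∈ A, ∑ b ∈ B a, ∑ h ∈ Icc 1 H, pg Q γ (fun m n => ((c a (γ * m) * c b (γ * n) : ℝ) : ℂ) *
      (1 / ((m : ℂ) * n)) * eB ((h : ℤ) * θ a b) ((h : ℝ) * τ a) m n)‖ ^ 2 ≤
    C * ((Q : ℝ) * H * X) ^ ε * (1 + (H : ℝ) * τ0 / ((Q / γ : ℕ) : ℝ) ^ 2) *
      (K * W ^ 2 * ((H : ℝ) * γ / L1 + K * (H : ℝ) ^ 2 * (L2 / ((Q / γ : ℕ) : ℝ)) ^ ((1 : ℝ) / 2)))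

/-- the sum of the error terms of the pairs (d, d') for the whole family (result of part G, helper95) -/
def EEMStmt : Prop := ∀ δ v g ε : ℝ, 0 ≤ δ → 0 ≤ v → 0 ≤ g → g ≤ 2 * δ → 0 < ε →
  2 * δ + 2 * v - g + ε ≤ 1 / 2 - 7 * δ - 4 * v - ε →
  ∃ (j : ℕ) (C η κ : ℝ) (N0 : ℕ), 0 < η ∧ 0 < κ ∧ ∀ (N Q : ℕ) (L1 L2 K : ℝ) (A : Finset ℤ) (c : ℤ → ℕ → ℝ),
    N0 ≤ N → 1 ≤ N →
    (N : ℝ) ^ ((1 : ℝ) / 2 - κ) ≤ Q → (Q : ℝ) ≤ 2 * (N : ℝ) ^ ((1 : ℝ) / 2 + δ) →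
    (N : ℝ) ^ (2 * δ + 2 * v - g + ε) ≤ L1 → L2 ≤ (N : ℝ) ^ ((1 : ℝ) / 2 - 7 * δ - 4 * v - ε) →
    IsCf A K c → (∀ a d, c a d ≠ 0 → Conv L1 L2 d) → (A.card : ℝ) ≤ K * (N : ℝ) ^ v → (N : ℝ) ^ g ≤ K →
    (∀ a ∈ A, |a| ≤ (N : ℤ)) →
    |∑ a ∈ A, ∑ b ∈ A.erase a, ∑ d ∈ Ioc Q (2 * Q), ∑ d' ∈ Ioc Q (2 * Q),
        c a d * c b d' * (SSN N j d d' a b - MM N d d' a b)| ≤ C * K ^ 2 * (N : ℝ) ^ (1 - η)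

/-- (OFF) for the whole family (result of part M, helper19) -/
def OffMStmt : Prop := ∀ δ v g ε : ℝ, 0 ≤ δ → 0 ≤ v → 0 ≤ g → g ≤ 2 * δ → 0 < ε →
  2 * δ + 2 * v - g + ε ≤ 1 / 2 - 7 * δ - 4 * v - ε →
  ∃ (j : ℕ) (C η κ : ℝ), 0 < η ∧ 0 < κ ∧ ∀ (N Q : ℕ) (L1 L2 K : ℝ) (A : Finset ℤ) (c : ℤ → ℕ → ℝ), 1 ≤ N →
    (N : ℝ) ^ ((1 : ℝ) / 2 - κ) ≤ Q → (Q : ℝ) ≤ 2 * (N : ℝ) ^ ((1 : ℝ) / 2 + δ) →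
    (N : ℝ) ^ (2 * δ + 2 * v - g + ε) ≤ L1 → L2 ≤ (N : ℝ) ^ ((1 : ℝ) / 2 - 7 * δ - 4 * v - ε) →
    IsCf A K c → (∀ a d, c a d ≠ 0 → Conv L1 L2 d) → (A.card : ℝ) ≤ K * (N : ℝ) ^ v → (N : ℝ) ^ g ≤ K →
    (∀ a ∈ A, |a| ≤ (N : ℤ)) →
    |∑ a ∈ A, ∑ b ∈ A.erase a, ∑ n ∈ Iw N j,
        wt N j n * (FF (RN δ ε N) Q (c a) (n - a) * FF (RN δ ε N) Q (c b) (n - b))| ≤ C * K ^ 2 * (N : ℝ) ^ (1 - η)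

/-- **THEOREM M** (final statement; assembly helper64) -/
def TMStmt : Prop := ∀ δ v g ε : ℝ, 0 ≤ δ → 0 ≤ v → 0 ≤ g → g ≤ 2 * δ → 0 < ε → ∃ k : ℝ, ∀ U : ℝ, 0 < U → ∃ C : ℝ,
  ∀ (x : ℝ) (J : Finset ℕ) (s : ℕ → ℕ → ℤ), 3 ≤ x →
  (∀ i ∈ J, ∀ d ∈ Icc 1 ⌊x ^ ((1 : ℝ) / 2 + δ)⌋₊, |(s i d : ℝ)| ≤ x) →
  (∀ i ∈ J, (((Icc 1 ⌊x ^ ((1 : ℝ) / 2 + δ)⌋₊).image (s i)).card : ℝ) ≤ x ^ v) →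
  (∀ i ∈ J, ∀ j ∈ J, i ≠ j → ∀ d ∈ Icc 1 ⌊x ^ ((1 : ℝ) / 2 + δ)⌋₊, s i d ≠ s j d) →
  ∃ S ⊆ J, (S.card : ℝ) ≤ C * x ^ g * (Real.log x) ^ (5 * U + k) ∧ ∀ i ∈ J, i ∉ S →
    ∀ (y : ℕ → ℝ) (M : Finset ℕ), (∀ d, 2 ≤ y d ∧ y d ≤ x) →
      (∀ d ∈ M, 1 ≤ d ∧ (d : ℝ) ≤ x ^ ((1 : ℝ) / 2 + δ) ∧ Int.gcd (s i d) d = 1 ∧
        Conv (x ^ (2 * δ + 2 * v - g + ε)) (x ^ ((1 : ℝ) / 2 - 7 * δ - 4 * v - ε)) d) →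
      ∑ d ∈ M, |resErr (y d) d (s i d)| ≤ C * (x / (Real.log x) ^ U)

end Pool.Agent.Lib.TM
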